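import Mathlib

/-!
# Commuting operators of finite order
-/

open Polynomial

namespace Pool.Agent.H281R3.HT

variable {K M : Type*} [Field K] [AddCommGroup M] [Module K M]

/-- Commuting operators of finite order on a finite-dimensional space over an algebraically closed
field of characteristic zero have a spanning set of common eigenvectors. -/
theorem span_eigen [IsAlgClosed K] [CharZero K] [FiniteDimensional K M] {G : Type*}
    (f : G → Module.End K M) (hcomm : ∀ g h, Commute (f g) (f h)) {e : ℕ} (he : 0 < e)
    (hfe : ∀ g, f g ^ e = 1) (m : M) :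
    m ∈ Submodule.span K {v | ∀ g, ∃ c : K, f g v = c • v} := by
  have hss : ∀ g, (f g).IsSemisimple := by
    intro g
    refine Module.End.isSemisimple_of_squarefree_aeval_eq_zero (p := X ^ e - C 1) ?_ ?_
    · apply Polynomial.Separable.squarefree
      apply Polynomial.separable_X_pow_sub_C
      · exact_mod_cast he.ne'
      · exact one_ne_zero
    · simp [hfe g]
  have h1 : ⨆ χ : G → K, ⨅ i, (f i).maxGenEigenspace (χ i) = ⊤ := by
    apply Module.End.iSup_iInf_maxGenEigenspace_eq_top_of_iSup_maxGenEigenspace_eq_top_of_commute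
    · exact fun i j _ => hcomm i j
    · intro i
      exact Module.End.iSup_maxGenEigenspace_eq_top (f i)
  have h2 : m ∈ ⨆ χ : G → K, ⨅ i, (f i).maxGenEigenspace (χ i) := by
    rw [h1]; trivial
  have h3 : (⨆ χ : G → K, ⨅ i, (f i).maxGenEigenspace (χ i)) ≤
      Submodule.span K {v | ∀ g, ∃ c : K, f g v = c • v} := by
    rw [iSup_le_iff]
    intro χ v hv
    apply Submodule.subset_span
    intro g
    refine ⟨χ g, ?_⟩
    have h4 := (Submodule.mem_iInf _).1 hv g
    rw [(hss g).isFinitelySemisimple.maxGenEigenspace_eq_eigenspace, Module.End.mem_eigenspace_iff]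
      at h4
    exact h4
  exact h3 h2

end Pool.Agent.H281R3.HT
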