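import Pool.Agent.H281R3.HT.FDef

/-!
# Commutative groups of automorphisms with simple spectrum on the transcendental cohomology
-/

open CategoryTheory AlgebraicGeometry

universe u v w

namespace Pool.Agent.H281R3.HT

open Pool.Agent.H914 Pool.Agent.H914.VarClass Pool.Agent.H914.VarClass.Obj
  Pool.Agent.H914.WeilCohomology

/-- Any two common eigenvectors in `T` of the operators `ρ g`, with the same eigenvalues, are
proportional. -/
def SimpleSpectrumOn {K A G : Type*} [Field K] [AddCommGroup A] [Module K A] (T : Submodule K A)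
    (ρ : G → A → A) : Prop :=
  ∀ s ∈ T, ∀ t ∈ T, s ≠ 0 → (∀ g, ∃ c : K, ρ g s = c • s ∧ ρ g t = c • t) → ∃ a : K, t = a • s

variable {k : Type u} [Field k] {𝒱 : VarClass k} {ops : CycleOps 𝒱}

/-- A commutative group of finite exponent `e` of automorphisms `g` of `X` (with `g_* [X] = [X]`),
which has simple spectrum on the transcendental cohomology of `X`; the conjugation `S` inverts the
`e`-th roots of unity. -/
structure AbelianAction {W : WeilCohomology.{u, v} ops} (S : Conjugation W) (X : 𝒱.Obj) where
  /-- the group -/
  G : Type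
  grp : CommGroup G
  /-- the action -/
  act : G →* Aut X
  push_one : ∀ g, W.push (act g).hom 1 = 1
  /-- the exponent -/
  e : ℕ
  pos : 0 < e
  exponent : ∀ g : G, g ^ e = 1
  conj : ∀ ζ : W.K, ζ ^ e = 1 → S.τ ζ = ζ⁻¹
  simple : SimpleSpectrumOn (transcendental W X) (fun g => W.map (act g).hom)

end Pool.Agent.H281R3.HT
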