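import Pool.Agent.H281R3.HT.EMain
import Pool.Agent.H447R3.DegB

/-!
# The conjectures B and D for products, from a commutative commutant
-/

open CategoryTheory AlgebraicGeometry

universe u v w

namespace Pool.Agent.H281R3.HT

open Pool.Agent.H914 Pool.Agent.H914.VarClass Pool.Agent.H914.VarClass.Obj
  Pool.Agent.H914.WeilCohomology

variable {k : Type u} [Field k] {𝒱 : VarClass k} {ops : CycleOps 𝒱}
  {W : WeilCohomology.{u, v} ops} {X X' Y Z : 𝒱.Obj}

/-- Products of dominated varieties are dominated by products. -/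
theorem dominates_prod (h : Dominates W X Y) (h' : Dominates W X' Z) :
    Dominates W (X.prod X') (Y.prod Z) := by
  obtain ⟨g, p, w, c, hw, hc, hpush⟩ := h
  obtain ⟨g', p', w', c', hw', hc', hpush'⟩ := h'
  set G : X.prod X' ⟶ Y.prod Z := Obj.lift (fst X X' ≫ g) (snd X X' ≫ g') with hG
  have hG1 : ∀ u, W.map G (W.map (fst Y Z) u) = W.map (fst X X') (W.map g u) := by
    intro u
    rw [← W.map_comp, ← W.map_comp, hG, Obj.lift_fst]
  have hG2 : ∀ u, W.map G (W.map (snd Y Z) u) = W.map (snd X X') (W.map g' u) := by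
    intro u
    rw [← W.map_comp, ← W.map_comp, hG, Obj.lift_snd]
  refine ⟨G, p + p', ops.mul (ops.pull (fst X X') w) (ops.pull (snd X X') w'), c * c',
    ops.mul_mem (ops.pull_mem _ hw) (ops.pull_mem _ hw'), mul_ne_zero hc hc', ?_⟩
  rw [W.cl_mul, W.cl_pull, W.cl_pull, ← sub_eq_zero]
  apply W.nondeg
  intro b
  rw [sub_mul, map_sub, sub_eq_zero, W.tr_push]
  refine W.kunneth_induction (p := fun b => W.tr (X.prod X')
    (W.map (fst X X') (W.cl X w) * W.map (snd X X') (W.cl X' w') * W.map G b) =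
      W.tr (Y.prod Z) ((c * c') • 1 * b)) ?_ ?_ b
  · intro a b ha hb
    rw [map_add, mul_add, map_add, ha, hb, mul_add, map_add]
  · intro i j a _ b _
    have e1 : W.tr Y ((c • (1 : W.H Y)) * a) = W.tr X (W.cl X w * W.map g a) := by
      rw [← hpush, W.tr_push]
    have e2 : W.tr Z ((c' • (1 : W.H Z)) * b) = W.tr X' (W.cl X' w' * W.map g' b) := by
      rw [← hpush', W.tr_push]
    rw [smul_mul_assoc, one_mul, map_smul] at e1 e2
    have e3 : W.map (fst X X') (W.cl X w) * W.map (snd X X') (W.cl X' w') *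
        W.map G (W.map (fst Y Z) a * W.map (snd Y Z) b) =
        W.map (fst X X') (W.cl X w * W.map g a) * W.map (snd X X') (W.cl X' w' * W.map g' b) := by
      rw [map_mul, hG1, hG2, map_mul, map_mul]
      have e4 : W.map (snd X X') (W.cl X' w') * W.map (fst X X') (W.map g a) =
          W.map (fst X X') (W.map g a) * W.map (snd X X') (W.cl X' w') :=
        W.even_comm (W.map_mem _ (W.cl_mem hw')) _
      rw [mul_assoc, ← mul_assoc (W.map (snd X X') (W.cl X' w')), e4]
      simp only [mul_assoc]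
    rw [e3, W.tr_prod, ← e1, ← e2, smul_mul_assoc (c * c') (1 : W.H (Y.prod Z)), one_mul, map_smul,
      W.tr_prod]
    simp only [smul_eq_mul]
    ring

/-- **The conjectures `B` and `D` for all varieties dominated by products.** -/
theorem products_iff_BD [IsAlgClosed W.K] {S : SemiLin W} (hS : PushCompatible S)
    {ι : Type w} (P : ι → 𝒱.Obj) (hC : ∀ i, CommCommK W (P i))
    (hH : ∀ i, PairsConjK S (P i)) :
    (∀ i, HomEqNum W (P i)) ↔
      ∀ Q, IsProductOf (Set.range P) Q → ∀ Y, Dominates W Q Y → HomEqNum W Y ∧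
        ∀ D, Y.IsCyc 1 D → HardLefschetz W Y D → LefschetzB W Y D := by
  rw [homEqNum_products_iff' hS P hC hH]
  constructor
  · intro h Q hQ Y hY
    refine ⟨h Q hQ Y hY, fun D hD hHL => ?_⟩
    have h1 := h (Q.prod Q) (IsProductOf.prod hQ hQ) (Y.prod Y) (dominates_prod hY hY)
    apply Pool.Agent.H447.lefschetzB_of_homEqNumIn hD hHL
    intro z hz hnum
    by_cases hd : Y.dim + 1 ≤ (Y.prod Y).dim
    · exact h1 (Y.dim + 1) hd z hz hnum
    · have h2 := W.cl_mem hz
      rw [W.gr_eq_bot _ _ (by omega), Submodule.mem_bot] at h2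
      exact h2
  · intro h Q hQ Y hY
    exact (h Q hQ Y hY).1

end Pool.Agent.H281R3.HT
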