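import Pool.Agent.H281R3.HT.FDef
import Pool.Agent.H281R3.HT.ELef

/-!
# The conjectures B and D for products, from a commutative commutant
-/

open CategoryTheory AlgebraicGeometry

universe u v w

namespace Pool.Agent.H281R3.HT

open Pool.Agent.H914 Pool.Agent.H914.VarClass Pool.Agent.H914.VarClass.Obj
  Pool.Agent.H914.WeilCohomology

variable {k : Type u} [Field k] {𝒱 : VarClass k} {ops : CycleOps 𝒱}
  {W : WeilCohomology.{u, v} ops} {X X' Y Z : 𝒱.Obj}

/-- A conjugation as a semilinear automorphism. -/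
def Conjugation.toSemiLin (S : Conjugation W) : SemiLin W where
  τ := S.τ
  σ X :=
    { toFun := S.σ X
      map_zero' := by
        have h := (S.isConjugation X).add 0 0
        rw [add_zero] at h
        exact left_eq_add.1 h
      map_add' := (S.isConjugation X).add }
  smul c a := (S.isConjugation _).smul c a
  mul a b := (S.isConjugation _).mul a b
  map f a := (S.map f a).symm
  gr {X i a} h := (S.isConjugation X).gr i a h
  cl z := S.cl _ z
  inj a h := (S.isConjugation _).inj a h

lemma Conjugation.pushCompatible (S : Conjugation W) : PushCompatible S.toSemiLin :=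
  fun f a => (S.push f a).symm

lemma corr_mem_correspondences {p : ℕ} {e : W.H X → W.H X} (he : e ∈ correspondences W X p) :
    ∃ δ, ∃ θ ∈ KOp W X X δ, (∀ a, θ a = e a) ∧ (X.dim : ℤ) + δ = p := by
  obtain ⟨z, hz, rfl⟩ := he
  refine ⟨(p : ℤ) - X.dim, W.corr (W.cl _ z), KOp.gen (p := p) (by ring) hz, fun a => ?_, by ring⟩
  rw [corr_apply]

lemma CommutativeCommutant.toK (h : CommutativeCommutant W X) : CommCommK W X := by
  intro φ ψ hφ hψ
  have key : ∀ φ : Module.End W.K (W.H X), Commuting W X φ → ∀ e ∈ correspondences W X X.dim,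
      ∀ t ∈ transcendental W X, φ (e t) = e (φ t) := by
    intro φ hφ e he t ht
    obtain ⟨δ, θ, hθ, he, hδ⟩ := corr_mem_correspondences he
    rw [← he, ← he]
    exact hφ.2 θ (KOp.cast hθ (by omega)) t ht
  exact h φ ψ hφ.1 (key φ hφ) hψ.1 (key ψ hψ)

lemma PairsWithConjugate.toK {S : Conjugation W} (h : PairsWithConjugate S X) :
    PairsConjK S.toSemiLin X := by
  intro V hV hne hs
  obtain ⟨θ, hθ, x, hx, y, hy, hxy⟩ := h V hV hne (by
    intro e he v hv
    obtain ⟨δ, θ, hθ, he, hδ⟩ := corr_mem_correspondences he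
    rw [← he]
    exact hs θ (KOp.cast hθ (by omega)) v hv)
  obtain ⟨p, hp⟩ := Set.mem_iUnion.1 hθ
  obtain ⟨δ, θ', hθ', he, -⟩ := corr_mem_correspondences hp
  refine ⟨δ, θ', hθ', x, hx, y, hy, ?_⟩
  rw [he]
  exact hxy

/-- **The conjectures `B` and `D` for all varieties dominated by products.** -/
theorem products_iff [IsAlgClosed W.K] (S : Conjugation W)
    {ι : Type w} (P : ι → 𝒱.Obj) (hC : ∀ i, CommutativeCommutant W (P i))
    (hH : ∀ i, PairsWithConjugate S (P i)) :
    (∀ i, HomEqNum W (P i)) ↔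
      ∀ Q, IsProductOf (Set.range P) Q → ∀ Y, Dominates W Q Y → HomEqNum W Y ∧
        ∀ D, Y.IsCyc 1 D → HardLefschetz W Y D → LefschetzB W Y D :=
  products_iff_BD S.pushCompatible P (fun i => (hC i).toK) (fun i => (hH i).toK)

end Pool.Agent.H281R3.HT
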