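import Pool.Agent.H281R3.HT.ADef
import Pool.Agent.H281R3.HT.AAlg
import Pool.Agent.H281R3.HT.FMain
import Pool.Agent.H914R2.GFrob

/-!
# The conjecture D for products of varieties with commutative groups of automorphisms
-/

open CategoryTheory AlgebraicGeometry

universe u v w

namespace Pool.Agent.H281R3.HT

open Pool.Agent.H914 Pool.Agent.H914.VarClass Pool.Agent.H914.VarClass.Obj
  Pool.Agent.H914.WeilCohomology

variable {k : Type u} [Field k] {𝒱 : VarClass k} {ops : CycleOps 𝒱}
  {W : WeilCohomology.{u, v} ops} {X X' Y Z : 𝒱.Obj}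

lemma atr_map {g : Aut X} (hg : W.push g.hom 1 = 1) (a : W.H X) :
    W.tr X (W.map g.hom a) = W.tr X a := by
  have h1 := W.tr_push g.hom 1 a
  rw [one_mul, hg, one_mul] at h1
  exact h1.symm

lemma amap_trans {g : Aut X} (hg : W.push g.hom 1 = 1) {t : W.H X}
    (ht : t ∈ transcendental W X) : W.map g.hom t ∈ transcendental W X := by
  rw [mem_trans]
  intro j c hc
  have h1 : W.map g.hom (W.map g.inv c) = c := by
    rw [← W.map_comp, g.hom_inv_id, W.map_id]
  rw [bil_apply]
  conv_lhs => rw [← h1]
  rw [← map_mul, atr_map hg]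
  exact mem_trans.1 ht j _ (alg_map g.inv hc)

lemma amap_KOp (g : X ⟶ X) : (W.map g).toLinearMap ∈ KOp W X X 0 :=
  mem_KS_iff.1 (Submodule.subset_span (rop_map g))

section Action

variable {S : Conjugation W} (A : AbelianAction S X) [IsAlgClosed W.K]

attribute [local instance] AbelianAction.grp

/-- The operators defined by the group. -/
def AbelianAction.op (g : A.G) : Module.End W.K (W.H X) := (W.map (A.act g).hom).toLinearMap

omit [IsAlgClosed W.K] in
lemma AbelianAction.op_mul (g h : A.G) : A.op (g * h) = A.op h * A.op g := by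
  have h1 : (A.act (g * h)).hom = (A.act h).hom ≫ (A.act g).hom := by
    rw [map_mul]
    rfl
  apply LinearMap.ext
  intro a
  change W.map (A.act (g * h)).hom a = W.map (A.act h).hom (W.map (A.act g).hom a)
  rw [h1, W.map_comp]

omit [IsAlgClosed W.K] in
lemma AbelianAction.op_one : A.op 1 = 1 := by
  apply LinearMap.ext
  intro a
  change W.map (A.act 1).hom a = a
  have h1 : (A.act 1).hom = 𝟙 X := by
    rw [map_one]
    rfl
  rw [h1, W.map_id]

lemma AbelianAction.op_pow (g : A.G) (n : ℕ) : A.op (g ^ n) = A.op g ^ n := by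
  induction n with
  | zero => rw [pow_zero, pow_zero, A.op_one]
  | succ n ih => rw [pow_succ', A.op_mul, ih, pow_succ]

/-- A stable subspace contained in the transcendental cohomology is spanned by common
eigenvectors. -/
lemma AbelianAction.span (V : Submodule W.K (W.H X)) (hV : ∀ g, ∀ v ∈ V, A.op g v ∈ V) {v : W.H X}
    (hv : v ∈ V) : v ∈ Submodule.span W.K {w | w ∈ V ∧ ∀ g, ∃ c : W.K, A.op g w = c • w} := by
  set f : A.G → Module.End W.K V := fun g => (A.op g).restrict (hV g) with hf
  have hfa : ∀ g w, (f g w : W.H X) = A.op g w := fun g w => rfl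
  have hcomm : ∀ g h, Commute (f g) (f h) := by
    intro g h
    apply LinearMap.ext
    intro w
    apply Subtype.ext
    change A.op g (A.op h w) = A.op h (A.op g w)
    rw [← Module.End.mul_apply, ← Module.End.mul_apply, ← A.op_mul, ← A.op_mul, mul_comm]
  have hpow : ∀ g n w, (((f g) ^ n) w : W.H X) = (A.op g ^ n) w := by
    intro g n
    induction n with
    | zero => intro w; rfl
    | succ n ih =>
      intro w
      rw [pow_succ, pow_succ, Module.End.mul_apply, Module.End.mul_apply, ih, hfa]
  have hfe : ∀ g, f g ^ A.e = 1 := by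
    intro g
    apply LinearMap.ext
    intro w
    apply Subtype.ext
    rw [hpow, ← A.op_pow, A.exponent, A.op_one]
    rfl
  have h1 := span_eigen f hcomm A.pos hfe ⟨v, hv⟩
  have key : ∀ w : V, w ∈ Submodule.span W.K {v | ∀ g, ∃ c : W.K, f g v = c • v} →
      (w : W.H X) ∈ Submodule.span W.K {w | w ∈ V ∧ ∀ g, ∃ c : W.K, A.op g w = c • w} := by
    intro w hw
    induction hw using Submodule.span_induction with
    | mem w hw =>
      refine Submodule.subset_span ⟨w.2, fun g => ?_⟩
      obtain ⟨c, hc⟩ := hw g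
      exact ⟨c, by rw [← hfa, hc]; rfl⟩
    | zero => exact Submodule.zero_mem _
    | add x y _ _ hx hy => exact Submodule.add_mem _ hx hy
    | smul a x _ hx => exact Submodule.smul_mem _ _ hx
  exact key _ h1

include A in
lemma AbelianAction.commCommK : CommCommK W X := by
  intro φ ψ hφ hψ t ht
  have h1 := A.span (transcendental W X) (fun g v hv => amap_trans (A.push_one g) hv) ht
  have key : ∀ φ : Module.End W.K (W.H X), Commuting W X φ →
      ∀ v ∈ transcendental W X, (∀ g, ∃ c : W.K, A.op g v = c • v) → v ≠ 0 →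
        ∃ a : W.K, φ v = a • v := by
    intro φ hφ v hv hg hne
    refine A.simple v hv (φ v) (hφ.1 v hv) hne (fun g => ?_)
    obtain ⟨c, hc⟩ := hg g
    refine ⟨c, hc, ?_⟩
    change A.op g (φ v) = c • φ v
    have h5 := hφ.2 _ (amap_KOp (A.act g).hom) v hv
    change φ (A.op g v) = A.op g (φ v) at h5
    rw [← h5, hc, map_smul]
  induction h1 using Submodule.span_induction with
  | mem v hv =>
    by_cases hne : v = 0
    · rw [hne, map_zero, map_zero, map_zero]
    · obtain ⟨a, ha⟩ := key φ hφ v hv.1 hv.2 hne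
      obtain ⟨b, hb⟩ := key ψ hψ v hv.1 hv.2 hne
      rw [hb, ha, map_smul, map_smul, hb, ha, smul_smul, smul_smul, mul_comm]
  | zero => rw [map_zero, map_zero, map_zero]
  | add x y hx' hy' hx hy =>
    have h2 : ∀ x ∈ Submodule.span W.K {w | w ∈ transcendental W X ∧
        ∀ g, ∃ c : W.K, A.op g w = c • w}, x ∈ transcendental W X := by
      intro x hx
      exact (Submodule.span_le.2 (fun w hw => hw.1)) hx
    rw [map_add, map_add, map_add, map_add, hx (h2 x hx'), hy (h2 y hy')]
  | smul a x hx' hx =>
    have h2 : ∀ x ∈ Submodule.span W.K {w | w ∈ transcendental W X ∧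
        ∀ g, ∃ c : W.K, A.op g w = c • w}, x ∈ transcendental W X := by
      intro x hx
      exact (Submodule.span_le.2 (fun w hw => hw.1)) hx
    rw [map_smul, map_smul, map_smul, map_smul, hx (h2 x hx')]

include A in
lemma AbelianAction.pairsConjK (hD : HomEqNum W X) : PairsConjK S.toSemiLin X := by
  intro V hVT hne hV
  -- a common eigenvector in `V`
  obtain ⟨v, hv, hv0, hve⟩ : ∃ v ∈ V, v ≠ 0 ∧ ∀ g, ∃ c : W.K, A.op g v = c • v := by
    by_contra hcon
    push Not at hcon
    apply hne
    rw [Submodule.eq_bot_iff]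
    intro x hx
    have h1 := A.span V (fun g v hv => hV _ (amap_KOp _) v hv) hx
    have h2 : {w | w ∈ V ∧ ∀ g, ∃ c : W.K, A.op g w = c • w} ⊆ {0} := by
      rintro w ⟨hw, hg⟩
      by_contra hw0
      obtain ⟨g, hg'⟩ := hcon w hw hw0
      obtain ⟨c, hc⟩ := hg g
      exact hg' c hc
    have h3 := Submodule.span_mono h2 h1
    rw [Submodule.span_zero_singleton, Submodule.mem_bot] at h3
    exact h3
  -- an element pairing with it
  have hvT := hVT hv
  obtain ⟨t, ht, hvt⟩ : ∃ t ∈ transcendental W X, bil W X v t ≠ 0 := by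
    by_contra hcon
    push Not at hcon
    apply hv0
    apply W.nondeg
    intro z
    obtain ⟨b, hb, hzb⟩ := split_of_D hD z
    have h1 := hcon _ hzb
    have h2 : bil W X v b = 0 := by
      clear hzb h1
      induction hb using Submodule.span_induction with
      | mem c hc =>
        obtain ⟨j, hj⟩ := hc
        exact mem_trans.1 hvT j c hj
      | zero => rw [map_zero]
      | add x y _ _ hx hy => rw [map_add, hx, hy, add_zero]
      | smul r x _ hx => rw [map_smul, hx, smul_zero]
    rw [map_sub, h2, sub_zero] at h1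
    exact h1
  -- a common eigenvector pairing with it
  obtain ⟨w, hw, hwe, hvw⟩ : ∃ w ∈ transcendental W X, (∀ g, ∃ c : W.K, A.op g w = c • w) ∧
      bil W X v w ≠ 0 := by
    by_contra hcon
    push Not at hcon
    apply hvt
    have h1 := A.span (transcendental W X) (fun g v hv => amap_trans (A.push_one g) hv) ht
    clear hvt ht
    induction h1 using Submodule.span_induction with
    | mem w hw => exact hcon w hw.1 hw.2
    | zero => rw [map_zero]
    | add x y _ _ hx hy => rw [map_add, hx, hy, add_zero]
    | smul r x _ hx => rw [map_smul, hx, smul_zero]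
  have hσ0 : S.σ X v ≠ 0 := fun h => hv0 ((S.isConjugation X).inj _ h)
  have hσT : S.σ X v ∈ transcendental W X := by
    rw [mem_trans]
    intro l c hc
    obtain ⟨z, hz, rfl⟩ := hc
    have h1 := mem_trans.1 hvT l _ ⟨z, hz, rfl⟩
    rw [bil_apply] at h1 ⊢
    have h2 := tr_conj_eq_zero S.toSemiLin h1
    rw [S.toSemiLin.mul, S.toSemiLin.cl] at h2
    exact h2
  have hprop : ∃ a : W.K, w = a • S.σ X v := by
    refine A.simple _ hσT w hw hσ0 (fun g => ?_)
    obtain ⟨c, hc⟩ := hve g
    obtain ⟨d, hd⟩ := hwe g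
    -- `c` is a root of unity
    have hce : c ^ A.e = 1 := by
      have h1 : (A.op g ^ A.e) v = c ^ A.e • v := by
        generalize A.e = n
        induction n with
        | zero => rw [pow_zero, pow_zero, one_smul, Module.End.one_apply]
        | succ n ih =>
          rw [pow_succ', Module.End.mul_apply, ih, map_smul, hc, smul_smul, pow_succ]
      rw [← A.op_pow, A.exponent, A.op_one, Module.End.one_apply] at h1
      have h2 : (1 - c ^ A.e) • v = 0 := by
        rw [sub_smul, one_smul, ← h1, sub_self]
      rcases smul_eq_zero.1 h2 with h3 | h3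
      · exact (sub_eq_zero.1 h3).symm
      · exact absurd h3 hv0
    have hc0 : c ≠ 0 := by
      rintro rfl
      rw [zero_pow A.pos.ne'] at hce
      exact zero_ne_one hce
    -- the eigenvalue on `w`
    have hcd : c * d = 1 := by
      have h1 : bil W X (A.op g v) (A.op g w) = bil W X v w := by
        rw [bil_apply, bil_apply]
        change W.tr X (W.map (A.act g).hom v * W.map (A.act g).hom w) = _
        rw [← map_mul, atr_map (A.push_one g)]
      rw [hc, hd, map_smul, map_smul, LinearMap.smul_apply, smul_eq_mul, smul_eq_mul,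
        ← mul_assoc] at h1
      have h2 : (c * d - 1) * bil W X v w = 0 := by
        rw [sub_mul, one_mul, mul_comm c d, mul_assoc]
        rw [mul_assoc] at h1
        rw [h1, sub_self]
      rcases mul_eq_zero.1 h2 with h3 | h3
      · exact sub_eq_zero.1 h3
      · exact absurd h3 hvw
    refine ⟨c⁻¹, ?_, ?_⟩
    · have h1 := S.map (A.act g).hom v
      change W.map (A.act g).hom (S.σ X v) = S.σ X (W.map (A.act g).hom v) at h1
      change W.map (A.act g).hom (S.σ X v) = _
      rw [h1]
      change S.σ X (A.op g v) = _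
      rw [hc, (S.isConjugation X).smul, A.conj c hce]
    · change A.op g w = _
      rw [hd]
      congr 1
      exact eq_inv_of_mul_eq_one_right hcd
  obtain ⟨a, ha⟩ := hprop
  refine ⟨0, LinearMap.id, KOp.id X, v, hv, v, hv, ?_⟩
  intro h0
  apply hvw
  rw [ha, map_smul]
  change a • W.tr X (v * S.σ X v) = 0
  have h1 : W.tr X (v * S.σ X v) = 0 := h0
  rw [h1, smul_zero]

end Action

/-- Curves and surfaces satisfy the conjecture D if divisors do. -/
theorem homEqNum_surface (hX : X.dim ≤ 2) {D : X.Cycles} (hD : X.IsCyc 1 D)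
    (hHL : HardLefschetz W X D) (hM : Pool.Agent.H447.HomEqNumIn W X 1) : HomEqNum W X := by
  intro j hj z hz hnum
  have hdeg : ∀ w, X.IsCyc (X.dim - j) w → W.tr X (W.cl X z * W.cl X w) = 0 := by
    intro w hw
    have h1 := ops.mul_mem hz hw
    rw [show j + (X.dim - j) = X.dim by omega] at h1
    rw [← W.cl_mul, W.tr_cl h1, hnum w hw, Rat.cast_zero]
  by_cases hj0 : j = 0
  · subst hj0
    by_cases h1 : (1 : W.H X) = 0
    · rw [← one_mul (W.cl X z), h1, zero_mul]
    obtain ⟨b, hb, hb0⟩ := Pool.Agent.H914.exists_top (W := W) hD hHL h1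
    obtain ⟨w, hw, rfl⟩ := hb
    have h2 := W.cl_mem hz
    rw [mul_zero, W.gr_zero, Submodule.mem_span_singleton] at h2
    obtain ⟨c, hc⟩ := h2
    have h3 := hdeg w (by simpa using hw)
    rw [← hc, smul_mul_assoc, one_mul, map_smul, smul_eq_mul, mul_eq_zero] at h3
    rcases h3 with h3 | h3
    · rw [← hc, h3, zero_smul]
    · exact absurd h3 hb0
  by_cases hjd : j = X.dim
  · subst hjd
    apply top_eq_zero (W.cl_mem hz)
    have h3 := hdeg X.V.fundCycle (by
      rw [Nat.sub_self]
      exact X.V.fundCycle_mem)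
    rw [W.cl_fund, mul_one] at h3
    exact h3
  · obtain rfl : j = 1 := by omega
    exact hM z hz hnum

/-- **The conjectures `B` and `D` for all varieties dominated by products.** -/
theorem abelian_products [IsAlgClosed W.K] (S : Conjugation W)
    {ι : Type w} (P : ι → 𝒱.Obj) (hA : ∀ i, Nonempty (AbelianAction S (P i))) :
    (∀ i, HomEqNum W (P i)) ↔
      ∀ Q, IsProductOf (Set.range P) Q → ∀ Y, Dominates W Q Y → HomEqNum W Y ∧
        ∀ D, Y.IsCyc 1 D → HardLefschetz W Y D → LefschetzB W Y D := by
  constructor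
  · intro hD
    exact (products_iff_BD S.pushCompatible P (fun i => (hA i).some.commCommK)
      (fun i => (hA i).some.pairsConjK (hD i))).1 hD
  · intro h i
    refine (h (P i) (IsProductOf.base ⟨i, rfl⟩) (P i) ⟨𝟙 _, 0, (P i).V.fundCycle, 1,
      (P i).V.fundCycle_mem, one_ne_zero, ?_⟩).1
    rw [W.push_id, W.cl_fund, one_smul]

end Pool.Agent.H281R3.HT
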