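import Pool.Agent.H281R3.HT.ProdFrm

/-!
# Rational frames: a single variety, and the external products of transcendental classes
-/

open CategoryTheory AlgebraicGeometry

universe u v w

namespace Pool.Agent.H281R3.HT

open Pool.Agent.H914 Pool.Agent.H914.VarClass Pool.Agent.H914.VarClass.Obj
  Pool.Agent.H914.WeilCohomology

variable {k : Type u} [Field k] {𝒱 : VarClass k} {ops : CycleOps 𝒱}
  {W : WeilCohomology.{u, v} ops} {X X' Y Z : 𝒱.Obj}

lemma alg_neg {j : ℕ} {a : W.H X} (ha : a ∈ algClasses W X j) : -a ∈ algClasses W X j := by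
  have h1 := alg_smul (-1) ha
  rwa [Rat.cast_neg, Rat.cast_one, neg_one_smul] at h1

lemma alg_sub {j : ℕ} {a b : W.H X} (ha : a ∈ algClasses W X j) (hb : b ∈ algClasses W X j) :
    a - b ∈ algClasses W X j := by
  rw [sub_eq_add_neg]
  exact alg_add ha (alg_neg hb)

lemma alg_one : (1 : W.H X) ∈ algClasses W X 0 := ⟨X.V.fundCycle, X.V.fundCycle_mem, W.cl_fund X⟩

lemma alg_even_comm {j : ℕ} {a : W.H X} (ha : a ∈ algClasses W X j) (b : W.H X) :
    a * b = b * a := W.even_comm (alg_gr ha) b

/-- A rational structure with a definite form has an orthogonal basis. -/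
theorem exists_ortho {T : Submodule W.K (W.H Y)} {b : ℕ}
    (hspan : T ≤ Submodule.span W.K {v | v ∈ T ∧ v ∈ algClasses W Y b})
    (hpos : ∀ v ∈ T, v ∈ algClasses W Y b → v ≠ 0 →
      ∃ q : ℚ, 0 < q ∧ W.tr Y (v * v) = (((-1) ^ b * q : ℚ) : W.K)) :
    ∃ (N : ℕ) (v : Fin N → W.H Y) (q : Fin N → ℚ), (∀ l, v l ∈ algClasses W Y b) ∧
      (∀ l, v l ∈ T) ∧ (∀ l, 0 < q l) ∧
      (∀ l, W.tr Y (v l * v l) = (((-1) ^ b * q l : ℚ) : W.K)) ∧
      (∀ l l', l ≠ l' → W.tr Y (v l * v l') = 0) ∧ T ≤ Submodule.span W.K (Set.range v) := by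
  classical
  obtain ⟨S, hSA, hSspan, hSli⟩ := exists_linearIndependent W.K {v | v ∈ T ∧ v ∈ algClasses W Y b}
  have hfin : S.Finite := hSli.setFinite
  have := hfin.fintype
  have hSc : ∀ i : S, (i : W.H Y) ∈ algClasses W Y b := fun i => (hSA i.2).2
  have hST : ∀ i : S, (i : W.H Y) ∈ T := fun i => (hSA i.2).1
  choose g hg using fun i k : S => alg_rat (hSc i) (hSc k)
  -- the rational combinations
  set c : (S → ℚ) → W.H Y := fun r => ∑ i : S, (r i : W.K) • (i : W.H Y) with hc
  have hcA : ∀ r, c r ∈ algClasses W Y b := fun r => alg_sum Finset.univ _ r (fun i _ => hSc i)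
  have hcT : ∀ r, c r ∈ T := fun r =>
    Submodule.sum_mem _ (fun i _ => Submodule.smul_mem _ _ (hST i))
  have hc0 : ∀ r, c r = 0 → r = 0 := by
    intro r hr
    funext i
    have := Fintype.linearIndependent_iff.1 hSli (fun i => (r i : W.K)) hr i
    exact_mod_cast this
  set Bf : LinearMap.BilinForm ℚ (S → ℚ) := Matrix.toLinearMap₂' ℚ (Matrix.of g) with hBf
  have hB : ∀ r s : S → ℚ, W.tr Y (c r * c s) = ((Bf r s : ℚ) : W.K) := by
    intro r s
    rw [hBf, Matrix.toLinearMap₂'_apply, hc]
    beta_reduce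
    rw [Finset.sum_mul, map_sum, Rat.cast_sum]
    apply Finset.sum_congr rfl
    intro i _
    rw [Finset.mul_sum, map_sum, Rat.cast_sum]
    apply Finset.sum_congr rfl
    intro k _
    have h1 := hg i k
    rw [bil_apply] at h1
    rw [smul_mul_smul_comm, map_smul, h1, smul_eq_mul, Matrix.of_apply]
    simp only [smul_eq_mul]
    push_cast
    ring
  have hsymm : LinearMap.IsSymm Bf := by
    constructor
    intro r s
    have h1 := hB r s
    rw [alg_even_comm (hcA r), hB] at h1
    simpa using (Rat.cast_injective (α := W.K) h1).symm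
  have h2 : Invertible (2 : ℚ) := invertibleOfNonzero two_ne_zero
  obtain ⟨e, he⟩ := LinearMap.BilinForm.exists_orthogonal_basis hsymm
  have hpos' : ∀ l, ∃ q : ℚ, 0 < q ∧ W.tr Y (c (e l) * c (e l)) =
      (((-1) ^ b * q : ℚ) : W.K) := by
    intro l
    apply hpos _ (hcT _) (hcA _)
    intro h0
    exact e.ne_zero l (hc0 _ h0)
  choose q hq0 hq using hpos'
  refine ⟨_, fun l => c (e l), q, fun l => hcA _, fun l => hcT _, hq0, hq, ?_, ?_⟩
  · intro l l' hl
    have h3 := he hl
    change Bf (e l) (e l') = 0 at h3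
    rw [hB, h3, Rat.cast_zero]
  · refine hspan.trans ?_
    rw [← hSspan]
    apply Submodule.span_le.2
    intro y hy
    have h3 : y = c (Pi.single (⟨y, hy⟩ : S) 1) := by
      rw [hc]
      beta_reduce
      rw [Finset.sum_eq_single (⟨y, hy⟩ : S)]
      · simp
      · intro i _ hi
        rw [Pi.single_eq_of_ne hi, Rat.cast_zero, zero_smul]
      · intro h0; exact absurd (Finset.mem_univ _) h0
    have h4 : ∀ r : S → ℚ, c r ∈ Submodule.span W.K (Set.range fun l => c (e l)) := by
      intro r
      have h5 : c r = ∑ l, ((e.repr r l : ℚ) : W.K) • c (e l) := by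
        conv_lhs => rw [← e.sum_repr r]
        rw [hc]
        beta_reduce
        simp only [Finset.smul_sum]
        rw [Finset.sum_comm]
        apply Finset.sum_congr rfl
        intro i _
        rw [Finset.sum_apply, Rat.cast_sum, Finset.sum_smul]
        apply Finset.sum_congr rfl
        intro l _
        rw [Pi.smul_apply, smul_eq_mul, Rat.cast_mul, mul_smul]
      rw [h5]
      exact Submodule.sum_mem _ (fun l _ => Submodule.smul_mem _ _
        (Submodule.subset_span ⟨l, rfl⟩))
    rw [h3]
    exact h4 _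

lemma push_fst (a : W.H X) {j : ℕ} {c : W.H X'} (hc : c ∈ W.gr X' j) :
    W.push (fst X X') (W.map (fst X X') a * W.map (snd X X') c) = W.tr X' c • a := by
  apply W.tr_ext
  intro d
  rw [W.tr_push]
  refine gr_induction (W.isInternal X) (p := fun d => W.tr (X.prod X')
    (W.map (fst X X') a * W.map (snd X X') c * W.map (fst X X') d) =
    W.tr X (W.tr X' c • a * d)) ?_ ?_ d
  · intro i d hd
    have h1 : W.map (snd X X') c * W.map (fst X X') d =
        (-1 : W.K) ^ (j * i) • (W.map (fst X X') d * W.map (snd X X') c) :=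
      W.comm (W.map_mem _ hc) (W.map_mem _ hd)
    rw [mul_assoc, h1, mul_smul_comm, ← mul_assoc, ← map_mul, map_smul, W.tr_prod,
      smul_mul_assoc, map_smul, smul_eq_mul, smul_eq_mul]
    by_cases hj : j = 2 * X'.dim
    · rw [hj, neg_one_pow_even, one_mul, mul_comm]
    · rw [W.tr_eq_zero hc hj]
      ring
  · intro d d' hd hd'
    rw [map_add, mul_add, map_add, hd, hd', mul_add, map_add]

section Setup

variable {D : X.Cycles} {Lam : Module.End W.K (W.H X)} {κ : Type} [Fintype κ] {l : κ → ℕ}
  {x : κ → W.H X} {φ : κ → ℚ} {p : Module.End W.K (W.H X)}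
  (h : Setup W X D Lam κ l x φ p)

include h

omit [Fintype κ] h in
lemma alg_push_zero {g : X ⟶ Y} {j : ℕ} {a : W.H X} (ha : a ∈ algClasses W X j)
    (hj : j + Y.dim < X.dim) : W.push g a = 0 := by
  have h1 := W.push_mem g (alg_gr ha)
  rw [grZ_of_neg (by push_cast; omega)] at h1
  exact (Submodule.mem_bot _).1 h1

/-- The projector on the first factor preserves algebraic classes. -/
lemma alg_left {m : ℕ} {z : W.H (X.prod X')} (hz : z ∈ algClasses W (X.prod X') m) :
    extOp W p 1 z ∈ algClasses W (X.prod X') m := by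
  classical
  set w : Module.End W.K (W.H X) := wey (LinearMap.mulLeft W.K (W.cl X D)) Lam with hw
  have key : extOp W p 1 z = ∑ k, (((φ k)⁻¹ : ℚ) : W.K) • (W.map (fst X X') (x k) *
      W.map (snd X X') (W.push (snd X X') (z * W.map (fst X X') (w (x k))))) := by
    clear hz
    refine W.kunneth_induction (p := fun z => extOp W p 1 z =
      ∑ k, (((φ k)⁻¹ : ℚ) : W.K) • (W.map (fst X X') (x k) *
      W.map (snd X X') (W.push (snd X X') (z * W.map (fst X X') (w (x k)))))) ?_ ?_ z
    · intro a b ha hb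
      rw [map_add, ha, hb, ← Finset.sum_add_distrib]
      apply Finset.sum_congr rfl
      intro k _
      rw [add_mul, map_add, map_add, mul_add, smul_add]
    · intro i j a _ b _
      rw [extOp_tmul, h.hp.p_eq, map_sum, Finset.sum_mul]
      apply Finset.sum_congr rfl
      intro k _
      have h1 : W.map (snd X X') b * W.map (fst X X') (w (x k)) =
          W.map (fst X X') (w (x k)) * W.map (snd X X') b :=
        (W.even_comm (W.map_mem _ (alg_gr (h.wx_mem k))) _).symm
      rw [mul_assoc, h1, ← mul_assoc, ← map_mul, W.push_snd, map_smul, map_smul,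
        Module.End.one_apply, mul_smul_comm, smul_smul, smul_mul_assoc, bil_apply]
      push_cast
      rfl
  rw [key]
  have h2 : ∀ k, W.map (fst X X') (x k) *
      W.map (snd X X') (W.push (snd X X') (z * W.map (fst X X') (w (x k)))) ∈
        algClasses W (X.prod X') m := by
    intro k
    have h3 := h.hp.le k
    have h4 := alg_mul hz (alg_map (fst X X') (h.wx_mem k))
    by_cases hk : l k ≤ m
    · have h5 := alg_mul (alg_map (fst X X') (h.hp.mem k)) (alg_map (snd X X')
        (alg_push (snd X X') (i := m - l k) h4 (by rw [dim_prod]; omega)))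
      rwa [show l k + (m - l k) = m by omega] at h5
    · rw [alg_push_zero (g := snd X X') h4 (by rw [dim_prod]; omega), map_zero, mul_zero]
      exact alg_zero _
  exact alg_sum Finset.univ _ _ (fun k _ => h2 k)

/-- The projector on the second factor preserves algebraic classes. -/
lemma alg_right {m : ℕ} {z : W.H (X'.prod X)} (hz : z ∈ algClasses W (X'.prod X) m) :
    extOp W 1 p z ∈ algClasses W (X'.prod X) m := by
  classical
  set w : Module.End W.K (W.H X) := wey (LinearMap.mulLeft W.K (W.cl X D)) Lam with hw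
  have key : extOp W 1 p z = ∑ k, (((φ k)⁻¹ : ℚ) : W.K) •
      (W.map (fst X' X) (W.push (fst X' X) (z * W.map (snd X' X) (w (x k)))) *
      W.map (snd X' X) (x k)) := by
    clear hz
    refine W.kunneth_induction (p := fun z => extOp W 1 p z =
      ∑ k, (((φ k)⁻¹ : ℚ) : W.K) •
      (W.map (fst X' X) (W.push (fst X' X) (z * W.map (snd X' X) (w (x k)))) *
      W.map (snd X' X) (x k))) ?_ ?_ z
    · intro a b ha hb
      rw [map_add, ha, hb, ← Finset.sum_add_distrib]
      apply Finset.sum_congr rfl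
      intro k _
      rw [add_mul, map_add, map_add, add_mul, smul_add]
    · intro i j a _ b hb
      rw [extOp_tmul, h.hp.p_eq, map_sum, Finset.mul_sum]
      apply Finset.sum_congr rfl
      intro k _
      have h1 : b * w (x k) ∈ W.gr X (j + 2 * (X.dim - l k)) :=
        W.mul_mem hb (alg_gr (h.wx_mem k))
      rw [mul_assoc, ← map_mul, push_fst a h1, map_smul, map_smul, Module.End.one_apply,
        mul_smul_comm, smul_mul_assoc, smul_smul, bil_apply]
      push_cast
      rfl
  rw [key]
  have h2 : ∀ k, W.map (fst X' X) (W.push (fst X' X) (z * W.map (snd X' X) (w (x k)))) *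
      W.map (snd X' X) (x k) ∈ algClasses W (X'.prod X) m := by
    intro k
    have h3 := h.hp.le k
    have h4 := alg_mul hz (alg_map (snd X' X) (h.wx_mem k))
    by_cases hk : l k ≤ m
    · have h5 := alg_mul (alg_map (fst X' X) (alg_push (fst X' X) (i := m - l k) h4
        (by rw [dim_prod]; omega))) (alg_map (snd X' X) (h.hp.mem k))
      rwa [show (m - l k) + l k = m by omega] at h5
    · rw [alg_push_zero (g := fst X' X) h4 (by rw [dim_prod]; omega), map_zero, zero_mul]
      exact alg_zero _
  exact alg_sum Finset.univ _ _ (fun k _ => h2 k)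

/-- The member of the family. -/
lemma member (hmid : transcendental W X ≤ W.gr X X.dim) : Member W X where
  mid := hmid
  split y := ⟨p y, h.p_span y, h.compl_mem y⟩

lemma w_trans (hmid : transcendental W X ≤ W.gr X X.dim) {t : W.H X}
    (ht : t ∈ transcendental W X) : wop W X D Lam t = t := by
  have h1 : wt (W.isInternal X) X.dim t = -((0 : ℕ) : W.K) • t := wt_mid (hmid ht)
  have h2 : ((LinearMap.mulLeft W.K (W.cl X D)) ^ (0 + 1)) t = 0 := by
    rw [zero_add, pow_one, LinearMap.mulLeft_apply]
    exact h.alg_mul_trans hmid ⟨D, h.hD, rfl⟩ le_rfl ht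
  have h3 := h.sl2.f_eq_zero h1 h2
  rw [wop, wey_lowest h.sl2 h3 h1]
  simp

end Setup

/-- The frame of a member of the family. -/
noncomputable def baseData {ι : Type w} (P : ι → Polarized 𝒱) (j : ι) {κ : Type} [Fintype κ]
    (Lam : Module.End W.K (W.H (P j).X)) (l : κ → ℕ) (x : κ → W.H (P j).X) (φ : κ → ℚ) :
    FrmData W P (P j).X where
  f := Lam
  I0 := κ
  I1 := Unit
  fin0 := inferInstance
  fin1 := inferInstance
  e := x
  a := l
  d k := (-1) ^ l k * φ k
  n _ := 1
  m _ := 1
  c _ := 0
  j _ := j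
  g _ := 𝟙 _
  r _ := 1

/-- **The frame of a member of the family.** -/
theorem base_frm {ι : Type w} {P : ι → Polarized 𝒱} {j : ι} {κ : Type} [Fintype κ]
    {Lam : Module.End W.K (W.H (P j).X)} {l : κ → ℕ} {x : κ → W.H (P j).X} {φ : κ → ℚ}
    {p : Module.End W.K (W.H (P j).X)} (h : Setup W (P j).X (P j).D Lam κ l x φ p)
    (hmid : transcendental W (P j).X ≤ W.gr (P j).X (P j).X.dim) :
    Frm W P (P j).X (P j).D (baseData P j Lam l x φ) where
  hD := h.hD
  sl2 := h.sl2
  e_mem := h.hp.mem
  we_mem k := ⟨_, h.wx_mem k⟩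
  d_pos := h.hp.pos
  ee k := by
    have h1 := h.hp.val k
    rw [bil_apply] at h1
    refine h1.trans ?_
    change _ = (((-1) ^ l k * ((-1) ^ l k * φ k) : ℚ) : W.K)
    congr 1
    rw [← mul_assoc, ← mul_pow]
    simp
  ee0 k k' hk := h.orth k k' hk
  n_mem _ := alg_one
  m_mem _ := ⟨0, alg_one⟩
  w_n := by
    have key : ∀ t ∈ transcendental W (P j).X,
        wop W (P j).X (P j).D Lam (1 * W.map (𝟙 _) t) = 1 * W.map (𝟙 _) t := by
      intro t ht
      rw [W.map_id, one_mul]
      exact w_trans h hmid ht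
    exact fun _ t ht => key t ht
  r_pos _ := one_pos
  nn := by
    have key : ∀ t ∈ transcendental W (P j).X, ∀ t' ∈ transcendental W (P j).X,
        W.tr _ (1 * W.map (𝟙 _) t * wop W (P j).X (P j).D Lam (1 * W.map (𝟙 _) t')) =
          (((-1) ^ 0 * 1 : ℚ) : W.K) * W.tr _ (t * t') := by
      intro t ht t' ht'
      rw [W.map_id, W.map_id, one_mul, one_mul, w_trans h hmid ht']
      simp
    exact fun _ t ht t' ht' => key t ht t' ht'
  nn0 := by
    rintro ⟨⟩ ⟨⟩ hne
    exact absurd rfl hne
  en0 := by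
    have key : ∀ α, ∀ t ∈ transcendental W (P j).X,
        W.tr _ (x α * wop W (P j).X (P j).D Lam (1 * W.map (𝟙 _) t)) = 0 := by
      intro α t ht
      rw [W.map_id, one_mul, w_trans h hmid ht, alg_even_comm (h.hp.mem α)]
      exact mem_trans.1 ht _ _ (h.hp.mem α)
    exact fun α _ t ht => key α t ht
  ne0 := by
    have key : ∀ α, ∀ t ∈ transcendental W (P j).X,
        W.tr _ (1 * W.map (𝟙 _) t * wop W (P j).X (P j).D Lam (x α)) = 0 := by
      intro α t ht
      rw [W.map_id, one_mul]
      exact mem_trans.1 ht _ _ (h.wx_mem α)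
    exact fun α _ t ht => key α t ht
  span y := by
    rw [← sub_add_cancel y (p y)]
    refine Submodule.add_mem _ (Submodule.subset_span (Or.inr ⟨(), y - p y, h.compl_mem y, ?_⟩)) ?_
    · have key : y - p y = 1 * W.map (𝟙 _) (y - p y) := by rw [W.map_id, one_mul]
      exact key
    · rw [h.hp.p_eq]
      exact Submodule.sum_mem _ (fun k _ => Submodule.smul_mem _ _
        (Submodule.subset_span (Or.inl ⟨k, rfl⟩)))

end Pool.Agent.H281R3.HT
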