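import Pool.Agent.H281R3.HT.GDefs

/-!
# Finite groups acting on the transcendental cohomology without multiplicities: definitions
-/

open CategoryTheory AlgebraicGeometry

universe u v w

namespace Pool.Agent.H281R3.HT

open Pool.Agent.H914 Pool.Agent.H914.VarClass Pool.Agent.H914.VarClass.Obj
  Pool.Agent.H914.WeilCohomology

variable {k : Type u} [Field k] {𝒱 : VarClass k} {ops : CycleOps 𝒱}

/-- A finite group acting on the variety `X` by automorphisms `g` with `g_* [X] = [X]`. -/
structure GrpAction (W : WeilCohomology.{u, v} ops) (X : 𝒱.Obj) where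
  /-- the group -/
  G : Type
  grp : Group G
  fin : Finite G
  /-- the action -/
  σ : G →* Aut X
  push_one : ∀ g, W.push (σ g).hom 1 = 1

attribute [instance] GrpAction.grp GrpAction.fin

/-- The subspace `T` is the sum of the subspaces `V a`, which are stable under the operators `A g`
and pairwise orthogonal for the form `B`, and every linear operator on `T` commuting with all the
operators `A g` acts on every `V a` as a scalar: the `V a` are absolutely irreducible and pairwise
non-isomorphic (or zero). -/
structure IsMultFree {K M G I : Type*} [Field K] [AddCommGroup M] [Module K M]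
    (B : M → M → K) (T : Submodule K M) (A : G → M → M) (V : I → Submodule K M) : Prop where
  le : ∀ a, V a ≤ T
  sup : T ≤ ⨆ a, V a
  stable : ∀ g a, ∀ t ∈ V a, A g t ∈ V a
  orth : ∀ a b, a ≠ b → ∀ x ∈ V a, ∀ y ∈ V b, B x y = 0
  scalar : ∀ φ : M →ₗ[K] M, (∀ t ∈ T, φ t ∈ T) → (∀ g, ∀ t ∈ T, φ (A g t) = A g (φ t)) →
    ∀ a, ∃ c : K, ∀ t ∈ V a, φ t = c • t

/-- The transcendental cohomology of `X` is an orthogonal sum of finitely many pairwise
non-isomorphic absolutely irreducible representations of some finite group of automorphisms. -/
def MultiplicityFree (W : WeilCohomology.{u, v} ops) (X : 𝒱.Obj) : Prop :=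
  ∃ (A : GrpAction W X) (I : Type) (_ : Fintype I) (V : I → Submodule W.K (W.H X)),
    IsMultFree (fun x y => W.tr X (x * y)) (transcendental W X)
      (fun g a => W.map (A.σ g).hom a) V

end Pool.Agent.H281R3.HT
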