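import Pool.Agent.H281R3.HT.Mid
import Pool.Agent.H281R3.HT.DDef
import Pool.Agent.H914R2.Blocks
import Pool.Agent.H914R2.KDesc
import Pool.Agent.H914R2.KLef

/-!
# The conjecture `D` for products, from finite groups acting without multiplicities
-/

open CategoryTheory AlgebraicGeometry

universe u v w

namespace Pool.Agent.H281R3.HT

open Pool.Agent.H914 Pool.Agent.H914.VarClass Pool.Agent.H914.VarClass.Obj
  Pool.Agent.H914.WeilCohomology

variable {k : Type u} [Field k] {𝒱 : VarClass k} {ops : CycleOps 𝒱}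
  {W : WeilCohomology.{u, v} ops} {X X' Y Z : 𝒱.Obj}

/-- The identity as a semilinear automorphism. -/
def trivS (W : WeilCohomology.{u, v} ops) : SemiLin W where
  τ := RingHom.id _
  σ _ := AddMonoidHom.id _
  smul _ _ := rfl
  mul _ _ := rfl
  map _ _ := rfl
  gr h := h
  cl _ := rfl
  inj _ h := h

/-- Blocks from pairs of dual subspaces. -/
theorem hasBlocks_of {κ : Type} [Fintype κ] (B B' : κ → Submodule W.K (W.H Y)) (d : κ → ℕ)
    (hdeg : ∀ s, B s ≤ W.gr Y (d s))
    (hnd : ∀ s, ∀ x ∈ B s, (∀ y ∈ B' s, bil W Y y x = 0) → x = 0)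
    (hnd' : ∀ s, ∀ y ∈ B' s, (∀ x ∈ B s, bil W Y y x = 0) → y = 0)
    (horth : ∀ s t, s ≠ t → ∀ x ∈ B s, ∀ y ∈ B' t, bil W Y y x = 0)
    (htot : ∀ r, (∀ s, ∀ y ∈ B' s, bil W Y y r = 0) → r = 0)
    (halg : ∀ s, ∀ x ∈ B s, ∀ y ∈ B' s, (bil W Y y).smulRight x ∈ KOp W Y Y 0)
    (hherm : ∀ s, B s ≠ ⊥ → ∃ (δ : ℤ) (θ : Module.End W.K (W.H Y)), θ ∈ KOp W Y Y δ ∧
      ∃ x ∈ B s, ∃ x' ∈ B s, W.tr Y (x * θ x') ≠ 0) :
    HasBlocks (trivS W) Y := by
  classical
  choose N c c' hc hc' hcc hu hu' using fun s => exists_dual_families (bil W Y) (B' s) (B s)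
    (hnd' s) (hnd s)
  set e : κ → Module.End W.K (W.H Y) := fun s => ∑ i, (bil W Y (c s i)).smulRight (c' s i)
    with he
  have hea : ∀ s z, e s z = ∑ i, bil W Y (c s i) z • c' s i := by
    intro s z
    rw [he]
    beta_reduce
    rw [LinearMap.sum_apply]
    rfl
  have heB : ∀ s z, e s z ∈ B s := by
    intro s z
    rw [hea]
    exact Submodule.sum_mem _ (fun i _ => Submodule.smul_mem _ _ (hc' s i))
  have hex : ∀ s, ∀ x ∈ B s, e s x = x := by
    intro s x hx
    rw [hea]
    exact (hu' s x hx).symm
  have hbil : ∀ s, ∀ y ∈ B' s, ∀ z, bil W Y y (e s z) = bil W Y y z := by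
    intro s y hy z
    rw [hea, map_sum]
    conv_rhs => rw [hu s y hy]
    rw [map_sum, LinearMap.sum_apply]
    apply Finset.sum_congr rfl
    intro i _
    rw [map_smul, map_smul, LinearMap.smul_apply, smul_eq_mul, smul_eq_mul, mul_comm]
  have hsum : ∑ s, e s = 1 := by
    apply LinearMap.ext
    intro z
    rw [Module.End.one_apply, ← sub_eq_zero]
    apply htot
    intro t y hy
    rw [LinearMap.sum_apply, map_sub, map_sum, Finset.sum_eq_single t, hbil t y hy, sub_self]
    · intro s _ hs
      exact horth s t hs _ (heB s z) y hy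
    · intro h0; exact absurd (Finset.mem_univ _) h0
  refine ⟨{s // e s ≠ 0}, inferInstance, fun s => e s, fun s => d s, ?_⟩
  refine ⟨?_, ?_, ?_, ?_, ?_, ?_⟩
  · rw [← hsum, ← Finset.sum_filter_ne_zero (s := Finset.univ) (f := e)]
    exact (Finset.sum_subtype (Finset.univ.filter (fun s => e s ≠ 0)) (by simp) e).symm
  · intro s
    apply LinearMap.ext
    intro z
    exact hex _ _ (heB _ z)
  · intro s a
    exact hdeg _ (heB _ a)
  · intro s A
    have h1 : e s * A * e s = ∑ i, (bil W Y (c s i)).smulRight (e s (A (c' s i))) := by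
      apply LinearMap.ext
      intro z
      rw [Module.End.mul_apply, Module.End.mul_apply, hea s z, map_sum, map_sum,
        LinearMap.sum_apply]
      apply Finset.sum_congr rfl
      intro i _
      rw [map_smul, map_smul, LinearMap.smulRight_apply]
    rw [h1]
    exact Submodule.sum_mem _ (fun i _ => halg s _ (heB _ _) _ (hc _ i))
  · intro s
    exact ⟨s, fun a => rfl⟩
  · intro s
    have h1 : B s ≠ ⊥ := by
      intro h0
      apply s.2
      apply LinearMap.ext
      intro z
      have h2 := heB s z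
      rw [h0, Submodule.mem_bot] at h2
      rw [h2, LinearMap.zero_apply]
    obtain ⟨δ, θ, hθ, x, hx, x', hx', hne⟩ := hherm s h1
    refine ⟨δ, θ, x, x', hθ, ?_⟩
    change W.tr Y (e s x * θ (e s x')) ≠ 0
    rw [hex _ _ hx, hex _ _ hx']
    exact hne

section D

variable (hDX : HomEqNum W X)

include hDX

/-- The conjecture `D` for linear combinations of algebraic classes. -/
lemma span_nondeg {j : ℕ} (hj : j ≤ X.dim) {x : W.H X}
    (hx : x ∈ Submodule.span W.K (algClasses W X j))
    (h0 : ∀ y ∈ algClasses W X (X.dim - j), bil W X y x = 0) : x = 0 := by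
  classical
  obtain ⟨S, hSA, hSspan, hSli⟩ := exists_linearIndependent W.K (algClasses W X j)
  have hfin : S.Finite := hSli.setFinite
  have := hfin.fintype
  have hSc : ∀ i : S, (i : W.H X) ∈ algClasses W X j := fun i => hSA i.2
  have hx' : x ∈ Submodule.span W.K (Set.range (fun s : S => (s : W.H X))) := by
    rw [Subtype.range_coe_subtype, Set.ofPred_mem_eq, hSspan]
    exact hx
  obtain ⟨r, rfl⟩ := (Submodule.mem_span_range_iff_exists_fun W.K).1 hx'
  by_contra hne
  obtain ⟨s0, hs0⟩ : ∃ s0, r s0 ≠ 0 := by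
    by_contra hcon
    push Not at hcon
    apply hne
    exact Finset.sum_eq_zero (fun s _ => by rw [hcon s, zero_smul])
  obtain ⟨ret, hret⟩ := exists_retract W.K
  set q : S → ℚ := fun s => ret (r s * (r s0)⁻¹) with hq
  have hv : ∑ s : S, (q s : W.K) • (s : W.H X) = 0 := by
    apply eq_zero_of_D hDX hj (alg_sum Finset.univ _ q (fun i _ => hSc i))
    intro y hy
    choose m hm using fun s : S => alg_rat hy (hSc s)
    have h1 := h0 y hy
    rw [map_sum] at h1
    have h2 : ∑ s : S, r s * (m s : W.K) = 0 := by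
      rw [← h1]
      apply Finset.sum_congr rfl
      intro s _
      rw [map_smul, hm s, smul_eq_mul]
    have h3 : ∑ s : S, q s * m s = 0 := by
      have h4 := congrArg (fun a => ret (a * (r s0)⁻¹)) h2
      beta_reduce at h4
      rw [Finset.sum_mul, map_sum, zero_mul, map_zero] at h4
      rw [← h4]
      apply Finset.sum_congr rfl
      intro s _
      rw [mul_right_comm, ret_mul]
    rw [Finset.sum_mul, map_sum]
    have h5 : ∀ s : S, W.tr X ((q s : W.K) • (s : W.H X) * y) = ((q s * m s : ℚ) : W.K) := by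
      intro s
      have h6 := hm s
      rw [bil_apply] at h6
      rw [smul_mul_assoc, map_smul, ← alg_even_comm hy, h6, smul_eq_mul, Rat.cast_mul]
    rw [Finset.sum_congr rfl (fun s _ => h5 s), ← Rat.cast_sum, h3, Rat.cast_zero]
  have h1 := Fintype.linearIndependent_iff.1 hSli _ hv s0
  have h2 : q s0 = 1 := by
    rw [hq]
    beta_reduce
    rw [mul_inv_cancel₀ hs0, hret]
  rw [h2, Rat.cast_one] at h1
  exact one_ne_zero h1

/-- The cohomology is the sum of the algebraic and the transcendental part. -/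
lemma split_of_D (y : W.H X) : ∃ a ∈ Submodule.span W.K {c | ∃ j, c ∈ algClasses W X j},
    y - a ∈ transcendental W X := by
  classical
  have hspan : ∀ j ≤ X.dim, ∀ x ∈ Submodule.span W.K (algClasses W X j),
      (∀ u ∈ Submodule.span W.K (algClasses W X (X.dim - j)), bil W X u x = 0) → x = 0 :=
    fun j hj x hx h0 => span_nondeg hDX hj hx (fun y hy => h0 y (Submodule.subset_span hy))
  have hspan' : ∀ j ≤ X.dim, ∀ u ∈ Submodule.span W.K (algClasses W X (X.dim - j)),
      (∀ x ∈ Submodule.span W.K (algClasses W X j), bil W X u x = 0) → u = 0 := by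
    intro j hj u hu h0
    apply span_nondeg hDX (show X.dim - j ≤ X.dim by omega) hu
    intro y hy
    rw [show X.dim - (X.dim - j) = j by omega] at hy
    have h1 := h0 y (Submodule.subset_span hy)
    rw [bil_apply] at h1 ⊢
    rw [alg_even_comm hy]
    exact h1
  choose N c c' hc hc' hcc hu hu' using fun j : Fin (X.dim + 1) =>
    exists_dual_families (bil W X) (Submodule.span W.K (algClasses W X (X.dim - j)))
      (Submodule.span W.K (algClasses W X j))
      (hspan' j (by omega)) (hspan j (by omega))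
  have hle : ∀ j, Submodule.span W.K (algClasses W X j) ≤
      Submodule.span W.K {c | ∃ j, c ∈ algClasses W X j} :=
    fun j => Submodule.span_mono (fun c hc => ⟨j, hc⟩)
  have hgr : ∀ j, Submodule.span W.K (algClasses W X j) ≤ W.gr X (2 * j) :=
    fun j => Submodule.span_le.2 (fun c hc => alg_gr hc)
  refine ⟨∑ j : Fin (X.dim + 1), ∑ i, bil W X (c j i) y • c' j i, ?_, ?_⟩
  · exact Submodule.sum_mem _ (fun j _ => Submodule.sum_mem _ (fun i _ =>
      Submodule.smul_mem _ _ (hle _ (hc' j i))))
  · rw [mem_trans]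
    intro j b hb
    by_cases hj : j ≤ X.dim
    · have h1 : b ∈ Submodule.span W.K (algClasses W X (X.dim - (X.dim - j))) := by
        rw [show X.dim - (X.dim - j) = j by omega]
        exact Submodule.subset_span hb
      have hb2 := hu ⟨X.dim - j, by omega⟩ b h1
      rw [bil_apply, ← alg_even_comm hb, ← bil_apply, map_sub, sub_eq_zero, map_sum,
        Finset.sum_eq_single ⟨X.dim - j, by omega⟩]
      · conv_lhs => rw [hb2]
        rw [map_sum, LinearMap.sum_apply, map_sum]
        apply Finset.sum_congr rfl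
        intro i _
        rw [map_smul, map_smul, LinearMap.smul_apply, smul_eq_mul, smul_eq_mul, mul_comm]
      · intro l _ hl
        rw [map_sum]
        apply Finset.sum_eq_zero
        intro i _
        rw [map_smul, bil_eq_zero (alg_gr hb) (hgr _ (hc' l i)), smul_zero]
        intro h2
        apply hl
        apply Fin.ext
        change (l : ℕ) = X.dim - j
        omega
      · intro h0; exact absurd (Finset.mem_univ _) h0
    · have h1 := alg_gr hb
      rw [W.gr_eq_bot X _ (by omega), Submodule.mem_bot] at h1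
      rw [h1, map_zero]

end D

/-- A rank one operator with algebraic kernel is algebraic. -/
lemma rk_alg {i j : ℕ} {x y : W.H X} (hx : x ∈ algClasses W X i) (hy : y ∈ algClasses W X j)
    {δ : ℤ} (hδ : (X.dim : ℤ) + δ = i + j) : (bil W X y).smulRight x ∈ KOp W X X δ := by
  obtain ⟨z, hz, rfl⟩ := hx
  obtain ⟨z', hz', rfl⟩ := hy
  have h1 := ops.pull_mem (swap X X)
    (ops.mul_mem (ops.pull_mem (fst X X) hz) (ops.pull_mem (snd X X) hz'))
  have h2 := KOp.gen (W := W) (X := X) (Y := X) (d := δ) (by rw [hδ]; push_cast; rfl) h1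
  rw [W.cl_pull, W.cl_mul, W.cl_pull, W.cl_pull, corr_swap_tmul (W.cl_mem hz) (W.cl_mem hz')] at h2
  exact h2

lemma rk_span {i j : ℕ} {x y : W.H X} (hx : x ∈ Submodule.span W.K (algClasses W X i))
    (hy : y ∈ Submodule.span W.K (algClasses W X j))
    {δ : ℤ} (hδ : (X.dim : ℤ) + δ = i + j) : (bil W X y).smulRight x ∈ KOp W X X δ := by
  induction hx using Submodule.span_induction with
  | mem x hx =>
    induction hy using Submodule.span_induction with
    | mem y hy => exact rk_alg hx hy hδ
    | zero =>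
      rw [map_zero]
      have : (0 : W.H X →ₗ[W.K] W.K).smulRight x = 0 := by
        apply LinearMap.ext; intro z; simp
      rw [this]
      exact Submodule.zero_mem _
    | add a b _ _ ha hb =>
      have : (bil W X (a + b)).smulRight x = (bil W X a).smulRight x +
          (bil W X b).smulRight x := by
        apply LinearMap.ext; intro z; simp [add_smul]
      rw [this]
      exact Submodule.add_mem _ ha hb
    | smul s a _ ha =>
      have : (bil W X (s • a)).smulRight x = s • (bil W X a).smulRight x := by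
        apply LinearMap.ext; intro z; simp [smul_smul]
      rw [this]
      exact Submodule.smul_mem _ _ ha
  | zero =>
    have : (bil W X y).smulRight (0 : W.H X) = 0 := by
      apply LinearMap.ext; intro z; simp
    rw [this]
    exact Submodule.zero_mem _
  | add a b _ _ ha hb =>
    have : (bil W X y).smulRight (a + b) = (bil W X y).smulRight a +
        (bil W X y).smulRight b := by
      apply LinearMap.ext; intro z; simp
    rw [this]
    exact Submodule.add_mem _ ha hb
  | smul s a _ ha =>
    have : (bil W X y).smulRight (s • a) = s • (bil W X y).smulRight a := by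
      apply LinearMap.ext; intro z
      simp only [LinearMap.smulRight_apply, LinearMap.smul_apply]
      rw [smul_comm]
    rw [this]
    exact Submodule.smul_mem _ _ ha

section Schur

variable {K V G : Type*} [Field K] [AddCommGroup V] [Module K V] [Module.Finite K V]
  [Group G] [Fintype G]

/-- **Schur's orthogonality relations**, for a subspace `U` of `T`. -/
theorem schur_block (A : G → Module.End K V) (hA : ∀ g h, A (g * h) = A h * A g)
    (T U : Submodule K V) (hUT : U ≤ T) (hT : ∀ g, ∀ t ∈ T, A g t ∈ T)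
    (hU : ∀ g, ∀ t ∈ U, A g t ∈ U) (B : V →ₗ[K] V →ₗ[K] K)
    (hB : ∀ g, ∀ x ∈ T, ∀ y ∈ T, B (A g x) (A g y) = B x y)
    (hc : ∀ φ : Module.End K V, (∀ t ∈ T, φ t ∈ T) →
      (∀ g, ∀ t ∈ T, φ (A g t) = A g (φ t)) → ∃ c : K, ∀ t ∈ U, φ t = c • t)
    (p : Module.End K V) (hpU : ∀ v, p v ∈ U) (hp : ∀ u ∈ U, p u = u)
    (hpB : ∀ u ∈ U, ∀ v, B u (p v) = B u v)
    {x y t : V} (hx : x ∈ U) (hy : y ∈ U) (ht : t ∈ T) :
    (Module.finrank K U : K) • ∑ g, B (A g y) x • A g t =
      ((Fintype.card G : K) * B y t) • x := by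
  classical
  set R : Module.End K V := ∑ g, (B (A g y)).smulRight (A g t) with hR
  have hRa : ∀ z, R z = ∑ g, B (A g y) z • A g t := by
    intro z
    rw [hR, LinearMap.sum_apply]
    rfl
  obtain ⟨c, hc'⟩ := hc R (by
    intro s _
    rw [hRa]
    exact Submodule.sum_mem _ (fun g _ => Submodule.smul_mem _ _ (hT g t ht))) (by
    intro h s hs
    rw [hRa, hRa, map_sum]
    rw [← Equiv.sum_comp (Equiv.mulRight h)]
    apply Finset.sum_congr rfl
    intro g _
    rw [Equiv.coe_mulRight, hA, Module.End.mul_apply, Module.End.mul_apply,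
      hB h _ (hT g y (hUT hy)) _ hs, map_smul])
  set R' : Module.End K U := ∑ g, ((B (A g y)) ∘ₗ U.subtype).smulRight ⟨p (A g t), hpU _⟩
    with hR'
  have h1 : R' = c • (1 : Module.End K U) := by
    apply LinearMap.ext
    intro s
    apply Subtype.ext
    have h2 : ((R' s : U) : V) = p (R s) := by
      rw [hRa, hR', LinearMap.sum_apply, Submodule.coe_sum, map_sum]
      apply Finset.sum_congr rfl
      intro g _
      rw [map_smul]
      rfl
    rw [h2, hc' s s.2, map_smul, hp s s.2]
    rfl
  have h3 : (Fintype.card G : K) * B y t = c * Module.finrank K U := by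
    have h4 := congrArg (LinearMap.trace K U) h1
    rw [map_smul, LinearMap.trace_one, hR', map_sum, smul_eq_mul] at h4
    rw [← h4, Finset.sum_congr rfl (fun g _ => LinearMap.trace_smulRight _ _)]
    have h5 : ∀ g, (B (A g y) ∘ₗ U.subtype) ⟨p (A g t), hpU _⟩ = B y t := by
      intro g
      change B (A g y) (p (A g t)) = B y t
      rw [hpB _ (hU g y hy), hB g y (hUT hy) t ht]
    rw [Finset.sum_congr rfl (fun g _ => h5 g), Finset.sum_const, Finset.card_univ,
      nsmul_eq_mul]
  rw [← hRa, hc' x hx, smul_smul, h3, mul_comm]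

end Schur

end Pool.Agent.H281R3.HT
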