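import Pool.Agent.H914R2.PMid

/-!
# Products of polarized varieties whose transcendental classes are externally algebraic
-/

open CategoryTheory AlgebraicGeometry

universe u v w

namespace Pool.Agent.H281R3.HT

open Pool.Agent.H914 Pool.Agent.H914.VarClass Pool.Agent.H914.VarClass.Obj
  Pool.Agent.H914.WeilCohomology

variable {k : Type u} [Field k] {𝒱 : VarClass k} {ops : CycleOps 𝒱}

/-- A variety in the class `𝒱` with a cycle `D` (in the intended use: an ample divisor). -/
structure Polarized (𝒱 : VarClass k) where
  /-- the variety -/
  X : 𝒱.Obj
  /-- the divisor -/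
  D : X.Cycles

/-- The product `X × Y` with the divisor `D_X × Y + X × D_Y`. -/
noncomputable def Polarized.prod (ops : CycleOps 𝒱) (P Q : Polarized 𝒱) : Polarized 𝒱 where
  X := P.X.prod Q.X
  D := ops.pull (fst P.X Q.X) P.D + ops.pull (snd P.X Q.X) Q.D

/-- The iterated products of members of the family `P` (with any bracketing and any
repetitions). -/
inductive IsProduct (ops : CycleOps 𝒱) {ι : Type w} (P : ι → Polarized 𝒱) :
    Polarized 𝒱 → Prop
  | base (i : ι) : IsProduct ops P (P i)
  | prod {Q R : Polarized 𝒱} : IsProduct ops P Q → IsProduct ops P R →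
      IsProduct ops P (Q.prod ops R)

/-- The external product `t × t'` in the cohomology of `X × Y`. -/
noncomputable def ext (W : WeilCohomology.{u, v} ops) {X Y : 𝒱.Obj} (t : W.H X) (t' : W.H Y) :
    W.H (X.prod Y) :=
  W.map (fst X Y) t * W.map (snd X Y) t'

/-- The linear combinations of algebraic classes, with coefficients in the coefficient field of
the cohomology. -/
def algSpan (W : WeilCohomology.{u, v} ops) (X : 𝒱.Obj) : Submodule W.K (W.H X) :=
  Submodule.span W.K (⋃ j, algClasses W X j)

/-- All external products `t × t'` of a transcendental class `t` of `X` and a transcendental class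
`t'` of `Y` are linear combinations, with coefficients in the coefficient field of the cohomology,
of classes of algebraic cycles on `X × Y`. -/
def ExternallyAlgebraic (W : WeilCohomology.{u, v} ops) (X Y : 𝒱.Obj) : Prop :=
  ∀ t ∈ transcendental W X, ∀ t' ∈ transcendental W Y, ext W t t' ∈ algSpan W (X.prod Y)

end Pool.Agent.H281R3.HT
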