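import Mathlib

/-!
# Modules without multiplicities over algebras of operators
-/

namespace Pool.Agent.H281R3.HT

variable {K M : Type*} [Field K] [AddCommGroup M] [Module K M]

/-- Schur's lemma over an algebraically closed field. -/
theorem schur_alg [IsAlgClosed K] {A : Type*} [Ring A] [Algebra K A] {S : Type*} [AddCommGroup S]
    [Module K S] [Module A S] [IsScalarTower K A S] [FiniteDimensional K S] [IsSimpleModule A S]
    (φ : Module.End A S) : ∃ c : K, ∀ s, φ s = c • s := by
  have : Nontrivial S := IsSimpleModule.nontrivial A S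
  obtain ⟨c, hc⟩ := Module.End.exists_eigenvalue (φ.restrictScalars K : Module.End K S)
  obtain ⟨v, hv⟩ := hc.exists_hasEigenvector
  refine ⟨c, fun s => ?_⟩
  set ψ : S →ₗ[A] S :=
    { toFun := fun s => φ s - c • s
      map_add' := fun x y => by rw [map_add, smul_add]; abel
      map_smul' := fun a x => by
        rw [map_smul, RingHom.id_apply, smul_sub]
        congr 1
        rw [← algebraMap_smul A c (a • x), ← algebraMap_smul A c x, smul_smul, smul_smul,
          Algebra.commutes] } with hψ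
  rcases LinearMap.bijective_or_eq_zero ψ with h | h
  · exfalso
    apply hv.2
    apply h.1
    rw [map_zero]
    change φ v - c • v = 0
    rw [sub_eq_zero]
    exact hv.apply_eq_smul
  · have h2 := congrArg (fun f => f s) h
    change φ s - c • s = 0 at h2
    exact sub_eq_zero.1 h2

/-- A semisimple module over an algebra of operators whose commutant is commutative is a direct
sum of simple modules, and every operator preserving these summands comes from the algebra. -/
theorem exists_simple_blocks [IsAlgClosed K] [FiniteDimensional K M]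
    (A : Subalgebra K (Module.End K M)) (T : Submodule K M) (hT : ∀ a ∈ A, ∀ t ∈ T, a t ∈ T)
    {κ : Type*} (Q : κ → Submodule K M) (hQT : ∀ i, Q i ≤ T)
    (hQsup : T ≤ ⨆ i, Q i) (hQA : ∀ i, ∀ a ∈ A, ∀ x ∈ Q i, a x ∈ Q i)
    (hss : ∀ i, ∀ N ≤ Q i, (∀ a ∈ A, ∀ x ∈ N, a x ∈ N) →
      ∃ N' ≤ Q i, (∀ a ∈ A, ∀ x ∈ N', a x ∈ N') ∧ N ⊓ N' = ⊥ ∧ Q i ≤ N ⊔ N')
    (hMF : ∀ φ ψ : Module.End K M, (∀ t ∈ T, φ t ∈ T) → (∀ a ∈ A, ∀ t ∈ T, φ (a t) = a (φ t)) →
      (∀ t ∈ T, ψ t ∈ T) → (∀ a ∈ A, ∀ t ∈ T, ψ (a t) = a (ψ t)) →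
        ∀ t ∈ T, φ (ψ t) = ψ (φ t)) :
    ∃ (n : ℕ) (V : Fin n → Submodule K M) (p : Fin n → Module.End K M),
      (∀ i, V i ≤ T) ∧ (∀ i, V i ≠ ⊥) ∧ (∀ i, ∀ t ∈ T, p i t ∈ V i) ∧ (∀ i, ∀ v ∈ V i, p i v = v) ∧
      (∀ i j, i ≠ j → ∀ v ∈ V j, p i v = 0) ∧ (∀ t ∈ T, ∑ i, p i t = t) ∧
      (∀ i, ∀ a ∈ A, ∀ v ∈ V i, a v ∈ V i) ∧
      (∀ ψ : Module.End K M, (∀ i, ∀ v ∈ V i, ψ v ∈ V i) → ∃ a ∈ A, ∀ t ∈ T, a t = ψ t) := by
  classical
  -- the module
  let T' : Submodule A M :=
    { carrier := T
      add_mem' := fun h1 h2 => T.add_mem h1 h2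
      zero_mem' := T.zero_mem
      smul_mem' := fun a t ht => hT a.1 a.2 t ht }
  have hmem : ∀ x, x ∈ T' ↔ x ∈ T := fun x => Iff.rfl
  have hfinM : Module.Finite A M := Module.Finite.of_restrictScalars_finite K A M
  have hfinK : FiniteDimensional K T' := by
    have h1 : FiniteDimensional K T := inferInstance
    exact h1
  have hfin : Module.Finite A T' := Module.Finite.of_restrictScalars_finite K A T'
  let P : κ → Submodule A T' := fun i =>
    { carrier := {x : T' | (x : M) ∈ Q i}
      add_mem' := fun h1 h2 => (Q i).add_mem h1 h2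
      zero_mem' := (Q i).zero_mem
      smul_mem' := fun a t ht => hQA i a.1 a.2 t ht }
  have hPsup : ⨆ i, P i = ⊤ := by
    rw [Submodule.eq_top_iff']
    intro x
    have key : ∀ m ∈ ⨆ i, Q i, m ∈ (⨆ i, P i).map T'.subtype := by
      intro m hm
      refine Submodule.iSup_induction Q (motive := fun m => m ∈ (⨆ i, P i).map T'.subtype) hm
        ?_ ?_ ?_
      · intro i y hy
        have h1 : (⟨y, hQT i hy⟩ : T') ∈ P i := hy
        exact ⟨⟨y, hQT i hy⟩, Submodule.mem_iSup_of_mem i h1, rfl⟩
      · exact Submodule.zero_mem _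
      · intro y z hy hz
        exact Submodule.add_mem _ hy hz
    obtain ⟨y, hy, hyx⟩ := key x (hQsup x.2)
    have h1 : y = x := Subtype.ext hyx
    rw [← h1]
    exact hy
  have hsemi : IsSemisimpleModule A T' := by
    refine isSemisimpleModule_of_isSemisimpleModule_submodule' (p := P) (fun i => ?_) hPsup
    refine { exists_isCompl := fun N => ?_ }
    set N0 : Submodule K M := ((N.map (P i).subtype).map T'.subtype).restrictScalars K with hN0
    have hN0le : N0 ≤ Q i := by
      rintro x ⟨y, ⟨z, hz, rfl⟩, rfl⟩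
      exact z.2
    obtain ⟨N', hN'T, hN's, hinf, hsup⟩ := hss i N0 hN0le (by
      intro a ha x hx
      exact ((N.map (P i).subtype).map T'.subtype).smul_mem ⟨a, ha⟩ hx)
    refine ⟨{ carrier := {x : P i | ((x : T') : M) ∈ N'}
              add_mem' := fun h1 h2 => N'.add_mem h1 h2
              zero_mem' := N'.zero_mem
              smul_mem' := fun a t ht => hN's a.1 a.2 _ ht }, ?_, ?_⟩
    · rw [disjoint_iff, Submodule.eq_bot_iff]
      rintro x ⟨hx1, hx2⟩
      have h1 : ((x : T') : M) ∈ N0 ⊓ N' := ⟨⟨x, ⟨x, hx1, rfl⟩, rfl⟩, hx2⟩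
      rw [hinf, Submodule.mem_bot] at h1
      exact Subtype.ext (Subtype.ext h1)
    · rw [codisjoint_iff, Submodule.eq_top_iff']
      intro x
      obtain ⟨y, hy, z, hz, hyz⟩ := Submodule.mem_sup.1 (hsup x.2)
      obtain ⟨y', ⟨y'', hy', rfl⟩, rfl⟩ := hy
      rw [Submodule.mem_sup]
      exact ⟨y'', hy', ⟨⟨z, hQT i (hN'T hz)⟩, hN'T hz⟩, hz, Subtype.ext (Subtype.ext hyz)⟩
  obtain ⟨n, S, e, hS⟩ := IsSemisimpleModule.exists_linearEquiv_fin_dfinsupp A T'
  have hSfin : ∀ i, FiniteDimensional K (S i) := by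
    intro i
    exact FiniteDimensional.finiteDimensional_submodule ((S i).restrictScalars K)
  -- the projections
  set q : Fin n → Module.End A T' := fun i =>
    e.symm.toLinearMap ∘ₗ DFinsupp.lsingle i ∘ₗ DFinsupp.lapply i ∘ₗ e.toLinearMap with hq
  have hqa : ∀ i t, q i t = e.symm (DFinsupp.single i (e t i)) := fun i t => rfl
  have hqq : ∀ i t, q i (q i t) = q i t := by
    intro i t
    rw [hqa, hqa, LinearEquiv.apply_symm_apply, DFinsupp.single_eq_same]
  have hqne : ∀ i j, i ≠ j → ∀ t, q i (q j t) = 0 := by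
    intro i j hij t
    rw [hqa, hqa, LinearEquiv.apply_symm_apply, DFinsupp.single_eq_of_ne hij,
      DFinsupp.single_zero, map_zero]
  have hqsum : ∀ t, ∑ i, q i t = t := by
    intro t
    apply e.injective
    rw [map_sum]
    simp only [hqa, LinearEquiv.apply_symm_apply]
    ext i
    simp [DFinsupp.single_apply]
  -- extension of operators
  obtain ⟨π, hπ⟩ := LinearMap.exists_leftInverse_of_injective T.subtype (by simp)
  have hπt : ∀ t (ht : t ∈ T), π t = ⟨t, ht⟩ := fun t ht =>
    congrArg (fun f => f ⟨t, ht⟩) hπ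
  set ex : Module.End A T' → Module.End K M := fun φ =>
    { toFun := fun m => ((φ ⟨(π m : M), (π m).2⟩ : T') : M)
      map_add' := fun x y => by
        have h1 : (⟨(π (x + y) : M), (π (x + y)).2⟩ : T') =
            ⟨(π x : M), (π x).2⟩ + ⟨(π y : M), (π y).2⟩ := by
          apply Subtype.ext
          change (π (x + y) : M) = (π x : M) + (π y : M)
          rw [map_add]; rfl
        rw [h1, map_add]; rfl
      map_smul' := fun c x => by
        have h1 : (⟨(π (c • x) : M), (π (c • x)).2⟩ : T') =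
            algebraMap K A c • ⟨(π x : M), (π x).2⟩ := by
          apply Subtype.ext
          change (π (c • x) : M) = algebraMap K A c • (π x : M)
          rw [map_smul, algebraMap_smul]; rfl
        rw [h1, map_smul, RingHom.id_apply]
        change algebraMap K A c • (φ ⟨(π x : M), (π x).2⟩ : M) = _
        rw [algebraMap_smul] } with hex
  have hext : ∀ φ : Module.End A T', ∀ t : T', ex φ (t : M) = (φ t : M) := by
    intro φ t
    change ((φ ⟨(π (t : M) : M), _⟩ : T') : M) = _
    congr 2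
    apply Subtype.ext
    change ((π (t : M) : T) : M) = t
    rw [hπt t t.2]
  have hcomm : ∀ φ ψ : Module.End A T', ∀ t, φ (ψ t) = ψ (φ t) := by
    intro φ ψ t
    have h1 : ∀ φ : Module.End A T', (∀ t ∈ T, ex φ t ∈ T) ∧
        ∀ a ∈ A, ∀ t ∈ T, ex φ (a t) = a (ex φ t) := by
      intro φ
      refine ⟨fun t ht => ?_, fun a ha t ht => ?_⟩
      · have h2 := hext φ ⟨t, ht⟩
        change ex φ t = _ at h2
        rw [h2]
        exact (φ ⟨t, ht⟩).2
      · have h2 := hext φ ⟨t, ht⟩
        have h3 := hext φ ((⟨a, ha⟩ : A) • ⟨t, ht⟩)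
        rw [map_smul] at h3
        change ex φ (a t) = a (φ ⟨t, ht⟩ : M) at h3
        change ex φ t = _ at h2
        rw [h2, h3]
    have h2 := hMF (ex φ) (ex ψ) (h1 φ).1 (h1 φ).2 (h1 ψ).1 (h1 ψ).2 t t.2
    rw [hext, hext, hext, hext] at h2
    exact Subtype.ext h2
  -- scalars
  have hscal : ∀ i, ∀ φ : Module.End A T', ∃ c : K, ∀ t, φ (q i t) = c • q i t := by
    intro i φ
    have := hS i
    set χ : S i →ₗ[A] S i :=
      { toFun := fun x => e (φ (e.symm (DFinsupp.single i x))) i
        map_add' := fun x y => by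
          rw [DFinsupp.single_add, map_add, map_add, map_add, DFinsupp.add_apply]
        map_smul' := fun a x => by
          rw [DFinsupp.single_smul, map_smul, map_smul, map_smul, DFinsupp.smul_apply,
            RingHom.id_apply] } with hχ
    obtain ⟨c, hc⟩ := schur_alg (K := K) (A := A) (S := S i) χ
    refine ⟨c, fun t => ?_⟩
    have h1 : φ (q i t) = q i (φ (q i t)) := by
      rw [← hcomm φ (q i) (q i t), hqq]
    have h2 := hc (e t i)
    change e (φ (e.symm (DFinsupp.single i (e t i)))) i = c • e t i at h2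
    rw [h1, hqa i (φ (q i t)), hqa i t, h2]
    have h3 : (DFinsupp.single i (c • e t i) : Π₀ i, S i) = c • DFinsupp.single i (e t i) := by
      rw [DFinsupp.single_smul]
    rw [h3]
    rw [← algebraMap_smul A c, ← algebraMap_smul A c, map_smul]
  refine ⟨n, fun i => ((LinearMap.range (q i)).map T'.subtype).restrictScalars K,
    fun i => ex (q i), ?_, ?_, ?_, ?_, ?_, ?_, ?_, ?_⟩
  · rintro i x ⟨y, hy, rfl⟩
    exact y.2
  · intro i h0
    have := hS i
    have : Nontrivial (S i) := IsSimpleModule.nontrivial A (S i)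
    obtain ⟨s, hs⟩ := exists_ne (0 : S i)
    have h1 : (q i (e.symm (DFinsupp.single i s)) : M) ∈
        ((LinearMap.range (q i)).map T'.subtype).restrictScalars K := ⟨_, ⟨_, rfl⟩, rfl⟩
    have h0' : ((LinearMap.range (q i)).map T'.subtype).restrictScalars K = ⊥ := h0
    rw [h0', Submodule.mem_bot] at h1
    have h2 : q i (e.symm (DFinsupp.single i s)) = 0 := Subtype.ext h1
    rw [hqa, LinearEquiv.apply_symm_apply, DFinsupp.single_eq_same] at h2
    have h3 : (DFinsupp.single i s : Π₀ i, S i) = 0 := by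
      apply e.symm.injective
      rw [h2, map_zero]
    apply hs
    have h4 := congrArg (fun f => f i) h3
    simpa using h4
  · intro i t ht
    have h1 := hext (q i) ⟨t, ht⟩
    change ex (q i) t = _ at h1
    rw [h1]
    exact ⟨_, ⟨_, rfl⟩, rfl⟩
  · rintro i v ⟨y, ⟨t, rfl⟩, rfl⟩
    change ex (q i) (q i t : M) = _
    rw [hext, hqq]
    rfl
  · rintro i j hij v ⟨y, ⟨t, rfl⟩, rfl⟩
    change ex (q i) (q j t : M) = _
    rw [hext, hqne i j hij]
    rfl
  · intro t ht
    have h1 := congrArg (fun x : T' => (x : M)) (hqsum ⟨t, ht⟩)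
    change ((∑ i, q i ⟨t, ht⟩ : T') : M) = t at h1
    rw [Submodule.coe_sum] at h1
    rw [← h1]
    apply Finset.sum_congr rfl
    intro i _
    have h2 := hext (q i) ⟨t, ht⟩
    change ex (q i) t = _ at h2
    rw [h1] 
    exact h2
  · intro i a ha v hv
    exact ((LinearMap.range (q i)).map T'.subtype).smul_mem ⟨a, ha⟩ hv
  · intro ψ hψ
    -- density
    have hψT : ∀ t ∈ T, ψ t ∈ T := by
      intro t ht
      have h1 := congrArg (fun x : T' => (x : M)) (hqsum ⟨t, ht⟩)
      change ((∑ i, q i ⟨t, ht⟩ : T') : M) = t at h1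
      rw [Submodule.coe_sum] at h1
      rw [← h1, map_sum]
      refine Submodule.sum_mem _ (fun i _ => ?_)
      obtain ⟨y, hy, hy'⟩ := hψ i (q i ⟨t, ht⟩ : M) ⟨_, ⟨_, rfl⟩, rfl⟩
      rw [← hy']
      exact y.2
    have hψc : ∀ φ : Module.End A T', ∀ t : T', (φ ⟨ψ t, hψT t t.2⟩ : M) = ψ (φ t : M) := by
      intro φ t
      have key : ∀ i, (φ ⟨ψ (q i t), hψT _ (q i t).2⟩ : M) = ψ (φ (q i t) : M) := by
        intro i
        obtain ⟨c, hc⟩ := hscal i φ
        obtain ⟨y, ⟨s, hs⟩, hy'⟩ := hψ i (q i t : M) ⟨_, ⟨_, rfl⟩, rfl⟩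
        have h1 : (⟨ψ (q i t), hψT _ (q i t).2⟩ : T') = q i s := by
          apply Subtype.ext
          rw [hs]
          exact hy'.symm
        rw [h1, hc, hc]
        have h2 : ((c • q i t : T') : M) = c • (q i t : M) := rfl
        have h3 : ((c • q i s : T') : M) = c • (q i s : M) := rfl
        rw [h2, h3, map_smul, ← h1]
      have h1 : (⟨ψ t, hψT t t.2⟩ : T') = ∑ i, ⟨ψ (q i t), hψT _ (q i t).2⟩ := by
        apply Subtype.ext
        rw [Submodule.coe_sum]
        change ψ (t : M) = ∑ i, ψ (q i t : M)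
        rw [← map_sum, ← Submodule.coe_sum, hqsum]
      have h2 : φ t = ∑ i, φ (q i t) := by
        rw [← map_sum, hqsum]
      rw [h1, h2, map_sum, Submodule.coe_sum, Submodule.coe_sum, map_sum]
      exact Finset.sum_congr rfl (fun i _ => key i)
    set f : Module.End (Module.End A T') T' :=
      { toFun := fun t => ⟨ψ t, hψT t t.2⟩
        map_add' := fun x y => Subtype.ext (by
          change ψ ((x : M) + (y : M)) = ψ (x : M) + ψ (y : M)
          rw [map_add])
        map_smul' := fun φ t => Subtype.ext (by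
          change ψ (φ t : M) = (φ ⟨ψ t, hψT t t.2⟩ : M)
          rw [hψc]) } with hf
    obtain ⟨s, hs⟩ := (inferInstance : Module.Finite K T').fg_top
    obtain ⟨r, hr⟩ := jacobson_density f s
    refine ⟨r.1, r.2, fun t ht => ?_⟩
    have key : ∀ x : T', (r.1 (x : M) : M) = ψ (x : M) := by
      intro x
      have hx : x ∈ Submodule.span K (s : Set T') := by
        rw [hs]; trivial
      induction hx using Submodule.span_induction with
      | mem x hx =>
        have h1 := congrArg (fun x : T' => (x : M)) (hr x hx)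
        exact h1.symm
      | zero =>
        change r.1 (0 : M) = ψ (0 : M)
        rw [map_zero, map_zero]
      | add x y _ _ h1 h2 =>
        change r.1 ((x : M) + (y : M)) = ψ ((x : M) + (y : M))
        rw [map_add, map_add, h1, h2]
      | smul c x _ h1 =>
        change r.1 (c • (x : M)) = ψ (c • (x : M))
        rw [map_smul, map_smul, h1]
    exact key ⟨t, ht⟩

end Pool.Agent.H281R3.HT
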