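import Pool.Agent.H281R3.HT.EDef
import Pool.Agent.H281R3.HT.EAlg
import Pool.Agent.H281R3.HT.DBlk

/-!
# Blocks from a commutative commutant
-/

open CategoryTheory AlgebraicGeometry

universe u v w

namespace Pool.Agent.H281R3.HT

open Pool.Agent.H914 Pool.Agent.H914.VarClass Pool.Agent.H914.VarClass.Obj
  Pool.Agent.H914.WeilCohomology

variable {k : Type u} [Field k] {𝒱 : VarClass k} {ops : CycleOps 𝒱}
  {W : WeilCohomology.{u, v} ops} {X X' Y Z : 𝒱.Obj}

/-- Blocks from pairs of dual subspaces. -/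
theorem hasBlocks_of' {S : SemiLin W} {κ : Type} [Fintype κ] (B B' : κ → Submodule W.K (W.H Y))
    (d : κ → ℕ) (π : κ → κ)
    (hdeg : ∀ s, B s ≤ W.gr Y (d s))
    (hnd : ∀ s, ∀ x ∈ B s, (∀ y ∈ B' s, bil W Y y x = 0) → x = 0)
    (hnd' : ∀ s, ∀ y ∈ B' s, (∀ x ∈ B s, bil W Y y x = 0) → y = 0)
    (horth : ∀ s t, s ≠ t → ∀ x ∈ B s, ∀ y ∈ B' t, bil W Y y x = 0)
    (htot : ∀ r, (∀ s, ∀ y ∈ B' s, bil W Y y r = 0) → r = 0)
    (halg : ∀ s, ∀ x ∈ B s, ∀ y ∈ B' s, (bil W Y y).smulRight x ∈ KOp W Y Y 0)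
    (hπ : Function.Injective π) (hσ : ∀ s, ∀ x ∈ B s, S.σ Y x ∈ B (π s))
    (hherm : ∀ s, B s ≠ ⊥ → ∃ (δ : ℤ) (θ : Module.End W.K (W.H Y)), θ ∈ KOp W Y Y δ ∧
      ∃ x ∈ B s, ∃ x' ∈ B s, W.tr Y (x * θ (S.σ Y x')) ≠ 0) :
    HasBlocks S Y := by
  classical
  choose N c c' hc hc' hcc hu hu' using fun s => exists_dual_families (bil W Y) (B' s) (B s)
    (hnd' s) (hnd s)
  set e : κ → Module.End W.K (W.H Y) := fun s => ∑ i, (bil W Y (c s i)).smulRight (c' s i)
    with he
  have hea : ∀ s z, e s z = ∑ i, bil W Y (c s i) z • c' s i := by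
    intro s z
    rw [he]
    beta_reduce
    rw [LinearMap.sum_apply]
    rfl
  have heB : ∀ s z, e s z ∈ B s := by
    intro s z
    rw [hea]
    exact Submodule.sum_mem _ (fun i _ => Submodule.smul_mem _ _ (hc' s i))
  have hex : ∀ s, ∀ x ∈ B s, e s x = x := by
    intro s x hx
    rw [hea]
    exact (hu' s x hx).symm
  have hex0 : ∀ s t, s ≠ t → ∀ x ∈ B s, e t x = 0 := by
    intro s t hst x hx
    rw [hea]
    apply Finset.sum_eq_zero
    intro i _
    rw [horth s t hst x hx _ (hc t i), zero_smul]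
  have hbil : ∀ s, ∀ y ∈ B' s, ∀ z, bil W Y y (e s z) = bil W Y y z := by
    intro s y hy z
    rw [hea, map_sum]
    conv_rhs => rw [hu s y hy]
    rw [map_sum, LinearMap.sum_apply]
    apply Finset.sum_congr rfl
    intro i _
    rw [map_smul, map_smul, LinearMap.smul_apply, smul_eq_mul, smul_eq_mul, mul_comm]
  have hsum : ∑ s, e s = 1 := by
    apply LinearMap.ext
    intro z
    rw [Module.End.one_apply, ← sub_eq_zero]
    apply htot
    intro t y hy
    rw [LinearMap.sum_apply, map_sub, map_sum, Finset.sum_eq_single t, hbil t y hy, sub_self]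
    · intro s _ hs
      exact horth s t hs _ (heB s z) y hy
    · intro h0; exact absurd (Finset.mem_univ _) h0
  have hperm : ∀ s z, S.σ Y (e s z) = e (π s) (S.σ Y z) := by
    intro s z
    have h1 := congrArg (fun F => F z) hsum
    beta_reduce at h1
    rw [LinearMap.sum_apply, Module.End.one_apply] at h1
    conv_rhs => rw [← h1]
    rw [map_sum, map_sum, Finset.sum_eq_single s]
    · exact (hex _ _ (hσ s _ (heB s z))).symm
    · intro t _ ht
      exact hex0 _ _ (fun h => ht (hπ h)) _ (hσ t _ (heB t z))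
    · intro h0; exact absurd (Finset.mem_univ _) h0
  have hne0 : ∀ s, e s ≠ 0 ↔ B s ≠ ⊥ := by
    intro s
    constructor
    · intro h h0
      apply h
      apply LinearMap.ext
      intro z
      have h2 := heB s z
      rw [h0, Submodule.mem_bot] at h2
      rw [h2, LinearMap.zero_apply]
    · intro h h0
      apply h
      rw [Submodule.eq_bot_iff]
      intro x hx
      rw [← hex s x hx, h0, LinearMap.zero_apply]
  have hπne : ∀ s, e s ≠ 0 → e (π s) ≠ 0 := by
    intro s hs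
    rw [hne0] at hs ⊢
    obtain ⟨x, hx, hx0⟩ := Submodule.exists_mem_ne_zero_of_ne_bot hs
    intro h0
    have h1 := hσ s x hx
    rw [h0, Submodule.mem_bot] at h1
    exact hx0 (S.inj _ h1)
  refine ⟨{s // e s ≠ 0}, inferInstance, fun s => e s, fun s => d s, ?_⟩
  refine ⟨?_, ?_, ?_, ?_, ?_, ?_⟩
  · rw [← hsum, ← Finset.sum_filter_ne_zero (s := Finset.univ) (f := e)]
    exact (Finset.sum_subtype (Finset.univ.filter (fun s => e s ≠ 0)) (by simp) e).symm
  · intro s
    apply LinearMap.ext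
    intro z
    exact hex _ _ (heB _ z)
  · intro s a
    exact hdeg _ (heB _ a)
  · intro s A
    have h1 : e s * A * e s = ∑ i, (bil W Y (c s i)).smulRight (e s (A (c' s i))) := by
      apply LinearMap.ext
      intro z
      rw [Module.End.mul_apply, Module.End.mul_apply, hea s z, map_sum, map_sum,
        LinearMap.sum_apply]
      apply Finset.sum_congr rfl
      intro i _
      rw [map_smul, map_smul, LinearMap.smulRight_apply]
    rw [h1]
    exact Submodule.sum_mem _ (fun i _ => halg s _ (heB _ _) _ (hc _ i))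
  · intro s
    exact ⟨⟨π s, hπne _ s.2⟩, fun a => hperm _ a⟩
  · intro s
    obtain ⟨δ, θ, hθ, x, hx, x', hx', hne⟩ := hherm s ((hne0 _).1 s.2)
    refine ⟨δ, θ, x, x', hθ, ?_⟩
    change W.tr Y (e s x * θ (S.σ Y (e s x'))) ≠ 0
    rw [hex _ _ hx, hex _ _ hx']
    exact hne

/-- Operators of degree `0` preserve degrees. -/
lemma hom0 {φ : Module.End W.K (W.H X)} (hφ : φ ∈ KOp W X X 0) {i : ℕ} {a : W.H X}
    (ha : a ∈ W.gr X i) : φ a ∈ W.gr X i := by
  have h1 := KOp.isHom hφ (i : ℤ) a (by rw [grZ_natCast]; exact ha)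
  rw [mul_zero, add_zero, grZ_natCast] at h1
  exact h1

/-- Induction on homogeneous elements. -/
lemma gr_induction {p : W.H X → Prop} (h0 : p 0) (hadd : ∀ x y, p x → p y → p (x + y))
    (h : ∀ i, ∀ a ∈ W.gr X i, p a) (a : W.H X) : p a := by
  have h1 : a ∈ ⨆ i, W.gr X i := by
    rw [(W.isInternal X).submodule_iSup_eq_top]
    exact Submodule.mem_top
  exact Submodule.iSup_induction (W.gr X) (motive := p) h1 h h0 hadd

/-- The sign in the trace form. -/
lemma tr_swap {d : ℕ} {x : W.H X} (hx : x ∈ W.gr X d) (y : W.H X) :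
    W.tr X (y * x) = (-1 : W.K) ^ d * W.tr X (x * y) := by
  refine gr_induction (p := fun y => W.tr X (y * x) = (-1 : W.K) ^ d * W.tr X (x * y)) ?_ ?_ ?_ y
  · rw [zero_mul, mul_zero, map_zero, mul_zero]
  · intro y z hy hz
    rw [add_mul, mul_add, map_add, map_add, hy, hz, mul_add]
  · intro i a ha
    by_cases h : i + d = 2 * X.dim
    · rw [W.comm ha hx, map_smul, smul_eq_mul]
      congr 1
      have h1 : i * d + d * d = 2 * (X.dim * d) := by rw [← add_mul, h]; ring
      have h2 : (-1 : W.K) ^ (i * d) * (-1 : W.K) ^ (d * d) = 1 := by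
        rw [← pow_add, h1, pow_mul, neg_one_sq, one_pow]
      have h3 : (-1 : W.K) ^ (d * d) = (-1 : W.K) ^ d := by
        rcases Nat.even_or_odd d with hd | hd
        · rw [hd.neg_one_pow, (hd.mul_left d).neg_one_pow]
        · rw [hd.neg_one_pow, (hd.mul hd).neg_one_pow]
      have h4 : (-1 : W.K) ^ d * (-1 : W.K) ^ d = 1 := by
        rw [← mul_pow, neg_one_mul, neg_neg, one_pow]
      rw [h3] at h2
      calc (-1 : W.K) ^ (i * d) = (-1 : W.K) ^ (i * d) * ((-1 : W.K) ^ d * (-1 : W.K) ^ d) := by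
            rw [h4, mul_one]
        _ = (-1 : W.K) ^ d := by rw [← mul_assoc, h2, one_mul]
    · rw [W.tr_eq_zero (W.mul_mem ha hx) h, W.tr_eq_zero (W.mul_mem hx ha) (by omega), mul_zero]

/-- Two-sided adjoints of operators of degree `0`. -/
lemma exists_adj {φ : Module.End W.K (W.H X)} (hφ : φ ∈ KOp W X X 0) :
    ∃ ψ ∈ KOp W X X 0, (∀ a b, bil W X (φ a) b = bil W X a (ψ b)) ∧
      ∀ a b, bil W X a (φ b) = bil W X (ψ a) b := by
  obtain ⟨ψ, hψ, h⟩ := KOp.exists_adjoint hφ
  have hψ0 : ψ ∈ KOp W X X 0 := KOp.cast hψ (by ring)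
  refine ⟨ψ, hψ0, h, fun a b => ?_⟩
  refine gr_induction (p := fun b => bil W X a (φ b) = bil W X (ψ a) b) ?_ ?_ ?_ b
  · rw [map_zero, map_zero, map_zero]
  · intro y z hy hz
    rw [map_add, map_add, map_add, hy, hz]
  · intro i c hc
    rw [bil_apply, bil_apply, tr_swap (hom0 hφ hc), h, tr_swap hc (ψ a), ← bil_apply]

end Pool.Agent.H281R3.HT
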