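import Pool.Agent.H914R2.Blocks
import Pool.Agent.H914R2.KDesc

/-!
# The commutant of the algebraic correspondences on the transcendental cohomology
-/

open CategoryTheory AlgebraicGeometry

universe u v w

namespace Pool.Agent.H281R3.HT

open Pool.Agent.H914 Pool.Agent.H914.VarClass Pool.Agent.H914.VarClass.Obj
  Pool.Agent.H914.WeilCohomology

variable {k : Type u} [Field k] {𝒱 : VarClass k} {ops : CycleOps 𝒱}

/-- A semilinear automorphism of a Weil cohomology theory is compatible with push-forwards. -/
def PushCompatible {W : WeilCohomology.{u, v} ops} (S : SemiLin W) : Prop :=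
  ∀ {X Y : 𝒱.Obj} (f : X ⟶ Y) (a : W.H X), S.σ Y (W.push f a) = W.push f (S.σ X a)

/-- The linear operator `φ` maps the transcendental cohomology of `X` to itself and commutes there
with all algebraic correspondences of degree `0`. -/
def Commuting (W : WeilCohomology.{u, v} ops) (X : 𝒱.Obj) (φ : Module.End W.K (W.H X)) : Prop :=
  (∀ t ∈ transcendental W X, φ t ∈ transcendental W X) ∧
    ∀ ψ ∈ KOp W X X 0, ∀ t ∈ transcendental W X, φ (ψ t) = ψ (φ t)

/-- Any two linear operators on the transcendental cohomology of `X` commuting with all algebraic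
correspondences commute with each other. -/
def CommCommK (W : WeilCohomology.{u, v} ops) (X : 𝒱.Obj) : Prop :=
  ∀ φ ψ, Commuting W X φ → Commuting W X ψ → ∀ t ∈ transcendental W X, φ (ψ t) = ψ (φ t)

/-- Every non-zero subspace of the transcendental cohomology which is stable under the algebraic
correspondences of degree `0` pairs non-trivially with its conjugate, by an algebraic
correspondence `θ` of some degree. -/
def PairsConjK {W : WeilCohomology.{u, v} ops} (S : SemiLin W) (X : 𝒱.Obj) : Prop :=
  ∀ V ≤ transcendental W X, V ≠ ⊥ → (∀ ψ ∈ KOp W X X 0, ∀ v ∈ V, ψ v ∈ V) →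
    ∃ (δ : ℤ), ∃ θ ∈ KOp W X X δ, ∃ x ∈ V, ∃ y ∈ V, W.tr X (x * θ (S.σ X y)) ≠ 0

end Pool.Agent.H281R3.HT
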