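import Pool.Agent.H281R3.HT.EBlk
import Pool.Agent.H914R2.PDefs

/-!
# The conjecture D for products, from a commutative commutant
-/

open CategoryTheory AlgebraicGeometry

universe u v w

namespace Pool.Agent.H281R3.HT

open Pool.Agent.H914 Pool.Agent.H914.VarClass Pool.Agent.H914.VarClass.Obj
  Pool.Agent.H914.WeilCohomology

variable {k : Type u} [Field k] {𝒱 : VarClass k} {ops : CycleOps 𝒱}
  {W : WeilCohomology.{u, v} ops} {X X' Y Z : 𝒱.Obj}

/-- The conjugate of a stable subspace is stable. -/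
lemma conj_stable {S : SemiLin W} (hS : PushCompatible S) {V : Submodule W.K (W.H X)} {δ : ℤ}
    (hV : ∀ ψ ∈ KOp W X X δ, ∀ v ∈ V, ψ v ∈ V) {ψ : Module.End W.K (W.H X)}
    (hψ : ψ ∈ KOp W X X δ) {u : W.H X} (hu : u ∈ Submodule.span W.K (S.σ X '' V)) :
    ψ u ∈ Submodule.span W.K (S.σ X '' V) := by
  induction hψ using Submodule.span_induction with
  | mem ψ hψ =>
    obtain ⟨p, hp, z, hz, rfl⟩ := hψ
    induction hu using Submodule.span_induction with
    | mem u hu =>
      obtain ⟨v, hv, rfl⟩ := hu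
      have h1 : W.corr (W.cl _ z) (S.σ X v) = S.σ X (W.corr (W.cl _ z) v) := by
        rw [corr_apply, corr_apply, hS, S.mul, S.cl, S.map]
      rw [h1]
      exact Submodule.subset_span ⟨_, hV _ (KOp.gen hp hz) v hv, rfl⟩
    | zero => rw [map_zero]; exact Submodule.zero_mem _
    | add x y _ _ hx hy => rw [map_add]; exact Submodule.add_mem _ hx hy
    | smul a x _ hx => rw [map_smul]; exact Submodule.smul_mem _ _ hx
  | zero => exact Submodule.zero_mem _
  | add φ ψ _ _ h1 h2 => exact Submodule.add_mem _ h1 h2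
  | smul a φ _ h1 => exact Submodule.smul_mem _ _ h1

/-- The conjugate of an algebraic operator. -/
lemma exists_twist {S : SemiLin W} (hS : PushCompatible S) {δ : ℤ}
    {ψ : Module.End W.K (W.H X)} (hψ : ψ ∈ KOp W X X δ) :
    ∃ ψ' ∈ KOp W X X δ, ∀ w, ψ' (S.σ X w) = S.σ X (ψ w) := by
  induction hψ using Submodule.span_induction with
  | mem ψ hψ =>
    obtain ⟨p, hp, z, hz, rfl⟩ := hψ
    refine ⟨W.corr (W.cl _ z), KOp.gen hp hz, fun w => ?_⟩
    rw [corr_apply, corr_apply, hS, S.mul, S.cl, S.map]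
  | zero => exact ⟨0, Submodule.zero_mem _, fun w => by
      rw [LinearMap.zero_apply, LinearMap.zero_apply, map_zero]⟩
  | add φ ψ _ _ h1 h2 =>
    obtain ⟨φ', hφ', h1⟩ := h1
    obtain ⟨ψ', hψ', h2⟩ := h2
    exact ⟨φ' + ψ', Submodule.add_mem _ hφ' hψ', fun w => by
      rw [LinearMap.add_apply, LinearMap.add_apply, map_add, h1, h2]⟩
  | smul a φ _ h1 =>
    obtain ⟨φ', hφ', h1⟩ := h1
    exact ⟨S.τ a • φ', Submodule.smul_mem _ _ hφ', fun w => by
      rw [LinearMap.smul_apply, LinearMap.smul_apply, S.smul, h1]⟩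

/-- The algebra of algebraic correspondences. -/
def kAlg (W : WeilCohomology.{u, v} ops) (X : 𝒱.Obj) :
    Subalgebra W.K (Module.End W.K (W.H X)) where
  carrier := KOp W X X 0
  mul_mem' := fun h1 h2 => KOp.cast (KOp.comp h1 h2) (add_zero 0)
  add_mem' := fun h1 h2 => Submodule.add_mem _ h1 h2
  algebraMap_mem' := fun c => by
    have h1 : algebraMap W.K (Module.End W.K (W.H X)) c = c • LinearMap.id := by
      ext; rfl
    rw [h1]
    exact Submodule.smul_mem _ _ (KOp.id X)

lemma mem_kAlg {φ : Module.End W.K (W.H X)} : φ ∈ kAlg W X ↔ φ ∈ KOp W X X 0 := Iff.rfl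

/-- A subspace of the transcendental cohomology which is stable under all algebraic
correspondences is complemented by the orthogonal complement of its conjugate. -/
lemma exists_compl {S : SemiLin W} (hS : PushCompatible S) (hH : PairsConjK S X)
    {N : Submodule W.K (W.H X)} (hNT : N ≤ transcendental W X)
    (hN : ∀ δ, ∀ ψ ∈ KOp W X X δ, ∀ v ∈ N, ψ v ∈ N) :
    ∀ t ∈ transcendental W X, ∃ m ∈ N, ∃ r ∈ transcendental W X, t = m + r ∧
      ∀ y ∈ N, bil W X r (S.σ X y) = 0 := by
  classical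
  set T := transcendental W X with hT
  set U := Submodule.span W.K (S.σ X '' N) with hU
  set N' : Submodule W.K (W.H X) :=
    { carrier := {x | x ∈ T ∧ ∀ u ∈ U, bil W X x u = 0}
      add_mem' := fun {x y} hx hy => ⟨T.add_mem hx.1 hy.1, fun u hu => by
        rw [map_add, LinearMap.add_apply, hx.2 u hu, hy.2 u hu, add_zero]⟩
      zero_mem' := ⟨T.zero_mem, fun u _ => by rw [map_zero, LinearMap.zero_apply]⟩
      smul_mem' := fun c x hx => ⟨T.smul_mem c hx.1, fun u hu => by
        rw [map_smul, LinearMap.smul_apply, hx.2 u hu, smul_zero]⟩ } with hN'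
  have hN'm : ∀ x, x ∈ N' ↔ x ∈ T ∧ ∀ u ∈ U, bil W X x u = 0 := fun x => Iff.rfl
  have hN's : ∀ ψ ∈ KOp W X X 0, ∀ v ∈ N', ψ v ∈ N' := by
    intro ψ hψ v hv
    obtain ⟨ψ', hψ', h1, -⟩ := exists_adj hψ
    refine ⟨KOp.trans hψ hv.1, fun u hu => ?_⟩
    rw [h1]
    exact hv.2 _ (conj_stable hS (hN 0) hψ' hu)
  have hinf : N ⊓ N' = ⊥ := by
    by_contra hne
    obtain ⟨δ, θ, hθ, x, hx, y, hy, hxy⟩ := hH (N ⊓ N') (inf_le_left.trans hNT) hne
      (fun ψ hψ v hv => ⟨hN 0 ψ hψ v hv.1, hN's ψ hψ v hv.2⟩)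
    exact hxy (hx.2.2 _ (conj_stable hS (hN δ) hθ (Submodule.subset_span ⟨y, hy.1, rfl⟩)))
  -- dimensions
  have hUN : Module.finrank W.K U ≤ Module.finrank W.K N := by
    set b := Module.finBasis W.K N with hb
    have h1 : U ≤ Submodule.span W.K (Set.range fun i => S.σ X (b i : W.H X)) := by
      rw [hU, Submodule.span_le]
      rintro _ ⟨y, hy, rfl⟩
      have h2 : y = ∑ i, b.repr ⟨y, hy⟩ i • (b i : W.H X) := by
        have h3 := congrArg (fun z : N => (z : W.H X)) (b.sum_repr ⟨y, hy⟩)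
        change ((∑ i, b.repr ⟨y, hy⟩ i • b i : N) : W.H X) = y at h3
        refine h3.symm.trans ?_
        rw [Submodule.coe_sum]
        rfl
      rw [SetLike.mem_coe, h2, map_sum]
      refine Submodule.sum_mem _ (fun i _ => ?_)
      rw [S.smul]
      exact Submodule.smul_mem _ _ (Submodule.subset_span ⟨i, rfl⟩)
    refine (Submodule.finrank_mono h1).trans ?_
    refine (finrank_range_le_card (R := W.K) (fun i => S.σ X (b i : W.H X))).trans ?_
    rw [Fintype.card_fin]
  have hN'T : Module.finrank W.K T ≤ Module.finrank W.K U + Module.finrank W.K N' := by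
    set F : T →ₗ[W.K] Module.Dual W.K U :=
      ((bil W X).compl₁₂ T.subtype U.subtype) with hF
    have h1 := LinearMap.finrank_range_add_finrank_ker F
    have h2 : Module.finrank W.K (LinearMap.range F) ≤ Module.finrank W.K U := by
      refine (Submodule.finrank_le _).trans ?_
      rw [Subspace.dual_finrank_eq]
    have h3 : Module.finrank W.K (LinearMap.ker F) ≤ Module.finrank W.K N' := by
      have h4 : (LinearMap.ker F).map T.subtype ≤ N' := by
        rintro _ ⟨x, hx, rfl⟩
        refine ⟨x.2, fun u hu => ?_⟩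
        have h5 := congrArg (fun f => f ⟨u, hu⟩) (LinearMap.mem_ker.1 hx)
        exact h5
      have h6 := Submodule.finrank_mono h4
      rw [Submodule.finrank_map_subtype_eq] at h6
      exact h6
    omega
  have h1 := Submodule.finrank_sup_add_finrank_inf_eq N N'
  rw [hinf, finrank_bot, add_zero] at h1
  have h2 : N ⊔ N' ≤ T := sup_le hNT (fun x hx => hx.1)
  have h3 : N ⊔ N' = T := Submodule.eq_of_le_of_finrank_le h2 (by omega)
  intro t ht
  rw [← h3] at ht
  obtain ⟨m, hm, r, hr, rfl⟩ := Submodule.mem_sup.1 ht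
  exact ⟨m, hm, r, hr.1, rfl, fun y hy => hr.2 _ (Submodule.subset_span ⟨y, hy, rfl⟩)⟩

lemma bil_proj {l : ℕ} {u : W.H X} (hu : u ∈ W.gr X l) (x : W.H X) (i : ℕ) :
    bil W X (proj (W.isInternal X) i x) u = if i + l = 2 * X.dim then bil W X x u else 0 := by
  refine gr_induction (p := fun x => bil W X (proj (W.isInternal X) i x) u =
    if i + l = 2 * X.dim then bil W X x u else 0) ?_ ?_ ?_ x
  · rw [map_zero, map_zero, LinearMap.zero_apply, ite_self]
  · intro x y hx hy
    rw [map_add, map_add, LinearMap.add_apply, hx, hy]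
    split_ifs
    · rw [map_add, LinearMap.add_apply]
    · rw [add_zero]
  · intro j a ha
    by_cases hij : j = i
    · subst hij
      rw [proj_same _ ha]
      split_ifs with h
      · rfl
      · exact bil_eq_zero ha hu h
    · rw [proj_ne _ ha hij, map_zero, LinearMap.zero_apply]
      split_ifs with h
      · rw [bil_eq_zero ha hu (by omega)]
      · rfl

/-- Homogeneous subspaces of the transcendental cohomology stable under the correspondences of
degree `0` have stable complements. -/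
lemma exists_compl_gr {S : SemiLin W} (hS : PushCompatible S) (hH : PairsConjK S X)
    {i : ℕ} {N : Submodule W.K (W.H X)} (hNT : N ≤ transcendental W X ⊓ W.gr X i)
    (hN : ∀ ψ ∈ KOp W X X 0, ∀ v ∈ N, ψ v ∈ N) :
    ∃ N' ≤ transcendental W X ⊓ W.gr X i, (∀ ψ ∈ KOp W X X 0, ∀ v ∈ N', ψ v ∈ N') ∧
      N ⊓ N' = ⊥ ∧ transcendental W X ⊓ W.gr X i ≤ N ⊔ N' := by
  classical
  set T := transcendental W X with hT
  set M := Submodule.span W.K {w | ∃ δ, ∃ θ ∈ KOp W X X δ, ∃ y ∈ N, θ y = w} with hM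
  have hMT : M ≤ T := by
    rw [hM, Submodule.span_le]
    rintro _ ⟨δ, θ, hθ, y, hy, rfl⟩
    exact KOp.trans hθ (hNT hy).1
  have hMs : ∀ δ, ∀ ψ ∈ KOp W X X δ, ∀ v ∈ M, ψ v ∈ M := by
    intro δ ψ hψ v hv
    induction hv using Submodule.span_induction with
    | mem v hv =>
      obtain ⟨δ', θ, hθ, y, hy, rfl⟩ := hv
      exact Submodule.subset_span ⟨_, _, KOp.comp hψ hθ, y, hy, rfl⟩
    | zero => rw [map_zero]; exact Submodule.zero_mem _
    | add x y _ _ hx hy => rw [map_add]; exact Submodule.add_mem _ hx hy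
    | smul a x _ hx => rw [map_smul]; exact Submodule.smul_mem _ _ hx
  have hdegθ : ∀ (δ : ℤ), ∀ θ ∈ KOp W X X δ, ∀ y ∈ N, θ y = 0 ∨
      ∃ l : ℕ, (l : ℤ) = i + 2 * δ ∧ θ y ∈ W.gr X l := by
    intro δ θ hθ y hy
    have h1 := KOp.isHom hθ (i : ℤ) y (by rw [grZ_natCast]; exact (hNT hy).2)
    by_cases hneg : (i : ℤ) + 2 * δ < 0
    · rw [grZ_of_neg hneg, Submodule.mem_bot] at h1
      exact Or.inl h1
    · obtain ⟨l, hl⟩ := Int.eq_ofNat_of_zero_le (show 0 ≤ (i : ℤ) + 2 * δ by omega)
      rw [hl, grZ_natCast] at h1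
      exact Or.inr ⟨l, hl.symm, h1⟩
  have hMi : ∀ m ∈ M, proj (W.isInternal X) i m ∈ N := by
    intro m hm
    induction hm using Submodule.span_induction with
    | mem v hv =>
      obtain ⟨δ, θ, hθ, y, hy, rfl⟩ := hv
      rcases hdegθ δ θ hθ y hy with h | ⟨l, hl, h⟩
      · rw [h, map_zero]; exact Submodule.zero_mem _
      · by_cases hδ : δ = 0
        · subst hδ
          obtain rfl : l = i := by omega
          rw [proj_same _ h]
          exact hN θ hθ y hy
        · rw [proj_ne _ h (by omega)]; exact Submodule.zero_mem _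
    | zero => rw [map_zero]; exact Submodule.zero_mem _
    | add x y _ _ hx hy => rw [map_add]; exact Submodule.add_mem _ hx hy
    | smul a x _ hx => rw [map_smul]; exact Submodule.smul_mem _ _ hx
  have hNM : N ≤ M := fun y hy => Submodule.subset_span ⟨0, LinearMap.id, KOp.id X, y, hy, rfl⟩
  have hdec := exists_compl hS hH hMT hMs
  set N' : Submodule W.K (W.H X) :=
    { carrier := {x | x ∈ T ⊓ W.gr X i ∧ ∀ y ∈ M, bil W X x (S.σ X y) = 0}
      add_mem' := fun {x y} hx hy => ⟨Submodule.add_mem _ hx.1 hy.1, fun u hu => by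
        rw [map_add, LinearMap.add_apply, hx.2 u hu, hy.2 u hu, add_zero]⟩
      zero_mem' := ⟨Submodule.zero_mem _, fun u _ => by rw [map_zero, LinearMap.zero_apply]⟩
      smul_mem' := fun c x hx => ⟨Submodule.smul_mem _ c hx.1, fun u hu => by
        rw [map_smul, LinearMap.smul_apply, hx.2 u hu, smul_zero]⟩ } with hN'
  have hN's : ∀ ψ ∈ KOp W X X 0, ∀ v ∈ N', ψ v ∈ N' := by
    intro ψ hψ v hv
    obtain ⟨ψ', hψ', h1, -⟩ := exists_adj hψ
    refine ⟨⟨KOp.trans hψ hv.1.1, hom0 hψ hv.1.2⟩, fun y hy => ?_⟩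
    rw [h1]
    have h2 := conj_stable hS (hMs 0) hψ' (Submodule.subset_span ⟨y, hy, rfl⟩ :
      S.σ X y ∈ Submodule.span W.K (S.σ X '' M))
    revert h2
    generalize ψ' (S.σ X y) = w
    intro h2
    induction h2 using Submodule.span_induction with
    | mem w hw =>
      obtain ⟨y', hy', rfl⟩ := hw
      exact hv.2 y' hy'
    | zero => rw [map_zero]
    | add x y _ _ hx hy => rw [map_add, hx, hy, add_zero]
    | smul r x _ hx => rw [map_smul, hx, smul_zero]
  refine ⟨N', fun x hx => hx.1, hN's, ?_, ?_⟩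
  · by_contra hne
    obtain ⟨δ, θ, hθ, x, hx, y, hy, hxy⟩ := hH (N ⊓ N')
      (inf_le_left.trans (hNT.trans inf_le_left)) hne
      (fun ψ hψ v hv => ⟨hN ψ hψ v hv.1, hN's ψ hψ v hv.2⟩)
    apply hxy
    have h2 := conj_stable hS (hMs δ) hθ (Submodule.subset_span ⟨y, hNM hy.1, rfl⟩ :
      S.σ X y ∈ Submodule.span W.K (S.σ X '' M))
    rw [← bil_apply]
    revert h2
    generalize θ (S.σ X y) = w
    intro h2
    induction h2 using Submodule.span_induction with
    | mem w hw =>
      obtain ⟨y', hy', rfl⟩ := hw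
      exact hx.2.2 y' hy'
    | zero => rw [map_zero]
    | add x y _ _ hx hy => rw [map_add, hx, hy, add_zero]
    | smul r x _ hx => rw [map_smul, hx, smul_zero]
  · intro t ht
    obtain ⟨m, hm, r, hr, htm, hr0⟩ := hdec t ht.1
    have h1 : t = proj (W.isInternal X) i m + proj (W.isInternal X) i r := by
      rw [← map_add, ← htm, proj_same _ ht.2]
    rw [h1]
    refine Submodule.add_mem_sup (hMi m hm) ⟨⟨proj_trans hr i, proj_mem _ i r⟩, fun y hy => ?_⟩
    induction hy using Submodule.span_induction with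
    | mem y hy =>
      have hyM : y ∈ M := Submodule.subset_span hy
      obtain ⟨δ, θ, hθ, v, hv, rfl⟩ := hy
      rcases hdegθ δ θ hθ v hv with h | ⟨l, hl, h⟩
      · rw [h, map_zero, map_zero]
      · rw [bil_proj (S.gr h), hr0 _ hyM, ite_self]
    | zero => rw [map_zero, map_zero]
    | add x y _ _ hx hy => rw [map_add, map_add, hx, hy, add_zero]
    | smul a x _ hx => rw [S.smul, map_smul, hx, smul_zero]

lemma proj_hom0 {ψ : Module.End W.K (W.H X)} (hψ : ψ ∈ KOp W X X 0) (i : ℕ) (t : W.H X) :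
    proj (W.isInternal X) i (ψ t) = ψ (proj (W.isInternal X) i t) := by
  refine gr_induction (p := fun t => proj (W.isInternal X) i (ψ t) =
    ψ (proj (W.isInternal X) i t)) ?_ ?_ ?_ t
  · rw [map_zero, map_zero, map_zero]
  · intro x y hx hy
    rw [map_add, map_add, map_add, map_add, hx, hy]
  · intro j a ha
    by_cases hij : j = i
    · subst hij
      rw [proj_same _ ha, proj_same _ (hom0 hψ ha)]
    · rw [proj_ne _ ha hij, proj_ne _ (hom0 hψ ha) hij, map_zero]

/-- A class of top degree and trace zero is zero. -/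
lemma top_eq_zero {w : W.H X} (hw : w ∈ W.gr X (2 * X.dim)) (h : W.tr X w = 0) : w = 0 := by
  apply W.nondeg
  intro b
  refine gr_induction (p := fun b => W.tr X (w * b) = 0) ?_ ?_ ?_ b
  · rw [mul_zero, map_zero]
  · intro x y hx hy
    rw [mul_add, map_add, hx, hy, add_zero]
  · intro i a ha
    by_cases hi : i = 0
    · subst hi
      rw [W.gr_zero, Submodule.mem_span_singleton] at ha
      obtain ⟨c, rfl⟩ := ha
      rw [mul_smul_comm, mul_one, map_smul, h, smul_zero]
    · exact W.tr_eq_zero (W.mul_mem hw ha) (by omega)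

/-- Semilinear automorphisms preserve the kernel of the trace. -/
lemma tr_conj_eq_zero (S : SemiLin W) {w : W.H X} (h : W.tr X w = 0) :
    W.tr X (S.σ X w) = 0 := by
  obtain ⟨w1, h1, w2, rfl, h2, h3⟩ := gr_induction (W := W) (X := X)
    (p := fun w => ∃ w1 ∈ W.gr X (2 * X.dim), ∃ w2, w = w1 + w2 ∧ W.tr X w2 = 0 ∧
      W.tr X (S.σ X w2) = 0)
    ⟨0, Submodule.zero_mem _, 0, by rw [add_zero], map_zero _, by rw [map_zero, map_zero]⟩
    (by
      rintro _ _ ⟨a1, ha1, a2, rfl, ha2, ha3⟩ ⟨b1, hb1, b2, rfl, hb2, hb3⟩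
      refine ⟨a1 + b1, Submodule.add_mem _ ha1 hb1, a2 + b2, by abel, ?_, ?_⟩
      · rw [map_add, ha2, hb2, add_zero]
      · rw [map_add, map_add, ha3, hb3, add_zero])
    (by
      intro i a ha
      by_cases hi : i = 2 * X.dim
      · subst hi
        exact ⟨a, ha, 0, by rw [add_zero], map_zero _, by rw [map_zero, map_zero]⟩
      · exact ⟨0, Submodule.zero_mem _, a, by rw [zero_add], W.tr_eq_zero ha hi,
          W.tr_eq_zero (S.gr ha) hi⟩) w
  rw [map_add, h2, add_zero] at h
  rw [top_eq_zero h1 h, zero_add, h3]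

/-- **Blocks from a commutative commutant.** -/
theorem hasBlocks_of_corr [IsAlgClosed W.K] {S : SemiLin W} (hS : PushCompatible S)
    (hDX : HomEqNum W X) (hC : CommCommK W X) (hH : PairsConjK S X) :
    HasBlocks S X := by
  classical
  have hsplit := split_of_D hDX
  set T := transcendental W X with hT
  have hgr : ∀ j, Submodule.span W.K (algClasses W X j) ≤ W.gr X (2 * j) :=
    fun j => Submodule.span_le.2 (fun c hc => alg_gr hc)
  -- orthogonality
  have hTa : ∀ t ∈ T, ∀ j, ∀ a ∈ Submodule.span W.K (algClasses W X j), bil W X t a = 0 := by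
    intro t ht j a ha
    induction ha using Submodule.span_induction with
    | mem c hc => exact mem_trans.1 ht j c hc
    | zero => rw [map_zero]
    | add x y _ _ hx hy => rw [map_add, hx, hy, add_zero]
    | smul r x _ hx => rw [map_smul, hx, smul_zero]
  have haT : ∀ t ∈ T, ∀ j, ∀ a ∈ Submodule.span W.K (algClasses W X j), bil W X a t = 0 := by
    intro t ht j a ha
    have h1 := hTa t ht j a ha
    rw [bil_apply] at h1 ⊢
    rw [W.even_comm (hgr j ha)]
    exact h1
  have hTa' : ∀ t ∈ T, ∀ a ∈ Submodule.span W.K {c | ∃ j, c ∈ algClasses W X j},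
      bil W X t a = 0 := by
    intro t ht a ha
    induction ha using Submodule.span_induction with
    | mem c hc =>
      obtain ⟨j, hj⟩ := hc
      exact mem_trans.1 ht j c hj
    | zero => rw [map_zero]
    | add x y _ _ hx hy => rw [map_add, hx, hy, add_zero]
    | smul r x _ hx => rw [map_smul, hx, smul_zero]
  have haT' : ∀ t ∈ T, ∀ a ∈ Submodule.span W.K {c | ∃ j, c ∈ algClasses W X j},
      bil W X a t = 0 := by
    intro t ht a ha
    induction ha using Submodule.span_induction with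
    | mem c hc =>
      obtain ⟨j, hj⟩ := hc
      exact haT t ht j c (Submodule.subset_span hj)
    | zero => rw [map_zero, LinearMap.zero_apply]
    | add x y _ _ hx hy => rw [map_add, LinearMap.add_apply, hx, hy, add_zero]
    | smul r x _ hx => rw [map_smul, LinearMap.smul_apply, hx, smul_zero]
  -- non-degeneracy on the transcendental part
  have hndl : ∀ t ∈ T, (∀ s ∈ T, bil W X t s = 0) → t = 0 := by
    intro t ht h0
    apply W.nondeg
    intro z
    obtain ⟨b, hb, hzb⟩ := hsplit z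
    have h1 := h0 _ hzb
    rw [map_sub, hTa' t ht b hb, sub_zero] at h1
    exact h1
  have hndr : ∀ t ∈ T, (∀ s ∈ T, bil W X s t = 0) → t = 0 := by
    intro t ht h0
    apply nondeg_right
    intro z
    obtain ⟨b, hb, hzb⟩ := hsplit z
    have h1 := h0 _ hzb
    rw [map_sub, LinearMap.sub_apply, haT' t ht b hb, sub_zero] at h1
    exact h1
  -- the blocks of the transcendental part
  obtain ⟨n, V, p, hVT, hVne, hpV, hpv, hp0, hpsum, hVA, hdens⟩ :=
    exists_simple_blocks (kAlg W X) T (fun a ha t ht => KOp.trans ha ht)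
      (fun i : ℕ => T ⊓ W.gr X i) (fun i => inf_le_left)
      (by
        intro t ht
        have h4 := sum_proj (W.isInternal X) (N := 2 * X.dim + 1)
          (fun i hi => W.gr_eq_bot X i (by omega))
        have h5 := congrArg (fun F => F t) h4
        beta_reduce at h5
        rw [LinearMap.sum_apply, Module.End.one_apply] at h5
        rw [← h5]
        exact Submodule.sum_mem _ (fun i _ => Submodule.mem_iSup_of_mem i
          ⟨proj_trans ht i, proj_mem _ i t⟩))
      (fun i a ha x hx => ⟨KOp.trans ha hx.1, hom0 ha hx.2⟩)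
      (fun i N hN hNs => exists_compl_gr hS hH hN hNs)
      (fun φ ψ h1 h2 h3 h4 => hC φ ψ ⟨h1, fun a ha t ht => h2 a ha t ht⟩
        ⟨h3, fun a ha t ht => h4 a ha t ht⟩)
  have hVA' : ∀ i, ∀ a ∈ KOp W X X 0, ∀ v ∈ V i, a v ∈ V i := fun i a ha v hv => hVA i a ha v hv
  -- the projections are algebraic on `T`
  have hpalg : ∀ i, ∃ a ∈ KOp W X X 0, ∀ t ∈ T, a t = p i t := by
    intro i
    apply hdens (p i)
    intro j v hv
    by_cases hij : i = j
    · subst hij; rw [hpv i v hv]; exact hv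
    · rw [hp0 i j hij v hv]; exact Submodule.zero_mem _
  -- transitivity
  have htrans : ∀ i, ∀ v₀ ∈ V i, v₀ ≠ 0 → ∀ v ∈ V i, ∃ a ∈ KOp W X X 0, a v₀ = v ∧
      ∀ t ∈ T, ∃ c : W.K, a t = c • v := by
    intro i v₀ hv₀ hne v hv
    obtain ⟨f, hf⟩ := Module.Projective.exists_dual_eq_one W.K hne
    obtain ⟨a, ha, h⟩ := hdens ((f ∘ₗ p i).smulRight v) (by
      intro j w hw
      rw [LinearMap.smulRight_apply, LinearMap.comp_apply]
      by_cases hij : i = j
      · subst hij; exact Submodule.smul_mem _ _ hv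
      · rw [hp0 i j hij w hw, map_zero, zero_smul]; exact Submodule.zero_mem _)
    refine ⟨a, ha, ?_, fun t ht => ⟨f (p i t), ?_⟩⟩
    · rw [h _ (hVT i hv₀), LinearMap.smulRight_apply, LinearMap.comp_apply, hpv i _ hv₀, hf,
        one_smul]
    · rw [h t ht]; rfl
  -- the dual blocks
  set V' : Fin n → Submodule W.K (W.H X) := fun i =>
    { carrier := {y | y ∈ T ∧ ∀ j, j ≠ i → ∀ x ∈ V j, bil W X y x = 0}
      add_mem' := fun {x y} hx hy => ⟨T.add_mem hx.1 hy.1, fun j hj u hu => by
        rw [map_add, LinearMap.add_apply, hx.2 j hj u hu, hy.2 j hj u hu, add_zero]⟩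
      zero_mem' := ⟨T.zero_mem, fun j _ u _ => by rw [map_zero, LinearMap.zero_apply]⟩
      smul_mem' := fun c x hx => ⟨T.smul_mem c hx.1, fun j hj u hu => by
        rw [map_smul, LinearMap.smul_apply, hx.2 j hj u hu, smul_zero]⟩ } with hV'
  have hV'm : ∀ i y, y ∈ V' i ↔ y ∈ T ∧ ∀ j, j ≠ i → ∀ x ∈ V j, bil W X y x = 0 :=
    fun i y => Iff.rfl
  have hV'A : ∀ i, ∀ a ∈ KOp W X X 0, ∀ y ∈ V' i, a y ∈ V' i := by
    intro i a ha y hy
    obtain ⟨a', ha', h1, -⟩ := exists_adj ha
    refine ⟨KOp.trans ha hy.1, fun j hj x hx => ?_⟩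
    rw [h1]
    exact hy.2 j hj _ (hVA' j a' ha' x hx)
  have hsw : ∀ i, ∃ F : Module.End W.K (W.H X), (∀ t ∈ T, F t ∈ V' i) ∧
      ∀ t ∈ T, ∀ x ∈ T, bil W X (F t) x = bil W X t (p i x) := by
    intro i
    obtain ⟨a, ha, h⟩ := hpalg i
    obtain ⟨a', ha', -, h2⟩ := exists_adj ha
    refine ⟨a', fun t ht => ⟨KOp.trans ha' ht, fun j hj x hx => ?_⟩, fun t ht x hx => ?_⟩
    · rw [← h2, h x (hVT j hx), hp0 i j (Ne.symm hj) x hx, map_zero]
    · rw [← h2, h x hx]
  have hnd : ∀ i, ∀ x ∈ V i, (∀ y ∈ V' i, bil W X y x = 0) → x = 0 := by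
    intro i x hx h0
    apply hndr x (hVT i hx)
    intro s hs
    obtain ⟨F, hF1, hF2⟩ := hsw i
    rw [← hpv i x hx, ← hF2 s hs x (hVT i hx)]
    exact h0 _ (hF1 s hs)
  have hnd' : ∀ i, ∀ y ∈ V' i, (∀ x ∈ V i, bil W X y x = 0) → y = 0 := by
    intro i y hy h0
    apply hndl y hy.1
    intro s hs
    rw [← hpsum s hs, map_sum]
    apply Finset.sum_eq_zero
    intro j _
    by_cases hij : j = i
    · subst hij; exact h0 _ (hpV j s hs)
    · exact hy.2 j hij _ (hpV j s hs)
  -- degrees of the blocks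
  have hscal : ∀ φ : Module.End W.K (W.H X), Commuting W X φ → ∀ i, ∃ c : W.K, ∀ v ∈ V i,
      φ v = c • v := by
    intro φ hφ i
    obtain ⟨v₀, hv₀, hne⟩ := Submodule.exists_mem_ne_zero_of_ne_bot (hVne i)
    -- `φ` preserves `V i`
    have hφV : ∀ v ∈ V i, φ v ∈ V i := by
      intro v hv
      obtain ⟨a, ha, h⟩ := hpalg i
      have h1 : a v = v := by rw [h v (hVT i hv), hpv i v hv]
      rw [← h1, hφ.2 a ha v (hVT i hv), h _ (hφ.1 v (hVT i hv))]
      exact hpV i _ (hφ.1 v (hVT i hv))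
    by_cases hz : ∃ c : W.K, φ v₀ = c • v₀
    · obtain ⟨c, hc⟩ := hz
      refine ⟨c, fun v hv => ?_⟩
      obtain ⟨a, ha, h1, -⟩ := htrans i v₀ hv₀ hne v hv
      rw [← h1, hφ.2 a ha v₀ (hVT i hv₀), hc, map_smul]
    · exfalso
      -- the operator of rank one onto `v₀` fixing `v₀`
      obtain ⟨a, ha, h1, h2⟩ := htrans i v₀ hv₀ hne v₀ hv₀
      apply hz
      obtain ⟨c, hc⟩ := h2 (φ v₀) (hVT i (hφV v₀ hv₀))
      refine ⟨c, ?_⟩
      rw [← hc, ← hφ.2 a ha v₀ (hVT i hv₀), h1]
  have hdegV : ∀ a, ∃ d, V a ≤ W.gr X d := by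
    intro a
    obtain ⟨x, hx, hx0⟩ := Submodule.exists_mem_ne_zero_of_ne_bot (hVne a)
    have h1 : ∀ i, ∃ c : W.K, ∀ t ∈ V a, proj (W.isInternal X) i t = c • t :=
      fun i => hscal (proj (W.isInternal X) i) ⟨fun t ht => proj_trans ht i,
        fun ψ hψ t _ => proj_hom0 hψ i t⟩ a
    choose c hc using h1
    obtain ⟨i, hi⟩ : ∃ i, c i ≠ 0 := by
      by_contra hcon
      push Not at hcon
      apply hx0
      have h4 := sum_proj (W.isInternal X) (N := 2 * X.dim + 1)
        (fun i hi => W.gr_eq_bot X i (by omega))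
      have h5 := congrArg (fun F => F x) h4
      beta_reduce at h5
      rw [LinearMap.sum_apply, Module.End.one_apply] at h5
      rw [← h5]
      apply Finset.sum_eq_zero
      intro i _
      rw [hc i x hx, hcon i, zero_smul]
    refine ⟨i, fun s hs => ?_⟩
    have h4 : s = (c i)⁻¹ • proj (W.isInternal X) i s := by
      rw [hc i s hs, smul_smul, inv_mul_cancel₀ hi, one_smul]
    rw [h4]
    exact Submodule.smul_mem _ _ (proj_mem _ i s)
  choose dV hdV using hdegV
  -- conjugation
  have hσT : ∀ y ∈ T, S.σ X y ∈ T := by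
    intro y hy
    rw [mem_trans]
    intro l c hc
    obtain ⟨z, hz, rfl⟩ := hc
    have h1 := mem_trans.1 hy l _ ⟨z, hz, rfl⟩
    rw [bil_apply] at h1 ⊢
    rw [← S.cl z, ← S.mul]
    exact tr_conj_eq_zero S h1
  have hV'ne : ∀ j, ∃ y ∈ V' j, y ≠ 0 := by
    intro j
    obtain ⟨x, hx, hx0⟩ := Submodule.exists_mem_ne_zero_of_ne_bot (hVne j)
    by_contra hcon
    push Not at hcon
    exact hx0 (hnd j x hx (fun y hy => by rw [hcon y hy, map_zero, LinearMap.zero_apply]))
  -- the operators of rank one on a block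
  have hrk0 : ∀ j, ∀ x ∈ V j, ∀ y ∈ V' j, ∃ a ∈ KOp W X X 0, ∀ t ∈ T, a t = bil W X y t • x := by
    intro j x hx y hy
    obtain ⟨a, ha, h⟩ := hdens ((bil W X y).smulRight x) (by
      intro i v hv
      rw [LinearMap.smulRight_apply]
      by_cases hij : i = j
      · subst hij; exact Submodule.smul_mem _ _ hx
      · rw [hy.2 i hij v hv, zero_smul]; exact Submodule.zero_mem _)
    exact ⟨a, ha, fun t ht => by rw [h t ht, LinearMap.smulRight_apply]⟩
  have hperm : ∀ j, ∃ i, ∀ v ∈ V j, S.σ X v ∈ V i := by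
    intro j
    obtain ⟨v₀, hv₀, hne⟩ := Submodule.exists_mem_ne_zero_of_ne_bot (hVne j)
    have hσ0 : S.σ X v₀ ≠ 0 := fun h => hne (S.inj _ h)
    obtain ⟨a, ha, ha1, ha2⟩ := htrans j v₀ hv₀ hne v₀ hv₀
    obtain ⟨a', ha', haσ⟩ := exists_twist hS ha
    have hrange : ∀ u ∈ Submodule.span W.K (S.σ X '' V j), ∃ c : W.K, a' u = c • S.σ X v₀ := by
      intro u hu
      induction hu using Submodule.span_induction with
      | mem u hu =>
        obtain ⟨v, hv, rfl⟩ := hu
        obtain ⟨c, hc⟩ := ha2 v (hVT j hv)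
        exact ⟨S.τ c, by rw [haσ, hc, S.smul]⟩
      | zero => exact ⟨0, by rw [map_zero, zero_smul]⟩
      | add x y _ _ hx hy =>
        obtain ⟨c, hc⟩ := hx
        obtain ⟨d, hd⟩ := hy
        exact ⟨c + d, by rw [map_add, hc, hd, add_smul]⟩
      | smul r x _ hx =>
        obtain ⟨c, hc⟩ := hx
        exact ⟨r * c, by rw [map_smul, hc, smul_smul]⟩
    have hpiece : ∀ i, p i (S.σ X v₀) ∈ Submodule.span W.K (S.σ X '' V j) := by
      intro i
      obtain ⟨b, hb, hb1⟩ := hpalg i
      rw [← hb1 _ (hσT _ (hVT j hv₀))]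
      exact conj_stable hS (hVA' j) hb (Submodule.subset_span ⟨v₀, hv₀, rfl⟩)
    have hsum : ∑ i, a' (p i (S.σ X v₀)) = S.σ X v₀ := by
      rw [← map_sum, hpsum _ (hσT _ (hVT j hv₀)), haσ, ha1]
    obtain ⟨i, hi⟩ : ∃ i, a' (p i (S.σ X v₀)) ≠ 0 := by
      by_contra hcon
      push Not at hcon
      apply hσ0
      rw [← hsum]
      exact Finset.sum_eq_zero (fun i _ => hcon i)
    obtain ⟨c, hc⟩ := hrange _ (hpiece i)
    have hc0 : c ≠ 0 := by
      intro h0
      apply hi
      rw [hc, h0, zero_smul]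
    have h1 : S.σ X v₀ ∈ V i := by
      have h2 : S.σ X v₀ = c⁻¹ • a' (p i (S.σ X v₀)) := by
        rw [hc, smul_smul, inv_mul_cancel₀ hc0, one_smul]
      rw [h2]
      exact Submodule.smul_mem _ _ (hVA' i a' ha' _ (hpV i _ (hσT _ (hVT j hv₀))))
    refine ⟨i, fun v hv => ?_⟩
    obtain ⟨b, hb, hb1, -⟩ := htrans j v₀ hv₀ hne v hv
    obtain ⟨b', hb', hbσ⟩ := exists_twist hS hb
    rw [← hb1, ← hbσ]
    exact hVA' i b' hb' _ h1
  choose πV hπV using hperm
  have hπinj : Function.Injective πV := by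
    intro j j2 hjj
    by_contra hne
    obtain ⟨v₀, hv₀, hv0⟩ := Submodule.exists_mem_ne_zero_of_ne_bot (hVne j)
    obtain ⟨w₀, hw₀, hw0⟩ := Submodule.exists_mem_ne_zero_of_ne_bot (hVne j2)
    obtain ⟨a, ha, ha1⟩ := hpalg j
    obtain ⟨a', ha', haσ⟩ := exists_twist hS ha
    have h1 : a' (S.σ X w₀) = 0 := by
      rw [haσ, ha1 _ (hVT j2 hw₀), hp0 j j2 hne w₀ hw₀, map_zero]
    have h2 : ∀ u ∈ Submodule.span W.K (S.σ X '' V j), a' u = u := by
      intro u hu
      induction hu using Submodule.span_induction with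
      | mem u hu =>
        obtain ⟨v, hv, rfl⟩ := hu
        rw [haσ, ha1 _ (hVT j hv), hpv j v hv]
      | zero => rw [map_zero]
      | add x y _ _ hx hy => rw [map_add, hx, hy]
      | smul r x _ hx => rw [map_smul, hx]
    obtain ⟨b, hb, hb1, -⟩ := htrans (πV j) (S.σ X v₀) (hπV j v₀ hv₀)
      (fun h => hv0 (S.inj _ h)) (S.σ X w₀) (by rw [hjj]; exact hπV j2 w₀ hw₀)
    have h3 : S.σ X w₀ ∈ Submodule.span W.K (S.σ X '' V j) := by
      rw [← hb1]
      exact conj_stable hS (hVA' j) hb (Submodule.subset_span ⟨v₀, hv₀, rfl⟩)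
    apply hw0
    apply S.inj
    rw [← h2 _ h3, h1]
  -- the projector to the transcendental part
  have hspan' : ∀ j ≤ X.dim, ∀ u ∈ Submodule.span W.K (algClasses W X (X.dim - j)),
      (∀ x ∈ Submodule.span W.K (algClasses W X j), bil W X u x = 0) → u = 0 := by
    intro j hj u hu h0
    apply span_nondeg hDX (show X.dim - j ≤ X.dim by omega) hu
    intro y hy
    rw [show X.dim - (X.dim - j) = j by omega] at hy
    have h1 := h0 y (Submodule.subset_span hy)
    rw [bil_apply] at h1 ⊢
    rw [alg_even_comm hy]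
    exact h1
  choose N c c' hc hc' hcc hu hu' using fun j : Fin (X.dim + 1) =>
    exists_dual_families (bil W X) (Submodule.span W.K (algClasses W X (X.dim - j)))
      (Submodule.span W.K (algClasses W X j))
      (hspan' j (by omega))
      (fun x hx h0 => span_nondeg hDX (by omega) hx
        (fun y hy => h0 y (Submodule.subset_span hy)))
  set eA : Module.End W.K (W.H X) := ∑ j : Fin (X.dim + 1), ∑ i,
    (bil W X (c j i)).smulRight (c' j i) with heA
  have heAop : eA ∈ KOp W X X 0 := by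
    rw [heA]
    refine Submodule.sum_mem _ (fun j _ => Submodule.sum_mem _ (fun i _ => ?_))
    exact rk_span (hc' j i) (hc j i) (by
      have := j.2
      omega)
  have heAa : ∀ z, eA z = ∑ j : Fin (X.dim + 1), ∑ i, bil W X (c j i) z • c' j i := by
    intro z
    rw [heA, LinearMap.sum_apply]
    apply Finset.sum_congr rfl
    intro j _
    rw [LinearMap.sum_apply]
    rfl
  have heAspan : ∀ z, eA z ∈ Submodule.span W.K {c | ∃ j, c ∈ algClasses W X j} := by
    intro z
    rw [heAa]
    refine Submodule.sum_mem _ (fun j _ => Submodule.sum_mem _ (fun i _ =>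
      Submodule.smul_mem _ _ ?_))
    have hmono : Submodule.span W.K (algClasses W X (j : ℕ)) ≤
        Submodule.span W.K {c | ∃ j, c ∈ algClasses W X j} :=
      Submodule.span_mono (fun c hc => ⟨(j : ℕ), hc⟩)
    exact hmono (hc' j i)
  have heAbil : ∀ j ≤ X.dim, ∀ b ∈ algClasses W X j, ∀ z, bil W X b (eA z) = bil W X b z := by
    intro j hj b hb z
    have h1 : b ∈ Submodule.span W.K (algClasses W X (X.dim - (X.dim - j))) := by
      rw [show X.dim - (X.dim - j) = j by omega]
      exact Submodule.subset_span hb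
    have hb2 := hu ⟨X.dim - j, by omega⟩ b h1
    rw [heAa, map_sum, Finset.sum_eq_single (⟨X.dim - j, by omega⟩ : Fin (X.dim + 1))]
    · conv_rhs => rw [hb2]
      rw [map_sum, map_sum, LinearMap.sum_apply]
      apply Finset.sum_congr rfl
      intro i _
      rw [map_smul, map_smul, LinearMap.smul_apply, smul_eq_mul, smul_eq_mul, mul_comm]
    · intro l _ hl
      rw [map_sum]
      apply Finset.sum_eq_zero
      intro i _
      rw [map_smul, bil_eq_zero (alg_gr hb) (hgr _ (hc' l i)), smul_zero]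
      intro h2
      apply hl
      apply Fin.ext
      change (l : ℕ) = X.dim - j
      omega
    · intro h0; exact absurd (Finset.mem_univ _) h0
  clear_value eA
  have hcompl : ∀ z, z - eA z ∈ T := by
    intro z
    rw [mem_trans]
    intro j b hb
    by_cases hj : j ≤ X.dim
    · rw [bil_apply, ← alg_even_comm hb, ← bil_apply, map_sub, heAbil j hj b hb, sub_self]
    · have h1 := alg_gr hb
      rw [W.gr_eq_bot X _ (by omega), Submodule.mem_bot] at h1
      rw [h1, map_zero]
  have hrk : ∀ a, ∀ x ∈ V a, ∀ y ∈ V' a, (bil W X y).smulRight x ∈ KOp W X X 0 := by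
    intro a x hx y hy
    obtain ⟨b, hb, h⟩ := hrk0 a x hx y hy
    have h1 : (bil W X y).smulRight x = b ∘ₗ (LinearMap.id - eA) := by
      apply LinearMap.ext
      intro z
      change bil W X y z • x = b (z - eA z)
      rw [h _ (hcompl z), map_sub, hTa' y hy.1 _ (heAspan z), sub_zero]
    rw [h1]
    have h5 : (LinearMap.id - eA : Module.End W.K (W.H X)) ∈ KOp W X X 0 :=
      Submodule.sub_mem _ (KOp.id X) heAop
    exact KOp.cast (KOp.comp hb h5) (add_zero 0)
  -- assembly
  refine hasBlocks_of' (κ := Fin (X.dim + 1) ⊕ Fin n)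
    (fun s => Sum.elim (fun j : Fin (X.dim + 1) => Submodule.span W.K (algClasses W X j)) V s)
    (fun s => Sum.elim (fun j : Fin (X.dim + 1) =>
      Submodule.span W.K (algClasses W X (X.dim - j))) V' s)
    (fun s => Sum.elim (fun j : Fin (X.dim + 1) => 2 * (j : ℕ)) dV s)
    (Sum.map id πV) ?_ ?_ ?_ ?_ ?_ ?_ ?_ ?_ ?_
  · rintro (j | a)
    · exact hgr j
    · exact hdV a
  · rintro (j | a)
    · exact fun x hx h0 => span_nondeg hDX (by omega) hx
        (fun y hy => h0 y (Submodule.subset_span hy))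
    · exact hnd a
  · rintro (j | a)
    · exact hspan' j (by omega)
    · exact hnd' a
  · rintro (j | a) (j' | a') hst x hx y hy
    · simp only [Sum.elim_inl] at hx hy
      apply bil_eq_zero (hgr _ hy) (hgr _ hx)
      intro h0
      apply hst
      congr 1
      apply Fin.ext
      omega
    · exact hTa y hy.1 _ x hx
    · exact haT x (hVT a hx) _ y hy
    · exact hy.2 a (fun h => hst (by rw [h])) x hx
  · intro r h0
    have h1 : r ∈ T := by
      rw [mem_trans]
      intro j b hb
      by_cases hj : j ≤ X.dim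
      · have h2 := h0 (Sum.inl ⟨X.dim - j, by omega⟩) b (by
          simp only [Sum.elim_inl]
          rw [show X.dim - (X.dim - j) = j by omega]
          exact Submodule.subset_span hb)
        rw [bil_apply] at h2 ⊢
        rw [← alg_even_comm hb]
        exact h2
      · have h2 := alg_gr hb
        rw [W.gr_eq_bot X _ (by omega), Submodule.mem_bot] at h2
        rw [h2, map_zero]
    apply hndr r h1
    intro s hs
    rw [← hpsum r h1, map_sum]
    apply Finset.sum_eq_zero
    intro i _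
    obtain ⟨F, hF1, hF2⟩ := hsw i
    rw [← hF2 s hs r h1]
    exact h0 (Sum.inr i) _ (hF1 s hs)
  · rintro (j | a)
    · intro x hx y hy
      exact rk_span hx hy (by
        have := j.2
        omega)
    · exact hrk a
  · rintro (j | a) (j' | a') h
    · simpa using h
    · simp at h
    · simp at h
    · simp only [Sum.map_inr, Sum.inr.injEq] at h
      rw [hπinj h]
  · rintro (j | a) x hx
    · simp only [Sum.elim_inl, Sum.map_inl, id_eq] at hx ⊢
      induction hx using Submodule.span_induction with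
      | mem x hx =>
        obtain ⟨z, hz, rfl⟩ := hx
        rw [S.cl]
        exact Submodule.subset_span ⟨z, hz, rfl⟩
      | zero => rw [map_zero]; exact Submodule.zero_mem _
      | add x y _ _ hx hy => rw [map_add]; exact Submodule.add_mem _ hx hy
      | smul a x _ hx => rw [S.smul]; exact Submodule.smul_mem _ _ hx
    · exact hπV a x hx
  · rintro (j | a)
    · intro hbot
      simp only [Sum.elim_inl] at hbot ⊢
      obtain ⟨x, hx, hx0⟩ : ∃ x ∈ algClasses W X j, x ≠ 0 := by
        by_contra hcon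
        push Not at hcon
        apply hbot
        rw [Submodule.span_eq_bot]
        exact hcon
      obtain ⟨y, hy, hyx⟩ : ∃ y ∈ algClasses W X (X.dim - j), bil W X y x ≠ 0 := by
        by_contra hcon
        push Not at hcon
        exact hx0 (span_nondeg hDX (by omega) (Submodule.subset_span hx) hcon)
      have hσx : S.σ X x = x := by
        obtain ⟨z, hz, rfl⟩ := hx
        rw [S.cl]
      refine ⟨(X.dim : ℤ) - 2 * j, (bil W X y).smulRight y,
        rk_span (Submodule.subset_span hy) (Submodule.subset_span hy) (by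
          have := j.2
          omega), x, Submodule.subset_span hx, x, Submodule.subset_span hx, ?_⟩
      rw [hσx, LinearMap.smulRight_apply, mul_smul_comm, map_smul, smul_eq_mul,
        ← alg_even_comm hy, ← bil_apply]
      exact mul_ne_zero hyx hyx
    · intro _
      obtain ⟨δ, θ, hθ, x, hx, y, hy, hxy⟩ := hH (V a) (hVT a) (hVne a) (hVA' a)
      exact ⟨δ, θ, hθ, x, hx, y, hy, hxy⟩

/-- **The conjecture `D` for all products.** -/
theorem homEqNum_products_iff' [IsAlgClosed W.K] {S : SemiLin W} (hS : PushCompatible S)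
    {ι : Type w} (P : ι → 𝒱.Obj) (hC : ∀ i, CommCommK W (P i))
    (hH : ∀ i, PairsConjK S (P i)) :
    (∀ i, HomEqNum W (P i)) ↔
      ∀ Q, IsProductOf (Set.range P) Q → ∀ Y, Dominates W Q Y → HomEqNum W Y := by
  constructor
  · intro hD Q hQ Y hY
    have h1 : HasBlocks S Q := by
      clear hY
      induction hQ with
      | base h =>
        obtain ⟨i, rfl⟩ := h
        exact hasBlocks_of_corr hS (hD i) (hC i) (hH i)
      | prod _ _ h1 h2 => exact HasBlocks.prod h1 h2
    exact HomEqNum.image (homEqNum_of_blocks h1) hY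
  · intro h i
    refine h (P i) (IsProductOf.base ⟨i, rfl⟩) (P i) ⟨𝟙 _, 0, (P i).V.fundCycle, 1,
      (P i).V.fundCycle_mem, one_ne_zero, ?_⟩
    rw [W.push_id, W.cl_fund, one_smul]

end Pool.Agent.H281R3.HT
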