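import Pool.Agent.H914R2.DDefs

/-!
# Algebraic correspondences on the transcendental cohomology, and conjugations
-/

open CategoryTheory AlgebraicGeometry

universe u v w

namespace Pool.Agent.H281R3.HT

open Pool.Agent.H914 Pool.Agent.H914.VarClass Pool.Agent.H914.VarClass.Obj
  Pool.Agent.H914.WeilCohomology

section Linear

variable {K A : Type*} [Field K]

/-- Any two linear operators on the subspace `T` which commute with all maps in `E` commute with
each other. -/
def CommutativeOn [AddCommGroup A] [Module K A] (T : Submodule K A) (E : Set (A → A)) : Prop :=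
  ∀ φ ψ : Module.End K A, (∀ t ∈ T, φ t ∈ T) → (∀ e ∈ E, ∀ t ∈ T, φ (e t) = e (φ t)) →
    (∀ t ∈ T, ψ t ∈ T) → (∀ e ∈ E, ∀ t ∈ T, ψ (e t) = e (ψ t)) → ∀ t ∈ T, φ (ψ t) = ψ (φ t)

/-- Every non-zero subspace `V` of `T` which is stable under the maps in `E` contains elements `x`
and `y` with `B x (θ (σ y)) ≠ 0` for some `θ` in `F`. -/
def PairsOn [AddCommGroup A] [Module K A] (T : Submodule K A) (E F : Set (A → A)) (σ : A → A)
    (B : A → A → K) : Prop :=
  ∀ V ≤ T, V ≠ ⊥ → (∀ e ∈ E, ∀ v ∈ V, e v ∈ V) → ∃ θ ∈ F, ∃ x ∈ V, ∃ y ∈ V, B x (θ (σ y)) ≠ 0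

/-- The map `σ` is an injective ring endomorphism of the graded algebra `A`, semilinear for the
endomorphism `τ` of the coefficient field. -/
structure IsConjugation [Ring A] [Algebra K A] (gr : ℕ → Submodule K A) (τ : K →+* K)
    (σ : A → A) : Prop where
  add : ∀ a b, σ (a + b) = σ a + σ b
  mul : ∀ a b, σ (a * b) = σ a * σ b
  smul : ∀ (c : K) a, σ (c • a) = τ c • σ a
  gr : ∀ i, ∀ a ∈ gr i, σ a ∈ gr i
  inj : ∀ a, σ a = 0 → a = 0

/-- The maps `f` and `σ`, `σ'` commute: `f (σ a) = σ' (f a)`. -/
def Intertwines {A B : Type*} (σ : A → A) (σ' : B → B) (f : A → B) : Prop :=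
  ∀ a, f (σ a) = σ' (f a)

/-- The map `σ` fixes all values of the map `c`. -/
def FixesValues {Z A : Type*} (σ : A → A) (c : Z → A) : Prop := ∀ z, σ (c z) = c z

end Linear

variable {k : Type u} [Field k] {𝒱 : VarClass k} {ops : CycleOps 𝒱}

/-- A conjugation of a Weil cohomology theory: a semilinear endomorphism, compatible with
pull-backs and push-forwards, which fixes all cycle classes. -/
structure Conjugation (W : WeilCohomology.{u, v} ops) where
  /-- the endomorphism of the coefficients -/
  τ : W.K →+* W.K
  /-- the endomorphism of the cohomology -/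
  σ : ∀ X, W.H X → W.H X
  isConjugation : ∀ X, IsConjugation (W.gr X) τ (σ X)
  map : ∀ {X Y : 𝒱.Obj} (f : X ⟶ Y), Intertwines (σ Y) (σ X) (W.map f)
  push : ∀ {X Y : 𝒱.Obj} (f : X ⟶ Y), Intertwines (σ X) (σ Y) (W.push f)
  cl : ∀ X : 𝒱.Obj, FixesValues (σ X) (W.cl X)

/-- The operators on the cohomology of `X` defined by the cycles of codimension `p` on `X × X`. -/
def correspondences (W : WeilCohomology.{u, v} ops) (X : 𝒱.Obj) (p : ℕ) : Set (W.H X → W.H X) :=
  {e | ∃ z, (X.prod X).IsCyc p z ∧
    e = fun a => W.push (snd X X) (W.cl (X.prod X) z * W.map (fst X X) a)}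

/-- Any two linear operators on the transcendental cohomology of `X` which commute with all
algebraic correspondences of degree `0` commute with each other. -/
def CommutativeCommutant (W : WeilCohomology.{u, v} ops) (X : 𝒱.Obj) : Prop :=
  CommutativeOn (transcendental W X) (correspondences W X X.dim)

/-- Every non-zero subspace of the transcendental cohomology of `X` which is stable under the
algebraic correspondences of degree `0` pairs non-trivially with its conjugate, by an algebraic
correspondence `θ` of some degree: `tr (x * θ (σ y)) ≠ 0` for some `x`, `y` in it. -/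
def PairsWithConjugate {W : WeilCohomology.{u, v} ops} (S : Conjugation W) (X : 𝒱.Obj) : Prop :=
  PairsOn (transcendental W X) (correspondences W X X.dim) (⋃ p, correspondences W X p) (S.σ X)
    (fun a b => W.tr X (a * b))

end Pool.Agent.H281R3.HT
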