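import Pool.Agent.H281R3.HT.Defs

/-!
# Finite groups acting irreducibly on the transcendental cohomology: definitions
-/

open CategoryTheory AlgebraicGeometry

universe u v w

namespace Pool.Agent.H281R3.HT

open Pool.Agent.H914 Pool.Agent.H914.VarClass Pool.Agent.H914.VarClass.Obj
  Pool.Agent.H914.WeilCohomology

variable {k : Type u} [Field k] {𝒱 : VarClass k} {ops : CycleOps 𝒱}

/-- The only linear operators on the subspace `T` which commute with all the operators `A g` are
the scalars (operators on `T` are given as restrictions of operators on `V` preserving `T`). -/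
def ScalarCommutant {K V G : Type*} [Field K] [AddCommGroup V] [Module K V] (T : Submodule K V)
    (A : G → V → V) : Prop :=
  ∀ φ : V →ₗ[K] V, (∀ t ∈ T, φ t ∈ T) → (∀ g, ∀ t ∈ T, φ (A g t) = A g (φ t)) →
    ∃ c : K, ∀ t ∈ T, φ t = c • t

/-- A finite group acting on the variety `X` by automorphisms which preserve the degrees of
zero-cycles (as all automorphisms of a variety do). -/
structure FinAction (ops : CycleOps 𝒱) (X : 𝒱.Obj) where
  /-- the group -/
  G : Type
  grp : Group G
  fin : Finite G
  /-- the action -/
  σ : G →* Aut X
  deg : ∀ g z, X.IsCyc X.dim z → X.V.degCycle (ops.pull (σ g).hom z) = X.V.degCycle z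

attribute [instance] FinAction.grp FinAction.fin

/-- The transcendental cohomology is absolutely irreducible (or zero) as a representation of the
group: the only operators on it which commute with the group are the scalars. -/
def FinAction.AbsIrreducible (W : WeilCohomology.{u, v} ops) {X : 𝒱.Obj}
    (A : FinAction ops X) : Prop :=
  ScalarCommutant (transcendental W X) (fun (g : A.G) a => W.map (A.σ g).hom a)

/-- The variety `X` has no transcendental cohomology: its cohomology is spanned by algebraic
classes. -/
def NoTranscendental (W : WeilCohomology.{u, v} ops) (X : 𝒱.Obj) : Prop :=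
  transcendental W X = ⊥

/-- The morphism `f` has a positive degree: `f_* [X] = δ [Y]` with `δ > 0`. -/
def PositiveDegree (W : WeilCohomology.{u, v} ops) {X Y : 𝒱.Obj} (f : X ⟶ Y) : Prop :=
  ∃ δ : ℚ, 0 < δ ∧ W.push f 1 = (δ : W.K) • 1

/-- `P` covers `Q`: there is a morphism `f` from `P` to `Q` of positive degree between varieties of
the same dimension such that the class of the divisor of `P` is the pull-back of the class of the
divisor of `Q`. -/
def Covers (W : WeilCohomology.{u, v} ops) (P Q : Polarized 𝒱) : Prop :=
  P.X.dim = Q.X.dim ∧ ∃ f : P.X ⟶ Q.X, PositiveDegree W f ∧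
    W.cl P.X P.D = W.map f (W.cl Q.X Q.D)

end Pool.Agent.H281R3.HT
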