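import Pool.Agent.H281R3.HT.Main
import Pool.Agent.H281R3.HT.GDefs

/-!
# Finite groups acting irreducibly on the transcendental cohomology
-/

open CategoryTheory AlgebraicGeometry

universe u v w

namespace Pool.Agent.H281R3.HT

open Pool.Agent.H914 Pool.Agent.H914.VarClass Pool.Agent.H914.VarClass.Obj
  Pool.Agent.H914.WeilCohomology

section Schur

variable {K V G : Type*} [Field K] [AddCommGroup V] [Module K V] [Module.Finite K V]
  [Group G] [Fintype G]

/-- **Schur's orthogonality relations** for a bilinear form. -/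
theorem schur (A : G → Module.End K V) (hA : ∀ g h, A (g * h) = A h * A g)
    (T : Submodule K V) (hT : ∀ g, ∀ t ∈ T, A g t ∈ T) (B : V →ₗ[K] V →ₗ[K] K)
    (hB : ∀ g, ∀ x ∈ T, ∀ y ∈ T, B (A g x) (A g y) = B x y)
    (hc : ∀ φ : Module.End K V, (∀ t ∈ T, φ t ∈ T) →
      (∀ g, ∀ t ∈ T, φ (A g t) = A g (φ t)) → ∃ c : K, ∀ t ∈ T, φ t = c • t)
    {x x' y y' : V} (hx : x ∈ T) (hx' : x' ∈ T) (hy : y ∈ T) :
    (Module.finrank K T : K) * ∑ g, B (A g x) y * B (A g x') y' =
      (Fintype.card G : K) * (B x x' * B y y') := by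
  classical
  set R : Module.End K V := ∑ g, (B (A g x)).smulRight (A g x') with hR
  have hRa : ∀ z, R z = ∑ g, B (A g x) z • A g x' := by
    intro z
    rw [hR, LinearMap.sum_apply]
    rfl
  obtain ⟨c, hc'⟩ := hc R (by
    intro t _
    rw [hRa]
    exact Submodule.sum_mem _ (fun g _ => Submodule.smul_mem _ _ (hT g x' hx'))) (by
    intro h t ht
    rw [hRa, hRa, map_sum]
    rw [← Equiv.sum_comp (Equiv.mulRight h)]
    apply Finset.sum_congr rfl
    intro g _
    rw [Equiv.coe_mulRight, hA, Module.End.mul_apply, Module.End.mul_apply,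
      hB h _ (hT g x hx) _ ht, map_smul])
  -- the trace
  set R' : Module.End K T := ∑ g, ((B (A g x)) ∘ₗ T.subtype).smulRight ⟨A g x', hT g x' hx'⟩
    with hR'
  have h1 : R' = c • (1 : Module.End K T) := by
    apply LinearMap.ext
    intro t
    apply Subtype.ext
    have h2 : ((R' t : T) : V) = R t := by
      rw [hRa, hR', LinearMap.sum_apply, Submodule.coe_sum]
      rfl
    rw [h2, hc' t t.2]
    rfl
  have h3 : (Fintype.card G : K) * B x x' = c * Module.finrank K T := by
    have h4 := congrArg (LinearMap.trace K T) h1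
    rw [map_smul, LinearMap.trace_one, hR', map_sum, smul_eq_mul] at h4
    rw [← h4, Finset.sum_congr rfl (fun g _ => LinearMap.trace_smulRight _ _)]
    have h5 : ∀ g, (B (A g x) ∘ₗ T.subtype) ⟨A g x', hT g x' hx'⟩ = B x x' := by
      intro g
      exact hB g x hx x' hx'
    rw [Finset.sum_congr rfl (fun g _ => h5 g), Finset.sum_const, Finset.card_univ,
      nsmul_eq_mul]
  have h6 : ∑ g, B (A g x) y * B (A g x') y' = c * B y y' := by
    have h7 : B (R y) y' = c * B y y' := by
      rw [hc' y hy, map_smul, LinearMap.smul_apply, smul_eq_mul]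
    rw [← h7, hRa, map_sum, LinearMap.sum_apply]
    apply Finset.sum_congr rfl
    intro g _
    rw [map_smul, LinearMap.smul_apply, smul_eq_mul]
  rw [h6]
  linear_combination -(B y y') * h3

end Schur

variable {k : Type u} [Field k] {𝒱 : VarClass k} {ops : CycleOps 𝒱}
  {W : WeilCohomology.{u, v} ops} {X X' Y Z : 𝒱.Obj}

section

variable {D : X.Cycles} {Lam : Module.End W.K (W.H X)} {κ : Type} [Fintype κ] {l : κ → ℕ}
  {x : κ → W.H X} {φ : κ → ℚ} {p : Module.End W.K (W.H X)}
  (h : Setup W X D Lam κ l x φ p)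
  {D' : X'.Cycles} {Lam' : Module.End W.K (W.H X')} {κ' : Type} [Fintype κ'] {l' : κ' → ℕ}
  {x' : κ' → W.H X'} {φ' : κ' → ℚ} {p' : Module.End W.K (W.H X')}
  (h' : Setup W X' D' Lam' κ' l' x' φ' p')

include h in
/-- The component in the algebraic part is orthogonal to transcendental classes. -/
lemma tr_p_zero {t : W.H X} (ht : t ∈ transcendental W X) (a : W.H X) :
    W.tr X (t * p a) = 0 := by
  have key : ∀ y ∈ Submodule.span W.K {c | ∃ j, c ∈ algClasses W X j}, W.tr X (t * y) = 0 := by
    intro y hy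
    induction hy using Submodule.span_induction with
    | mem y hy =>
      obtain ⟨j, hj⟩ := hy
      exact mem_trans.1 ht j y hj
    | zero => rw [mul_zero, map_zero]
    | add x y _ _ hx hy => rw [mul_add, map_add, hx, hy, add_zero]
    | smul c x _ hx => rw [mul_smul_comm, map_smul, hx, smul_zero]
  exact key _ (h.p_span a)

include h h' in
/-- The projector is self-adjoint. -/
lemma Pi_adj (hmid' : transcendental W X' ≤ W.gr X' X'.dim) {v : W.H (X.prod X')}
    (hv : v ∈ TT W X X') (z : W.H (X.prod X')) :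
    W.tr _ (v * extOp W (1 - p) (1 - p') z) = W.tr _ (v * z) := by
  rw [TT] at hv
  induction hv using Submodule.span_induction with
  | mem v hv =>
    obtain ⟨t, ht, t', ht', rfl⟩ := hv
    refine W.kunneth_induction (p := fun z => W.tr _ (W.map (fst X X') t * W.map (snd X X') t' *
      extOp W (1 - p) (1 - p') z) =
      W.tr _ (W.map (fst X X') t * W.map (snd X X') t' * z)) ?_ ?_ z
    · intro a b ha hb
      rw [map_add, mul_add, mul_add, map_add, map_add, ha, hb]
    · intro i j a ha b _
      have h1 : (1 - p) a ∈ W.gr X i := Submodule.sub_mem _ ha (h.p_deg ha)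
      rw [extOp_tmul, tmul_mul (hmid' ht') h1, tmul_mul (hmid' ht') ha, map_smul, map_smul,
        W.tr_prod, W.tr_prod, LinearMap.sub_apply, LinearMap.sub_apply, mul_sub, mul_sub,
        map_sub, map_sub, tr_p_zero h ht, tr_p_zero h' ht', sub_zero, sub_zero]
      rfl
  | zero => rw [zero_mul, zero_mul]
  | add x y _ _ hx hy => rw [add_mul, add_mul, map_add, map_add, hx, hy]
  | smul c x _ hx => rw [smul_mul_assoc, smul_mul_assoc, map_smul, map_smul, hx]

include h h' in
/-- The pairing on external products of transcendental classes is nondegenerate. -/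
lemma TT_nondeg (hmid' : transcendental W X' ≤ W.gr X' X'.dim) {v : W.H (X.prod X')}
    (hv : v ∈ TT W X X') (h0 : ∀ w ∈ TT W X X', W.tr _ (v * w) = 0) : v = 0 := by
  apply W.nondeg
  intro z
  rw [← Pi_adj h h' hmid' hv z]
  exact h0 _ (Pi_TT h h' z)

include h in
/-- Automorphisms preserving degrees of zero-cycles preserve the orientation. -/
lemma tr_map {g : X ⟶ X}
    (hg : ∀ z, X.IsCyc X.dim z → X.V.degCycle (ops.pull g z) = X.V.degCycle z) (a : W.H X) :
    W.tr X (W.map g a) = W.tr X a := by
  by_cases h1 : (1 : W.H X) = 0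
  · have h2 : a = 0 := by rw [← one_mul a, h1, zero_mul]
    rw [h2, map_zero]
  obtain ⟨b, ⟨z, hz, rfl⟩, r, hr, hb, hy⟩ := h.exists_top h1
  have h3 : W.map g (W.cl X z) = (1 : W.K) • W.cl X z := by
    have h4 := hy _ (W.map_mem g (W.cl_mem hz))
    have h5 : W.tr X (W.map g (W.cl X z)) = (r : W.K) := by
      rw [← W.cl_pull, W.tr_cl (ops.pull_mem g hz), hg z hz, ← W.tr_cl hz, hb]
    have hr' : (r : W.K) ≠ 0 := by exact_mod_cast hr
    rw [h5, mul_inv_cancel₀ hr'] at h4
    exact h4
  have h6 := tr_map_of_top (W.cl_mem hz) (by rw [hb]; exact_mod_cast hr) h3 a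
  rw [h6, one_mul]

include h in
lemma map_trans {g g' : X ⟶ X} (hgg : g ≫ g' = 𝟙 X)
    (hg : ∀ z, X.IsCyc X.dim z → X.V.degCycle (ops.pull g z) = X.V.degCycle z)
    {t : W.H X} (ht : t ∈ transcendental W X) : W.map g t ∈ transcendental W X := by
  rw [mem_trans]
  intro j c hc
  have h1 : W.map g (W.map g' c) = c := by rw [← W.map_comp, hgg, W.map_id]
  rw [bil_apply]
  conv_lhs => rw [← h1]
  rw [← map_mul, tr_map h hg]
  exact mem_trans.1 ht j _ (alg_map g' hc)

end

section Action

variable {D : X.Cycles} {Lam : Module.End W.K (W.H X)} {κ : Type} [Fintype κ] {l : κ → ℕ}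
  {x : κ → W.H X} {φ : κ → ℚ} {p : Module.End W.K (W.H X)}
  (h : Setup W X D Lam κ l x φ p) (A : FinAction ops X)

/-- The components of the classes of the graphs. -/
noncomputable def cg (p : Module.End W.K (W.H X)) (A : FinAction ops X) (g : A.G) :
    W.H (X.prod X) :=
  extOp W (1 - p) (1 - p) (W.push (Obj.lift (A.σ g).hom (𝟙 X)) 1)

include h

lemma cg_alg (g : A.G) : cg p A g ∈ algClasses W (X.prod X) X.dim :=
  Pi_alg h h (alg_push _ alg_one (by rw [dim_prod]; omega))

lemma cg_TT (g : A.G) : cg p A g ∈ TT W X X := Pi_TT h h _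

/-- The pairing with the components of the classes of the graphs. -/
lemma tr_cg (hmid : transcendental W X ≤ W.gr X X.dim) (g : A.G) {s t : W.H X}
    (hs : s ∈ transcendental W X) (ht : t ∈ transcendental W X) :
    W.tr _ (W.map (fst X X) s * W.map (snd X X) t * cg p A g) =
      W.tr X (W.map (A.σ g).hom s * t) := by
  rw [cg, Pi_adj h h hmid (Submodule.subset_span ⟨s, hs, t, ht, rfl⟩)]
  have h1 : W.push (Obj.lift (A.σ g).hom (𝟙 X)) (1 : W.H X) ∈
      algClasses W (X.prod X) X.dim := alg_push _ alg_one (by rw [dim_prod]; omega)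
  rw [← alg_even_comm h1, W.tr_push, one_mul, map_mul, ← W.map_comp, ← W.map_comp,
    Obj.lift_fst, Obj.lift_snd, W.map_id]

/-- **Schur's orthogonality relations for the classes of the graphs.** -/
theorem schur_cg (hmid : transcendental W X ≤ W.gr X X.dim) (hA : A.AbsIrreducible W)
    [Fintype A.G] {v w : W.H (X.prod X)} (hv : v ∈ TT W X X) (hw : w ∈ TT W X X) :
    (Module.finrank W.K (transcendental W X) : W.K) *
      ∑ g, W.tr _ (v * cg p A g) * W.tr _ (w * cg p A g) =
      (Fintype.card A.G : W.K) * ((-1) ^ X.dim * W.tr _ (v * w)) := by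
  have hsign : (-1 : W.K) ^ (X.dim * X.dim) = (-1) ^ X.dim := by
    rcases Nat.even_or_odd X.dim with he | he
    · rw [he.neg_one_pow, (he.mul_right _).neg_one_pow]
    · rw [he.neg_one_pow, (he.mul he).neg_one_pow]
  have hsq : (-1 : W.K) ^ X.dim * (-1) ^ X.dim = 1 := by rw [← mul_pow]; simp
  have hmulc : ∀ g g' : A.G, (A.σ (g * g')).hom = (A.σ g').hom ≫ (A.σ g).hom := by
    intro g g'
    rw [map_mul]
    rfl
  have key := fun (s s' t t' : W.H X) (hs : s ∈ transcendental W X)
    (hs' : s' ∈ transcendental W X) (ht : t ∈ transcendental W X) =>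
    schur (fun g : A.G => (W.map (A.σ g).hom).toLinearMap)
    (by
      intro g g'
      apply LinearMap.ext
      intro a
      change W.map (A.σ (g * g')).hom a = W.map (A.σ g').hom (W.map (A.σ g).hom a)
      rw [hmulc, W.map_comp])
    (transcendental W X)
    (fun g t ht => map_trans h (g' := (A.σ g).inv) (A.σ g).hom_inv_id (A.deg g) ht)
    (bil W X)
    (by
      intro g s _ t _
      change W.tr X (W.map (A.σ g).hom s * W.map (A.σ g).hom t) = W.tr X (s * t)
      rw [← map_mul, tr_map h (A.deg g)])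
    hA (y' := t') hs hs' ht
  rw [TT] at hv hw
  induction hv using Submodule.span_induction with
  | mem v hv =>
    obtain ⟨s, hs, t, ht, rfl⟩ := hv
    induction hw using Submodule.span_induction with
    | mem w hw =>
      obtain ⟨s', hs', t', ht', rfl⟩ := hw
      have h1 := key s s' t t' hs hs' ht
      rw [tmul_mul (hmid ht) (hmid hs'), map_smul, W.tr_prod, smul_eq_mul, hsign,
        Finset.sum_congr rfl (fun g _ => by rw [tr_cg h A hmid g hs ht, tr_cg h A hmid g hs' ht'])]
      refine h1.trans ?_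
      rw [bil_apply, bil_apply, ← mul_assoc ((-1 : W.K) ^ X.dim), hsq, one_mul]
    | zero => simp
    | add a b _ _ ha hb =>
      simp only [add_mul, mul_add, map_add, Finset.sum_add_distrib, ha, hb]
    | smul c a _ ha =>
      have e1 : ∀ g, W.tr _ (W.map (fst X X) s * W.map (snd X X) t * cg p A g) *
          W.tr _ ((c • a) * cg p A g) = c * (W.tr _ (W.map (fst X X) s * W.map (snd X X) t *
            cg p A g) * W.tr _ (a * cg p A g)) := by
        intro g
        rw [smul_mul_assoc, map_smul, smul_eq_mul]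
        ring
      rw [Finset.sum_congr rfl (fun g _ => e1 g), ← Finset.mul_sum, mul_smul_comm, map_smul,
        smul_eq_mul, mul_left_comm, ha]
      ring
  | zero => simp
  | add a b _ _ ha hb =>
    simp only [add_mul, mul_add, map_add, Finset.sum_add_distrib, ha, hb]
  | smul c a _ ha =>
    have e1 : ∀ g, W.tr _ ((c • a) * cg p A g) * W.tr _ (w * cg p A g) =
        c * (W.tr _ (a * cg p A g) * W.tr _ (w * cg p A g)) := by
      intro g
      rw [smul_mul_assoc, map_smul, smul_eq_mul]
      ring
    rw [Finset.sum_congr rfl (fun g _ => e1 g), ← Finset.mul_sum, smul_mul_assoc, map_smul,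
      smul_eq_mul, mul_left_comm, ha]
    ring

omit [Fintype κ] h in
lemma comm_TT (hmid : transcendental W X ≤ W.gr X X.dim) {v : W.H (X.prod X)}
    (hv : v ∈ TT W X X) (w : W.H (X.prod X)) : v * w = w * v := by
  have h1 := TT_gr hmid hmid hv
  rw [← two_mul] at h1
  exact W.even_comm h1 w

lemma eq_zero_of_cg (hmid : transcendental W X ≤ W.gr X X.dim) (hA : A.AbsIrreducible W)
    {v : W.H (X.prod X)} (hv : v ∈ TT W X X) (h0 : ∀ g, W.tr _ (v * cg p A g) = 0) : v = 0 := by
  classical
  have := Fintype.ofFinite A.G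
  apply TT_nondeg h h hmid hv
  intro w hw
  have h1 := schur_cg h A hmid hA hv hw
  rw [Finset.sum_eq_zero (fun g _ => by rw [h0 g, zero_mul]), mul_zero] at h1
  have h2 : (Fintype.card A.G : W.K) ≠ 0 := by
    exact_mod_cast Fintype.card_ne_zero
  have h3 : ((-1 : W.K)) ^ X.dim ≠ 0 := pow_ne_zero _ (by norm_num)
  rcases mul_eq_zero.1 h1.symm with h4 | h4
  · exact absurd h4 h2
  · rcases mul_eq_zero.1 h4 with h5 | h5
    · exact absurd h5 h3
    · exact h5

/-- **The basis of the external products of transcendental classes.** -/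
theorem pairBasis_of_action (hmid : transcendental W X ≤ W.gr X X.dim)
    (hA : A.AbsIrreducible W) : ∃ B, PairBasis W X X B := by
  classical
  have := Fintype.ofFinite A.G
  have hcard : (Fintype.card A.G : W.K) ≠ 0 := by
    exact_mod_cast Fintype.card_ne_zero
  have hs0 : ((-1 : W.K)) ^ X.dim ≠ 0 := pow_ne_zero _ (by norm_num)
  apply exists_pairBasis h h hmid hmid
  · -- the external products are algebraic
    intro s hs t ht
    have hst : W.map (fst X X) s * W.map (snd X X) t ∈ TT W X X :=
      Submodule.subset_span ⟨s, hs, t, ht, rfl⟩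
    set v0 := W.map (fst X X) s * W.map (snd X X) t with hv0
    set w0 := ∑ g, W.tr _ (v0 * cg p A g) • cg p A g with hw0
    have hw0T : w0 ∈ TT W X X :=
      Submodule.sum_mem _ (fun g _ => Submodule.smul_mem _ _ (cg_TT h A g))
    have hw0A : w0 ∈ algSpan W (X.prod X) :=
      Submodule.sum_mem _ (fun g _ => Submodule.smul_mem _ _
        (Submodule.subset_span (Set.mem_iUnion.2 ⟨_, cg_alg h A g⟩)))
    have h1 : (Module.finrank W.K (transcendental W X) : W.K) • w0 -
        ((Fintype.card A.G : W.K) * (-1) ^ X.dim) • v0 = 0 := by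
      apply TT_nondeg h h hmid (Submodule.sub_mem _ (Submodule.smul_mem _ _ hw0T)
        (Submodule.smul_mem _ _ hst))
      intro w hw
      have h2 := schur_cg h A hmid hA hst hw
      have h3 : W.tr _ (w0 * w) =
          ∑ g, W.tr _ (v0 * cg p A g) * W.tr _ (w * cg p A g) := by
        rw [hw0, Finset.sum_mul, map_sum]
        apply Finset.sum_congr rfl
        intro g _
        rw [smul_mul_assoc, map_smul, smul_eq_mul, ← comm_TT hmid hw (cg p A g)]
      rw [sub_mul, map_sub, smul_mul_assoc, smul_mul_assoc, map_smul, map_smul, h3,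
        smul_eq_mul, smul_eq_mul, h2]
      ring
    have h2 : v0 = (((Fintype.card A.G : W.K) * (-1) ^ X.dim)⁻¹ *
        (Module.finrank W.K (transcendental W X) : W.K)) • w0 := by
      rw [mul_smul, eq_inv_smul_iff₀ (mul_ne_zero hcard hs0)]
      exact (sub_eq_zero.1 h1).symm
    change v0 ∈ algSpan W (X.prod X)
    rw [h2]
    exact Submodule.smul_mem _ _ hw0A
  · intro b hb v hv hva hv0
    obtain rfl : b = X.dim := by omega
    choose r hr using fun g => alg_rat hva (cg_alg h A g)
    obtain ⟨s, hs⟩ := alg_rat hva hva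
    rw [bil_apply] at hs
    have h1 := schur_cg h A hmid hA hv hv
    have h2 : (Module.finrank W.K (transcendental W X) : ℚ) * ∑ g, r g * r g =
        (Fintype.card A.G : ℚ) * ((-1) ^ X.dim * s) := by
      have h3 : ((((Module.finrank W.K (transcendental W X) : ℚ) * ∑ g, r g * r g : ℚ)) : W.K) =
          (((Fintype.card A.G : ℚ) * ((-1) ^ X.dim * s) : ℚ) : W.K) := by
        push_cast
        rw [hs] at h1
        refine Eq.trans ?_ h1
        congr 1
        apply Finset.sum_congr rfl
        intro g _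
        have := hr g
        rw [bil_apply] at this
        rw [this]
      exact_mod_cast h3
    have h4 : 0 < ∑ g, r g * r g := by
      have h5 : ∃ g, r g ≠ 0 := by
        by_contra hcon
        push Not at hcon
        apply hv0
        apply eq_zero_of_cg h A hmid hA hv
        intro g
        have := hr g
        rw [bil_apply] at this
        rw [this, hcon g, Rat.cast_zero]
      obtain ⟨g, hg⟩ := h5
      apply Finset.sum_pos'
      · intro g _
        exact mul_self_nonneg _
      · exact ⟨g, Finset.mem_univ _, mul_self_pos.2 hg⟩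
    have h5 : (0 : ℚ) < Module.finrank W.K (transcendental W X) := by
      rcases Nat.eq_zero_or_pos (Module.finrank W.K (transcendental W X)) with h6 | h6
      · exfalso
        apply hv0
        have h7 : transcendental W X = ⊥ := Submodule.finrank_eq_zero.1 h6
        rw [TT, h7] at hv
        have h8 : Submodule.span W.K {y | ∃ t ∈ (⊥ : Submodule W.K (W.H X)),
            ∃ t' ∈ (⊥ : Submodule W.K (W.H X)),
            y = W.map (fst X X) t * W.map (snd X X) t'} ≤ ⊥ := by
          apply Submodule.span_le.2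
          rintro _ ⟨t, ht, t', -, rfl⟩
          rw [Submodule.mem_bot] at ht
          rw [ht, map_zero, zero_mul]
          exact Submodule.zero_mem _
        exact (Submodule.mem_bot _).1 (h8 hv)
      · exact_mod_cast h6
    have h6 : (0 : ℚ) < Fintype.card A.G := by exact_mod_cast Fintype.card_pos
    refine ⟨(-1) ^ X.dim * s, ?_, ?_⟩
    · have h7 : 0 < (Fintype.card A.G : ℚ) * ((-1) ^ X.dim * s) := by
        rw [← h2]
        exact mul_pos h5 h4
      exact pos_of_mul_pos_right h7 h6.le
    · rw [hs, ← mul_assoc, ← mul_pow]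
      simp

end Action

/-- If one of the two varieties has no transcendental cohomology, there is nothing to do. -/
lemma pairBasis_of_bot (h : transcendental W X = ⊥ ∨ transcendental W X' = ⊥) :
    ∃ B, PairBasis W X X' B := by
  refine ⟨⟨0, Fin.elim0, Fin.elim0, 0⟩, fun l => l.elim0, fun l => l.elim0, fun l => l.elim0,
    fun l => l.elim0, fun l => l.elim0, ?_⟩
  intro t ht t' ht'
  have h1 : W.map (fst X X') t * W.map (snd X X') t' = 0 := by
    rcases h with h | h
    · rw [h, Submodule.mem_bot] at ht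
      rw [ht, map_zero, zero_mul]
    · rw [h, Submodule.mem_bot] at ht'
      rw [ht', map_zero, mul_zero]
  rw [h1]
  exact Submodule.zero_mem _

section Covers

variable {P Q : Polarized 𝒱}

lemma hodge_of_covers (hc : Covers W P Q) (hP : P.X.IsCyc 1 P.D) (hQ : Q.X.IsCyc 1 Q.D)
    (h : HodgeType W P.X P.D) : HodgeType W Q.X Q.D := by
  obtain ⟨hdim, f, ⟨δ, hδ, hpush⟩, hcl⟩ := hc
  have hmap : ∀ (i : ℕ) (a : W.H Q.X),
      W.map f (((LinearMap.mulLeft W.K (W.cl Q.X Q.D)) ^ i) a) =
        ((LinearMap.mulLeft W.K (W.cl P.X P.D)) ^ i) (W.map f a) := by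
    intro i a
    induction i with
    | zero => rfl
    | succ i ih =>
      rw [pow_succ', pow_succ', Module.End.mul_apply, Module.End.mul_apply,
        LinearMap.mulLeft_apply, LinearMap.mulLeft_apply, map_mul, ih, hcl]
  have htr : ∀ a, W.tr P.X (W.map f a) = (δ : W.K) * W.tr Q.X a := by
    intro a
    have h1 := W.tr_push f 1 a
    rw [one_mul, hpush, smul_mul_assoc, one_mul, map_smul, smul_eq_mul] at h1
    exact h1.symm
  have hinj : ∀ a, W.map f a = 0 → a = 0 := by
    intro a ha
    apply W.nondeg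
    intro b
    have h1 := htr (a * b)
    rw [map_mul, ha, zero_mul, map_zero] at h1
    rcases mul_eq_zero.1 h1.symm with h2 | h2
    · exfalso
      exact hδ.ne' (by exact_mod_cast h2)
    · exact h2
  intro j hj z hz hprim hz0
  have h1 := h j (by omega) (ops.pull f z) (ops.pull_mem f hz) (by
    rw [cl_divPow, W.cl_pull, ← hmap, hdim, ← cl_divPow, hprim, map_zero]) (by
    rw [W.cl_pull]
    intro h0
    exact hz0 (hinj _ h0))
  have h2 : ((P.X.V.degCycle (ops.mul (ops.pull f z)
      (divPow ops P.D (P.X.dim - 2 * j) (ops.pull f z))) : ℚ) : W.K) =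
      ((δ * Q.X.V.degCycle (ops.mul z (divPow ops Q.D (Q.X.dim - 2 * j) z)) : ℚ) : W.K) := by
    have e1 := ops.mul_mem (ops.pull_mem f hz) (divPow_mem (ops := ops) hP (P.X.dim - 2 * j)
      (ops.pull_mem f hz))
    rw [show j + (j + (P.X.dim - 2 * j)) = P.X.dim by omega] at e1
    have e2 := ops.mul_mem hz (divPow_mem (ops := ops) hQ (Q.X.dim - 2 * j) hz)
    rw [show j + (j + (Q.X.dim - 2 * j)) = Q.X.dim by omega] at e2
    rw [← W.tr_cl e1, Rat.cast_mul, ← W.tr_cl e2, ← htr, W.cl_mul, W.cl_mul,
      map_mul (W.map f), cl_divPow, cl_divPow, W.cl_pull, hmap, hdim]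
  have h3 := Rat.cast_injective h2
  rw [h3, mul_left_comm] at h1
  exact pos_of_mul_pos_right h1 hδ.le

lemma homEqNum_of_covers (hc : Covers W P Q) (h : HomEqNum W P.X) : HomEqNum W Q.X := by
  obtain ⟨hdim, f, ⟨δ, hδ, hpush⟩, hcl⟩ := hc
  have htr : ∀ a, W.tr P.X (W.map f a) = (δ : W.K) * W.tr Q.X a := by
    intro a
    have h1 := W.tr_push f 1 a
    rw [one_mul, hpush, smul_mul_assoc, one_mul, map_smul, smul_eq_mul] at h1
    exact h1.symm
  have hinj : ∀ a, W.map f a = 0 → a = 0 := by
    intro a ha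
    apply W.nondeg
    intro b
    have h1 := htr (a * b)
    rw [map_mul, ha, zero_mul, map_zero] at h1
    rcases mul_eq_zero.1 h1.symm with h2 | h2
    · exfalso
      exact hδ.ne' (by exact_mod_cast h2)
    · exact h2
  intro j hj z hz hnum
  apply hinj
  rw [← W.cl_pull]
  apply h j (by omega) _ (ops.pull_mem f hz)
  intro w hw
  have e1 := ops.mul_mem (ops.pull_mem f hz) hw
  rw [show j + (P.X.dim - j) = P.X.dim by omega] at e1
  have e3 : Q.X.IsCyc (Q.X.dim - j) (ops.push f w) := by
    apply ops.push_mem f hw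
    omega
  have e2 := ops.mul_mem hz e3
  rw [show j + (Q.X.dim - j) = Q.X.dim by omega] at e2
  have h1 := hnum _ e3
  have h2 : ((P.X.V.degCycle (ops.mul (ops.pull f z) w) : ℚ) : W.K) =
      ((Q.X.V.degCycle (ops.mul z (ops.push f w)) : ℚ) : W.K) := by
    rw [← W.tr_cl e1, ← W.tr_cl e2, W.cl_mul, W.cl_mul, W.cl_pull, W.cl_push,
      W.mul_push f (W.cl_mem hz)]
    have := W.tr_push f (W.map f (W.cl Q.X z) * W.cl P.X w) 1
    rw [mul_one, map_one, mul_one] at this
    exact this.symm
  rw [h1, Rat.cast_zero] at h2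
  exact_mod_cast h2

end Covers

section Main

variable {ι : Type w} {P : ι → Polarized 𝒱}

lemma isCyc_of_isProduct (hD : ∀ j, (P j).X.IsCyc 1 (P j).D) {Q : Polarized 𝒱}
    (hQ : IsProduct ops P Q) : Q.X.IsCyc 1 Q.D := by
  induction hQ with
  | base j => exact hD j
  | prod _ _ hF hG => exact SmVar.IsCyc.add (ops.pull_mem _ hF) (ops.pull_mem _ hG)

/-- **The equivalence for finite group actions.** -/
theorem hodge_products_iff_action (hD : ∀ j, (P j).X.IsCyc 1 (P j).D)
    (hHL : ∀ j, HardLefschetz W (P j).X (P j).D)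
    (hmid : ∀ j, transcendental W (P j).X ≤ W.gr (P j).X (P j).X.dim)
    (hij : ∀ i j, (P i).X = (P j).X ∨ NoTranscendental W (P i).X ∨ NoTranscendental W (P j).X)
    (hA : ∀ j, ∃ A : FinAction ops (P j).X, A.AbsIrreducible W) :
    (∀ j, HodgeType W (P j).X (P j).D) ↔
      ∀ Q, IsProduct ops P Q → ∀ Y, Covers W Q Y → Y.X.IsCyc 1 Y.D →
        HodgeType W Y.X Y.D ∧ HomEqNum W Y.X := by
  constructor
  · intro hH Q hQ Y hY hYD
    have h1 := main hD hHL hmid hH (fun i j => by
      rcases hij i j with hne | hne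
      · rw [← hne]
        obtain ⟨Lam, κ, hκ, l, x, φ, p, hs⟩ := exists_setup (hD i) (hHL i)
          (lefschetzA_of_mid (hD i) (hHL i) (hmid i)) (hH i)
        obtain ⟨A, hA⟩ := hA i
        exact pairBasis_of_action hs A (hmid i) hA
      · exact pairBasis_of_bot hne) Q hQ
    exact ⟨hodge_of_covers hY (isCyc_of_isProduct hD hQ) hYD h1.1, homEqNum_of_covers hY h1.2⟩
  · intro h j
    refine (h _ (IsProduct.base j) (P j) ⟨rfl, 𝟙 _, ⟨1, one_pos, ?_⟩, ?_⟩ (hD j)).1
    · rw [W.push_id, Rat.cast_one, one_smul]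
    · rw [W.map_id]

end Main

end Pool.Agent.H281R3.HT
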