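import Pool.Agent.H281R3.HT.Base

/-!
# The standard conjecture of Hodge type for products: the main theorem
-/

open CategoryTheory AlgebraicGeometry

universe u v w

namespace Pool.Agent.H281R3.HT

open Pool.Agent.H914 Pool.Agent.H914.VarClass Pool.Agent.H914.VarClass.Obj
  Pool.Agent.H914.WeilCohomology

variable {k : Type u} [Field k] {𝒱 : VarClass k} {ops : CycleOps 𝒱}
  {W : WeilCohomology.{u, v} ops} {X X' Y Z : 𝒱.Obj}

lemma TT_gr (hmid : transcendental W X ≤ W.gr X X.dim)
    (hmid' : transcendental W X' ≤ W.gr X' X'.dim) {v : W.H (X.prod X')} (hv : v ∈ TT W X X') :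
    v ∈ W.gr (X.prod X') (X.dim + X'.dim) := by
  refine (Submodule.span_le.2 ?_) hv
  rintro _ ⟨t, ht, t', ht', rfl⟩
  exact W.mul_mem (W.map_mem _ (hmid ht)) (W.map_mem _ (hmid' ht'))

section

variable {D : X.Cycles} {Lam : Module.End W.K (W.H X)} {κ : Type} [Fintype κ] {l : κ → ℕ}
  {x : κ → W.H X} {φ : κ → ℚ} {p : Module.End W.K (W.H X)}
  (h : Setup W X D Lam κ l x φ p)
  {D' : X'.Cycles} {Lam' : Module.End W.K (W.H X')} {κ' : Type} [Fintype κ'] {l' : κ' → ℕ}
  {x' : κ' → W.H X'} {φ' : κ' → ℚ} {p' : Module.End W.K (W.H X')}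
  (h' : Setup W X' D' Lam' κ' l' x' φ' p')

include h h'

/-- The projector to the external products of transcendental classes preserves algebraic
classes. -/
lemma Pi_alg {m : ℕ} {z : W.H (X.prod X')} (hz : z ∈ algClasses W (X.prod X') m) :
    extOp W (1 - p) (1 - p') z ∈ algClasses W (X.prod X') m := by
  have key : extOp W (1 - p) (1 - p') z =
      z - extOp W p 1 z - extOp W 1 p' (z - extOp W p 1 z) := by
    clear hz
    refine W.kunneth_induction (p := fun z => extOp W (1 - p) (1 - p') z =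
      z - extOp W p 1 z - extOp W 1 p' (z - extOp W p 1 z)) ?_ ?_ z
    · intro a b ha hb
      rw [map_add, ha, hb]
      simp only [map_add, map_sub]
      abel
    · intro i j a _ b _
      rw [extOp_tmul, extOp_tmul, map_sub (extOp W 1 p'), extOp_tmul, extOp_tmul]
      simp only [LinearMap.sub_apply, Module.End.one_apply, map_sub, sub_mul, mul_sub]
  rw [key]
  have h1 := alg_sub hz (alg_left h (X' := X') hz)
  exact alg_sub h1 (alg_right h' h1)

lemma Pi_TT (z : W.H (X.prod X')) : extOp W (1 - p) (1 - p') z ∈ TT W X X' := by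
  refine W.kunneth_induction (p := fun z => extOp W (1 - p) (1 - p') z ∈ TT W X X') ?_ ?_ z
  · intro a b ha hb
    rw [map_add]
    exact Submodule.add_mem _ ha hb
  · intro i j a _ b _
    rw [extOp_tmul]
    exact Submodule.subset_span ⟨_, h.compl_mem a, _, h'.compl_mem b, rfl⟩

lemma Pi_fix {v : W.H (X.prod X')} (hv : v ∈ TT W X X') :
    extOp W (1 - p) (1 - p') v = v := by
  rw [TT] at hv
  induction hv using Submodule.span_induction with
  | mem v hv =>
    obtain ⟨t, ht, t', ht', rfl⟩ := hv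
    rw [extOp_tmul, LinearMap.sub_apply, LinearMap.sub_apply, h.p_kill ht, h'.p_kill ht',
      sub_zero, sub_zero]
    rfl
  | zero => rw [map_zero]
  | add x y _ _ hx hy => rw [map_add, hx, hy]
  | smul c x _ hx => rw [map_smul, hx]

omit [Fintype κ] [Fintype κ'] h h' in
lemma eq_zero_of_gr {i j : ℕ} (hij : i ≠ j) {v : W.H X} (hi : v ∈ W.gr X i)
    (hj : v ∈ W.gr X j) : v = 0 := by
  rw [← proj_same (W.isInternal X) hi, proj_ne (W.isInternal X) hj hij.symm]

/-- Multiplication by the divisor kills the external products of transcendental classes. -/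
lemma L_TT (hmid : transcendental W X ≤ W.gr X X.dim)
    (hmid' : transcendental W X' ≤ W.gr X' X'.dim) {v : W.H (X.prod X')}
    (hv : v ∈ TT W X X') :
    LinearMap.mulLeft W.K (W.cl _ (ops.pull (fst X X') D + ops.pull (snd X X') D')) v = 0 := by
  rw [TT] at hv
  induction hv using Submodule.span_induction with
  | mem v hv =>
    obtain ⟨t, ht, t', ht', rfl⟩ := hv
    rw [mulLeft_prod h'.hD, extSum_tmul, LinearMap.mulLeft_apply, LinearMap.mulLeft_apply,
      h.alg_mul_trans hmid ⟨D, h.hD, rfl⟩ le_rfl ht,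
      h'.alg_mul_trans hmid' ⟨D', h'.hD, rfl⟩ le_rfl ht']
    simp
  | zero => rw [map_zero]
  | add x y _ _ hx hy => rw [map_add, hx, hy, add_zero]
  | smul c x _ hx => rw [map_smul, hx, smul_zero]

/-- **The external products of transcendental classes have a rational orthogonal basis.** -/
theorem exists_pairBasis (hmid : transcendental W X ≤ W.gr X X.dim)
    (hmid' : transcendental W X' ≤ W.gr X' X'.dim) (hE : ExternallyAlgebraic W X X')
    (hpos : ∀ b, 2 * b = X.dim + X'.dim → ∀ v ∈ TT W X X',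
      v ∈ algClasses W (X.prod X') b → v ≠ 0 →
      ∃ q : ℚ, 0 < q ∧ W.tr _ (v * v) = (((-1) ^ b * q : ℚ) : W.K)) :
    ∃ B, PairBasis W X X' B := by
  have h1 : TT W X X' ≤ Submodule.span W.K
      {v | v ∈ TT W X X' ∧ v ∈ algClasses W (X.prod X') ((X.dim + X'.dim) / 2)} := by
    have h2 : ∀ z ∈ Submodule.span W.K (⋃ j, algClasses W (X.prod X') j),
        extOp W (1 - p) (1 - p') z ∈ Submodule.span W.K
          {v | v ∈ TT W X X' ∧ v ∈ algClasses W (X.prod X') ((X.dim + X'.dim) / 2)} := by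
      intro z hz
      induction hz using Submodule.span_induction with
      | mem z hz =>
        obtain ⟨j, hj⟩ := Set.mem_iUnion.1 hz
        apply Submodule.subset_span
        have h3 := Pi_alg h h' hj
        have h4 := Pi_TT h h' z
        refine ⟨h4, ?_⟩
        by_cases h5 : 2 * j = X.dim + X'.dim
        · rwa [show (X.dim + X'.dim) / 2 = j by omega]
        · rw [eq_zero_of_gr h5 (alg_gr h3) (TT_gr hmid hmid' h4)]
          exact alg_zero _
      | zero => rw [map_zero]; exact Submodule.zero_mem _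
      | add x y _ _ hx hy => rw [map_add]; exact Submodule.add_mem _ hx hy
      | smul c x _ hx => rw [map_smul]; exact Submodule.smul_mem _ _ hx
    refine Submodule.span_le.2 ?_
    rintro _ ⟨t, ht, t', ht', rfl⟩
    have h3 : extOp W (1 - p) (1 - p') (W.map (fst X X') t * W.map (snd X X') t') ∈ _ :=
      h2 _ (hE t ht t' ht')
    rwa [Pi_fix h h' (Submodule.subset_span ⟨t, ht, t', ht', rfl⟩)] at h3
  obtain ⟨N, v, q, hv1, hv2, hq, hvv, hvv0, hsp⟩ := exists_ortho h1 (by
    intro v hv hva hv0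
    have h3 : 2 * ((X.dim + X'.dim) / 2) = X.dim + X'.dim := by
      by_contra hne
      exact hv0 (eq_zero_of_gr hne (alg_gr hva) (TT_gr hmid hmid' hv))
    exact hpos _ h3 v hv hva hv0)
  exact ⟨⟨N, v, q, _⟩, hv1, hv2, hq, hvv, hvv0, fun t ht t' ht' =>
    hsp (Submodule.subset_span ⟨t, ht, t', ht', rfl⟩)⟩

/-- Positivity from the conjecture of Hodge type. -/
theorem pos_of_hodge (hmid : transcendental W X ≤ W.gr X X.dim)
    (hmid' : transcendental W X' ≤ W.gr X' X'.dim)
    (hH : HodgeType W (X.prod X') (ops.pull (fst X X') D + ops.pull (snd X X') D'))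
    {b : ℕ} (hb : 2 * b = X.dim + X'.dim) {v : W.H (X.prod X')} (hv : v ∈ TT W X X')
    (hva : v ∈ algClasses W (X.prod X') b) (hv0 : v ≠ 0) :
    ∃ q : ℚ, 0 < q ∧ W.tr _ (v * v) = (((-1) ^ b * q : ℚ) : W.K) := by
  obtain ⟨z, hz, rfl⟩ := hva
  have h1 := hH b (by rw [dim_prod]; omega) z hz (by
    rw [cl_divPow, dim_prod, show X.dim + X'.dim - 2 * b + 1 = 1 by omega, pow_one]
    exact L_TT h h' hmid hmid' hv) hv0
  rw [dim_prod, show X.dim + X'.dim - 2 * b = 0 by omega] at h1
  refine ⟨_, h1, ?_⟩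
  have h2 := ops.mul_mem hz hz
  rw [show b + b = (X.prod X').dim by rw [dim_prod]; omega] at h2
  rw [← W.cl_mul, W.tr_cl h2, ← mul_assoc, ← mul_pow]
  simp [divPow]

end

section Main

variable {ι : Type w} {P : ι → Polarized 𝒱}

/-- Frames of all products. -/
theorem exists_frm (hD : ∀ j, (P j).X.IsCyc 1 (P j).D)
    (hHL : ∀ j, HardLefschetz W (P j).X (P j).D)
    (hmid : ∀ j, transcendental W (P j).X ≤ W.gr (P j).X (P j).X.dim)
    (hH : ∀ j, HodgeType W (P j).X (P j).D)
    (hB : ∀ i j, ∃ B, PairBasis W (P i).X (P j).X B) :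
    (∀ i, Member W (P i).X) ∧
      ∀ Q, IsProduct ops P Q → ∃ F : FrmData W P Q.X, Frm W P Q.X Q.D F := by
  have hA := fun j => lefschetzA_of_mid (hD j) (hHL j) (hmid j)
  have hM : ∀ i, Member W (P i).X := by
    intro i
    obtain ⟨Lam, κ, hκ, l, x, φ, p, hs⟩ := exists_setup (hD i) (hHL i) (hA i) (hH i)
    exact member hs (hmid i)
  refine ⟨hM, ?_⟩
  choose B hB using hB
  intro Q hQ
  induction hQ with
  | base j =>
    obtain ⟨Lam, κ, hκ, l, x, φ, p, hs⟩ := exists_setup (hD j) (hHL j) (hA j) (hH j)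
    exact ⟨_, base_frm hs (hmid j)⟩
  | prod _ _ hF hG =>
    obtain ⟨F, hF⟩ := hF
    obtain ⟨G, hG⟩ := hG
    exact ⟨_, prod_frm hF hG hM hB⟩

/-- The conjecture of Hodge type and the conjecture D for all products. -/
theorem main (hD : ∀ j, (P j).X.IsCyc 1 (P j).D)
    (hHL : ∀ j, HardLefschetz W (P j).X (P j).D)
    (hmid : ∀ j, transcendental W (P j).X ≤ W.gr (P j).X (P j).X.dim)
    (hH : ∀ j, HodgeType W (P j).X (P j).D)
    (hB : ∀ i j, ∃ B, PairBasis W (P i).X (P j).X B) (Q : Polarized 𝒱)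
    (hQ : IsProduct ops P Q) : HodgeType W Q.X Q.D ∧ HomEqNum W Q.X := by
  obtain ⟨hM, h1⟩ := exists_frm hD hHL hmid hH hB
  obtain ⟨F, hF⟩ := h1 Q hQ
  exact ⟨hF.hodgeType hM, hF.homEqNum hM⟩

/-- **The equivalence.** -/
theorem hodge_products_iff_pairs (hD : ∀ j, (P j).X.IsCyc 1 (P j).D)
    (hHL : ∀ j, HardLefschetz W (P j).X (P j).D)
    (hmid : ∀ j, transcendental W (P j).X ≤ W.gr (P j).X (P j).X.dim)
    (hE : ∀ i j, ExternallyAlgebraic W (P i).X (P j).X) :
    ((∀ j, HodgeType W (P j).X (P j).D) ∧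
      ∀ i j, HodgeType W ((P i).prod ops (P j)).X ((P i).prod ops (P j)).D) ↔
      ∀ Q, IsProduct ops P Q → HodgeType W Q.X Q.D ∧ HomEqNum W Q.X := by
  constructor
  · rintro ⟨hH, hH2⟩
    refine fun Q hQ => main hD hHL hmid hH ?_ Q hQ
    intro i j
    obtain ⟨Lam, κ, hκ, l, x, φ, p, hs⟩ := exists_setup (hD i) (hHL i)
      (lefschetzA_of_mid (hD i) (hHL i) (hmid i)) (hH i)
    obtain ⟨Lam', κ', hκ', l', x', φ', p', hs'⟩ := exists_setup (hD j) (hHL j)
      (lefschetzA_of_mid (hD j) (hHL j) (hmid j)) (hH j)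
    exact exists_pairBasis hs hs' (hmid i) (hmid j) (hE i j) (fun b hb v hv hva hv0 =>
      pos_of_hodge hs hs' (hmid i) (hmid j) (hH2 i j) hb hv hva hv0)
  · intro h
    exact ⟨fun j => (h _ (IsProduct.base j)).1,
      fun i j => (h _ (IsProduct.prod (IsProduct.base i) (IsProduct.base j))).1⟩

end Main

end Pool.Agent.H281R3.HT
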