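import Pool.Agent.H281R3.HT.Group

/-!
# The middle degree and the conjecture `A` from the conjecture `D`
-/

open CategoryTheory AlgebraicGeometry

universe u v w

namespace Pool.Agent.H281R3.HT

open Pool.Agent.H914 Pool.Agent.H914.VarClass Pool.Agent.H914.VarClass.Obj
  Pool.Agent.H914.WeilCohomology

variable {k : Type u} [Field k] {𝒱 : VarClass k} {ops : CycleOps 𝒱}
  {W : WeilCohomology.{u, v} ops} {X X' Y Z : 𝒱.Obj}

/-- A class orthogonal to all algebraic classes of complementary codimension is zero. -/
lemma eq_zero_of_D (hDX : HomEqNum W X) {j : ℕ} (hj : j ≤ X.dim) {c : W.H X}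
    (hc : c ∈ algClasses W X j)
    (h0 : ∀ d ∈ algClasses W X (X.dim - j), W.tr X (c * d) = 0) : c = 0 := by
  obtain ⟨z, hz, rfl⟩ := hc
  apply hDX j hj z hz
  intro w hw
  have h1 := h0 _ ⟨w, hw, rfl⟩
  have h2 := ops.mul_mem hz hw
  rw [show j + (X.dim - j) = X.dim by omega] at h2
  rw [← W.cl_mul, W.tr_cl h2] at h1
  exact_mod_cast h1

/-- **The conjecture `D` and hard Lefschetz imply the conjecture `A`.** -/
theorem lefschetzA_of_D {D : X.Cycles} (hD : X.IsCyc 1 D) (hHL : HardLefschetz W X D)
    (hDX : HomEqNum W X) : LefschetzA W X D := by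
  classical
  intro j hj z hz
  set L : Module.End W.K (W.H X) := LinearMap.mulLeft W.K (W.cl X D) with hL
  set e := X.dim - 2 * j with he
  obtain ⟨T, hTA, hTspan, hTli⟩ := exists_linearIndependent W.K (algClasses W X j)
  have hfin : T.Finite := hTli.setFinite
  have := hfin.fintype
  have hTc : ∀ i : T, (i : W.H X) ∈ algClasses W X j := fun i => hTA i.2
  have hLc : ∀ c ∈ algClasses W X j, (L ^ e) c ∈ algClasses W X (X.dim - j) := by
    rintro _ ⟨w, hw, rfl⟩
    have h1 := divPow_mem (ops := ops) hD e hw
    rw [show j + e = X.dim - j by omega] at h1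
    exact ⟨divPow ops D e w, h1, cl_divPow D e w⟩
  have hext : ∀ c ∈ algClasses W X (X.dim - j), (∀ k : T, W.tr X (c * k) = 0) → c = 0 := by
    intro c hc h0
    apply eq_zero_of_D hDX (show X.dim - j ≤ X.dim by omega) hc
    intro d hd
    rw [show X.dim - (X.dim - j) = j by omega] at hd
    have h1 : d ∈ Submodule.span W.K T := by
      rw [hTspan]
      exact Submodule.subset_span hd
    clear hd
    induction h1 using Submodule.span_induction with
    | mem b hb => exact h0 ⟨b, hb⟩
    | zero => rw [mul_zero, map_zero]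
    | add x y _ _ hx hy => rw [mul_add, map_add, hx, hy, add_zero]
    | smul r x _ hx => rw [mul_smul_comm, map_smul, hx, smul_zero]
  choose g hg using fun i k : T => alg_rat (hLc i (hTc i)) (hTc k)
  have hcomb : ∀ v : T → ℚ, ∀ k : T, W.tr X ((L ^ e) (∑ i : T, (v i : W.K) • (i : W.H X)) * k) =
      ((Matrix.vecMul v (Matrix.of g) k : ℚ) : W.K) := by
    intro v k
    rw [map_sum, Finset.sum_mul, map_sum, Matrix.vecMul, dotProduct]
    push_cast
    apply Finset.sum_congr rfl
    intro i _
    have h1 := hg i k
    rw [bil_apply] at h1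
    rw [map_smul, smul_mul_assoc, map_smul, h1, smul_eq_mul]
    rfl
  have hmemc : ∀ v : T → ℚ, ∑ i : T, (v i : W.K) • (i : W.H X) ∈ algClasses W X j := fun v =>
    alg_sum Finset.univ _ v (fun i _ => hTc i)
  have hsurj : Function.Surjective (Matrix.vecMulLinear (Matrix.of g)) := by
    apply LinearMap.surjective_of_injective
    rw [← LinearMap.ker_eq_bot, LinearMap.ker_eq_bot']
    intro v hv
    have h1 : (L ^ e) (∑ i : T, (v i : W.K) • (i : W.H X)) = 0 := by
      apply hext _ (hLc _ (hmemc v))
      intro k
      rw [hcomb]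
      have := congrFun hv k
      rw [Matrix.vecMulLinear_apply] at this
      rw [this, Pi.zero_apply, Rat.cast_zero]
    have h3 := (hHL (2 * j) hj).1 _ (alg_gr (hmemc v)) h1
    have h2 := Fintype.linearIndependent_iff.1 hTli _ h3
    funext i
    have := h2 i
    exact_mod_cast this
  choose r hr using fun k : T => alg_rat (W := W) ⟨z, hz, rfl⟩ (hTc k)
  obtain ⟨v, hv⟩ := hsurj r
  obtain ⟨z', hz', hzv⟩ := hmemc v
  refine ⟨z', hz', ?_⟩
  rw [cl_divPow, hzv, ← sub_eq_zero]
  apply hext
  · exact alg_sub (hLc _ (hmemc v)) ⟨z, hz, rfl⟩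
  · intro k
    have h1 := hr k
    rw [bil_apply] at h1
    rw [sub_mul, map_sub, hcomb, h1]
    have := congrFun hv k
    rw [Matrix.vecMulLinear_apply] at this
    rw [this, sub_self]

/-- Projections to the components preserve the transcendental cohomology. -/
lemma proj_trans {t : W.H X} (ht : t ∈ transcendental W X) (i : ℕ) :
    proj (W.isInternal X) i t ∈ transcendental W X := by
  rw [mem_trans]
  intro j c hc
  by_cases hi : i + 2 * j = 2 * X.dim
  · have h1 : ∀ t : W.H X, W.tr X (proj (W.isInternal X) i t * c) = W.tr X (t * c) := by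
      intro t
      refine gr_induction (W.isInternal X)
        (p := fun t => W.tr X (proj (W.isInternal X) i t * c) = W.tr X (t * c)) ?_ ?_ t
      · intro l b hb
        by_cases hl : l = i
        · subst hl; rw [proj_same _ hb]
        · rw [proj_ne _ hb hl, zero_mul, map_zero,
            W.tr_eq_zero (W.mul_mem hb (alg_gr hc)) (by omega)]
      · intro b b' hb hb'
        rw [map_add, add_mul, add_mul, map_add, map_add, hb, hb']
    rw [bil_apply, h1]
    exact mem_trans.1 ht j c hc
  · exact bil_eq_zero (proj_mem _ i t) (alg_gr hc) hi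

/-- Projections to the components commute with pull-backs. -/
lemma proj_map (g : X ⟶ Y) (i : ℕ) (a : W.H Y) :
    proj (W.isInternal X) i (W.map g a) = W.map g (proj (W.isInternal Y) i a) := by
  refine gr_induction (W.isInternal Y)
    (p := fun a => proj (W.isInternal X) i (W.map g a) =
      W.map g (proj (W.isInternal Y) i a)) ?_ ?_ a
  · intro l b hb
    by_cases hl : l = i
    · subst hl; rw [proj_same _ hb, proj_same _ (W.map_mem g hb)]
    · rw [proj_ne _ hb hl, proj_ne _ (W.map_mem g hb) hl, map_zero]
  · intro b b' hb hb'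
    simp only [map_add, hb, hb']

/-- An irreducible transcendental part lies in the middle degree, if the cohomology is the sum of
the algebraic and the transcendental part. -/
theorem mid_of_irreducible (A : FinAction ops X) (hA : A.AbsIrreducible W)
    (hsplit : ∀ y : W.H X, ∃ a ∈ Submodule.span W.K {c | ∃ j, c ∈ algClasses W X j},
      y - a ∈ transcendental W X) :
    transcendental W X ≤ W.gr X X.dim := by
  classical
  have h1 : ∀ i, ∃ c : W.K, ∀ t ∈ transcendental W X, proj (W.isInternal X) i t = c • t :=
    fun i => hA (proj (W.isInternal X) i) (fun t ht => proj_trans ht i)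
      (fun g t _ => proj_map _ i t)
  choose c hc using h1
  have horth : ∀ t ∈ transcendental W X,
      ∀ a ∈ Submodule.span W.K {c | ∃ j, c ∈ algClasses W X j}, W.tr X (t * a) = 0 := by
    intro t ht a ha
    induction ha using Submodule.span_induction with
    | mem c hc =>
      obtain ⟨j, hc⟩ := hc
      exact mem_trans.1 ht j c hc
    | zero => rw [mul_zero, map_zero]
    | add x y _ _ hx hy => rw [mul_add, map_add, hx, hy, add_zero]
    | smul r x _ hx => rw [mul_smul_comm, map_smul, hx, smul_zero]
  -- every component outside the middle degree is zero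
  have h2 : ∀ i, i ≠ X.dim → ∀ t ∈ transcendental W X, proj (W.isInternal X) i t = 0 := by
    intro i hi t ht
    by_cases hci : c i = 0
    · rw [hc i t ht, hci, zero_smul]
    · have h3 : ∀ s ∈ transcendental W X, s ∈ W.gr X i := by
        intro s hs
        have h4 : s = (c i)⁻¹ • proj (W.isInternal X) i s := by
          rw [hc i s hs, smul_smul, inv_mul_cancel₀ hci, one_smul]
        rw [h4]
        exact Submodule.smul_mem _ _ (proj_mem _ i s)
      have h4 : proj (W.isInternal X) i t = 0 := by
        apply W.nondeg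
        intro y
        obtain ⟨a, ha, hya⟩ := hsplit y
        have h5 := horth _ (proj_trans ht i) a ha
        have h6 : W.tr X (proj (W.isInternal X) i t * (y - a)) = 0 :=
          W.tr_eq_zero (W.mul_mem (proj_mem _ i t) (h3 _ hya)) (by omega)
        rw [mul_sub, map_sub, h5, sub_zero] at h6
        exact h6
      exact h4
  intro t ht
  have h3 : t = proj (W.isInternal X) X.dim t := by
    have h4 := sum_proj (W.isInternal X) (N := 2 * X.dim + 1)
      (fun i hi => W.gr_eq_bot X i (by omega))
    have h5 := congrArg (fun F => F t) h4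
    beta_reduce at h5
    rw [LinearMap.sum_apply, Finset.sum_eq_single X.dim] at h5
    · exact h5.symm
    · intro i _ hi
      exact h2 i hi t ht
    · intro h6
      exact absurd (Finset.mem_range.2 (by omega)) h6
  rw [h3]
  exact proj_mem _ _ _

section Main

variable {ι : Type w} {P : ι → Polarized 𝒱}

/-- **The equivalence for finite group actions, without assumption on the degrees.** -/
theorem hodge_products_iff_action' (hD : ∀ j, (P j).X.IsCyc 1 (P j).D)
    (hHL : ∀ j, HardLefschetz W (P j).X (P j).D)
    (hij : ∀ i j, (P i).X = (P j).X ∨ NoTranscendental W (P i).X ∨ NoTranscendental W (P j).X)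
    (hA : ∀ j, ∃ A : FinAction ops (P j).X, A.AbsIrreducible W) :
    (∀ j, HodgeType W (P j).X (P j).D ∧ HomEqNum W (P j).X) ↔
      ∀ Q, IsProduct ops P Q → ∀ Y, Covers W Q Y → Y.X.IsCyc 1 Y.D →
        HodgeType W Y.X Y.D ∧ HomEqNum W Y.X := by
  constructor
  · intro hH
    have hmid : ∀ j, transcendental W (P j).X ≤ W.gr (P j).X (P j).X.dim := by
      intro j
      obtain ⟨Lam, κ, hκ, l, x, φ, p, hs⟩ := exists_setup (hD j) (hHL j)
        (lefschetzA_of_D (hD j) (hHL j) (hH j).2) (hH j).1
      obtain ⟨A, hA⟩ := hA j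
      exact mid_of_irreducible A hA (fun y => ⟨p y, hs.p_span y, hs.compl_mem y⟩)
    exact (hodge_products_iff_action hD hHL hmid hij hA).1 (fun j => (hH j).1)
  · intro h j
    refine h _ (IsProduct.base j) (P j) ⟨rfl, 𝟙 _, ⟨1, one_pos, ?_⟩, ?_⟩ (hD j)
    · rw [W.push_id, Rat.cast_one, one_smul]
    · rw [W.map_id]

end Main

end Pool.Agent.H281R3.HT
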