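import Pool.Agent.H281R3.HT.Prod

/-!
# Rational frames of the cohomology of a product: the product of two frames is a frame
-/

open CategoryTheory AlgebraicGeometry

universe u v w

namespace Pool.Agent.H281R3.HT

open Pool.Agent.H914 Pool.Agent.H914.VarClass Pool.Agent.H914.VarClass.Obj
  Pool.Agent.H914.WeilCohomology

variable {k : Type u} [Field k] {𝒱 : VarClass k} {ops : CycleOps 𝒱}
  {W : WeilCohomology.{u, v} ops} {X X' Y Z : 𝒱.Obj}

lemma odd_left (n : W.H Y) {e : W.H Z} {i : ℕ} (he : e ∈ algClasses W Z i) (g : Y ⟶ X)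
    (t : W.H X) : W.map (fst Y Z) n * W.map (snd Y Z) e * W.map (fst Y Z ≫ g) t =
      W.map (fst Y Z) (n * W.map g t) * W.map (snd Y Z) e := by
  have h1 : W.map (snd Y Z) e * W.map (fst Y Z) (W.map g t) =
      W.map (fst Y Z) (W.map g t) * W.map (snd Y Z) e :=
    W.even_comm (W.map_mem _ (alg_gr he)) _
  rw [W.map_comp, map_mul, mul_assoc, h1, mul_assoc]

lemma odd_right (e : W.H Y) (n : W.H Z) (g : Z ⟶ X)
    (t : W.H X) : W.map (fst Y Z) e * W.map (snd Y Z) n * W.map (snd Y Z ≫ g) t =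
      W.map (fst Y Z) e * W.map (snd Y Z) (n * W.map g t) := by
  rw [W.map_comp, map_mul, mul_assoc]

/-- The product of a mixed class of the first factor and a rational class of the second. -/
noncomputable def nl {ι : Type w} {P : ι → Polarized 𝒱} (F : FrmData W P Y) (G : FrmData W P Z)
    (β : F.I1) (α' : G.I0) (t : W.H (P (F.j β)).X) : W.H (Y.prod Z) :=
  W.map (fst Y Z) (F.n β) * W.map (snd Y Z) (G.e α') * W.map (fst Y Z ≫ F.g β) t

/-- The product of a rational class of the first factor and a mixed class of the second. -/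
noncomputable def nr {ι : Type w} {P : ι → Polarized 𝒱} (F : FrmData W P Y) (G : FrmData W P Z)
    (α : F.I0) (β' : G.I1) (t : W.H (P (G.j β')).X) : W.H (Y.prod Z) :=
  W.map (fst Y Z) (F.e α) * W.map (snd Y Z) (G.n β') * W.map (snd Y Z ≫ G.g β') t

lemma nl_eq {ι : Type w} {P : ι → Polarized 𝒱} {E : Z.Cycles} {F : FrmData W P Y}
    {G : FrmData W P Z} (hG : Frm W P Z E G) (β : F.I1) (α' : G.I0) (t : W.H (P (F.j β)).X) :
    nl F G β α' t = W.map (fst Y Z) (F.n β * W.map (F.g β) t) * W.map (snd Y Z) (G.e α') :=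
  odd_left _ (hG.e_mem α') _ _

lemma nr_eq {ι : Type w} {P : ι → Polarized 𝒱} {F : FrmData W P Y}
    {G : FrmData W P Z} (α : F.I0) (β' : G.I1) (t : W.H (P (G.j β')).X) :
    nr F G α β' t = W.map (fst Y Z) (F.e α) * W.map (snd Y Z) (G.n β' * W.map (G.g β') t) :=
  odd_right _ _ _ _

section

variable {ι : Type w} {P : ι → Polarized 𝒱} {D : Y.Cycles} {E : Z.Cycles}
  {F : FrmData W P Y} {G : FrmData W P Z} {B : ∀ i j, PairData W (P i).X (P j).X}
  (hF : Frm W P Y D F) (hG : Frm W P Z E G) (hM : ∀ i, Member W (P i).X)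
  (hB : ∀ i j, PairBasis W (P i).X (P j).X (B i j))

include hF hG

lemma prod_sl2 : Sl2 (wt (W.isInternal (Y.prod Z)) (Y.prod Z).dim)
    (LinearMap.mulLeft W.K (W.cl (Y.prod Z) (ops.pull (fst Y Z) D + ops.pull (snd Y Z) E)))
    (extSum W F.f G.f) := by
  rw [wt_prod, mulLeft_prod hG.hD]
  exact sl2_prod hF.sl2 hG.sl2

include hB

lemma prod_e_mem (α : (prodData D E F G B).I0) :
    (prodData D E F G B).e α ∈ algClasses W (Y.prod Z) ((prodData D E F G B).a α) := by
  rcases α with x | ⟨β, β', l⟩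
  · exact alg_mul (alg_map _ (hF.e_mem x.1)) (alg_map _ (hG.e_mem x.2))
  · exact alg_mul (alg_mul (alg_map _ (hF.n_mem β)) (alg_map _ (hG.n_mem β')))
      (alg_map _ ((hB _ _).mem l))

lemma prod_we_mem (α : (prodData D E F G B).I0) :
    ∃ i, wp W D E F.f G.f ((prodData D E F G B).e α) ∈ algClasses W (Y.prod Z) i := by
  rcases α with x | ⟨β, β', l⟩
  · obtain ⟨i, hi⟩ := hF.we_mem x.1
    obtain ⟨j, hj⟩ := hG.we_mem x.2
    refine ⟨i + j, ?_⟩
    change wp W D E F.f G.f (W.map (fst Y Z) (F.e x.1) * W.map (snd Y Z) (G.e x.2)) ∈ _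
    rw [wp_tmul hF hG]
    exact alg_mul (alg_map _ hi) (alg_map _ hj)
  · obtain ⟨i, hi⟩ := hF.m_mem β
    obtain ⟨j, hj⟩ := hG.m_mem β'
    refine ⟨i + j + (B (F.j β) (G.j β')).b, ?_⟩
    change wp W D E F.f G.f
      (Psi W (F.n β) (G.n β') (F.g β) (G.g β') ((B (F.j β) (G.j β')).v l)) ∈ _
    rw [wp_psi hF hG β β' ((hB _ _).tt l)]
    exact alg_mul (alg_mul (alg_map _ hi) (alg_map _ hj)) (alg_map _ ((hB _ _).mem l))

lemma prod_d_pos (α : (prodData D E F G B).I0) : 0 < (prodData D E F G B).d α := by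
  rcases α with x | ⟨β, β', l⟩
  · exact mul_pos (hF.d_pos x.1) (hG.d_pos x.2)
  · exact mul_pos (mul_pos (hF.r_pos β) (hG.r_pos β')) ((hB _ _).pos l)

include hM

lemma prod_ee (α : (prodData D E F G B).I0) :
    W.tr (Y.prod Z) ((prodData D E F G B).e α * wp W D E F.f G.f ((prodData D E F G B).e α)) =
      (((-1) ^ (prodData D E F G B).a α * (prodData D E F G B).d α : ℚ) : W.K) := by
  rcases α with x | ⟨β, β', l⟩
  · change W.tr (Y.prod Z) (W.map (fst Y Z) (F.e x.1) * W.map (snd Y Z) (G.e x.2) *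
      wp W D E F.f G.f (W.map (fst Y Z) (F.e x.1) * W.map (snd Y Z) (G.e x.2))) =
      (((-1) ^ (F.a x.1 + G.a x.2) * (F.d x.1 * G.d x.2) : ℚ) : W.K)
    rw [form_even hF hG (gr_e hG x.2), hF.ee, hG.ee]
    push_cast
    ring
  · change W.tr (Y.prod Z)
      (Psi W (F.n β) (G.n β') (F.g β) (G.g β') ((B (F.j β) (G.j β')).v l) *
      wp W D E F.f G.f
      (Psi W (F.n β) (G.n β') (F.g β) (G.g β') ((B (F.j β) (G.j β')).v l))) =
      (((-1) ^ (F.c β + G.c β' + (B (F.j β) (G.j β')).b) *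
        (F.r β * G.r β' * (B (F.j β) (G.j β')).q l) : ℚ) : W.K)
    rw [form_psi hF hG hM β β' ((hB _ _).tt l) ((hB _ _).tt l), (hB _ _).vv]
    push_cast
    ring

lemma prod_ee0 (α α' : (prodData D E F G B).I0) (hα : α ≠ α') :
    W.tr (Y.prod Z)
      ((prodData D E F G B).e α * wp W D E F.f G.f ((prodData D E F G B).e α')) = 0 := by
  rcases α with x | ⟨β, β', l⟩
  · rcases α' with y | ⟨γ, γ', l'⟩
    · change W.tr (Y.prod Z) (W.map (fst Y Z) (F.e x.1) * W.map (snd Y Z) (G.e x.2) *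
        wp W D E F.f G.f (W.map (fst Y Z) (F.e y.1) * W.map (snd Y Z) (G.e y.2))) = 0
      rw [form_even hF hG (gr_e hG x.2)]
      by_cases h1 : x.1 = y.1
      · by_cases h2 : x.2 = y.2
        · exact absurd (congrArg Sum.inl (Prod.ext h1 h2)) hα
        · rw [hG.ee0 _ _ h2, mul_zero]
      · rw [hF.ee0 _ _ h1, zero_mul]
    · change W.tr (Y.prod Z) (W.map (fst Y Z) (F.e x.1) * W.map (snd Y Z) (G.e x.2) *
        wp W D E F.f G.f
        (Psi W (F.n γ) (G.n γ') (F.g γ) (G.g γ') ((B (F.j γ) (G.j γ')).v l'))) = 0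
      exact form_psi_right hF hG hM (gr_e hG x.2) γ γ' (Or.inl (hF.en0 x.1 γ)) ((hB _ _).tt l')
  · rcases α' with y | ⟨γ, γ', l'⟩
    · change W.tr (Y.prod Z)
        (Psi W (F.n β) (G.n β') (F.g β) (G.g β') ((B (F.j β) (G.j β')).v l) *
        wp W D E F.f G.f (W.map (fst Y Z) (F.e y.1) * W.map (snd Y Z) (G.e y.2))) = 0
      refine form_psi_left hG (fun t ht s hs => ?_) ((hB _ _).tt l)
      rw [form_even hF hG (gr_n hG hM β' hs), hF.ne0 _ _ t ht, zero_mul]
    · change W.tr (Y.prod Z)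
        (Psi W (F.n β) (G.n β') (F.g β) (G.g β') ((B (F.j β) (G.j β')).v l) *
        wp W D E F.f G.f
        (Psi W (F.n γ) (G.n γ') (F.g γ) (G.g γ') ((B (F.j γ) (G.j γ')).v l'))) = 0
      by_cases h1 : β = γ
      · subst h1
        by_cases h2 : β' = γ'
        · subst h2
          rw [form_psi hF hG hM β β' ((hB _ _).tt l) ((hB _ _).tt l'),
            (hB _ _).vv0 l l' (fun h => hα (by rw [h])), mul_zero]
        · refine form_psi_left hG (fun t ht s hs => ?_) ((hB _ _).tt l)
          exact form_psi_right hF hG hM (gr_n hG hM β' hs) β γ'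
            (Or.inr (fun s' hs' => hG.nn0 _ _ h2 s hs s' hs')) ((hB _ _).tt l')
      · refine form_psi_left hG (fun t ht s hs => ?_) ((hB _ _).tt l)
        exact form_psi_right hF hG hM (gr_n hG hM β' hs) γ γ'
          (Or.inl (fun t' ht' => hF.nn0 _ _ h1 t ht t' ht')) ((hB _ _).tt l')

omit hM hB in
lemma prod_n_mem (β : (prodData D E F G B).I1) :
    (prodData D E F G B).n β ∈ algClasses W (Y.prod Z) ((prodData D E F G B).c β) := by
  rcases β with x | x
  · exact alg_mul (alg_map _ (hF.n_mem x.1)) (alg_map _ (hG.e_mem x.2))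
  · exact alg_mul (alg_map _ (hF.e_mem x.1)) (alg_map _ (hG.n_mem x.2))

omit hM hB in
lemma prod_m_mem (β : (prodData D E F G B).I1) :
    ∃ i, (prodData D E F G B).m β ∈ algClasses W (Y.prod Z) i := by
  rcases β with x | x
  · obtain ⟨i, hi⟩ := hF.m_mem x.1
    obtain ⟨j, hj⟩ := hG.we_mem x.2
    exact ⟨i + j, alg_mul (alg_map _ hi) (alg_map _ hj)⟩
  · obtain ⟨i, hi⟩ := hF.we_mem x.1
    obtain ⟨j, hj⟩ := hG.m_mem x.2
    exact ⟨i + j, alg_mul (alg_map _ hi) (alg_map _ hj)⟩

omit hM hB in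
lemma prod_r_pos (β : (prodData D E F G B).I1) : 0 < (prodData D E F G B).r β := by
  rcases β with x | x
  · exact mul_pos (hF.r_pos x.1) (hG.d_pos x.2)
  · exact mul_pos (hF.d_pos x.1) (hG.r_pos x.2)

omit hM hB in
lemma prod_w_n (β : (prodData D E F G B).I1)
    (t : W.H (P ((prodData D E F G B).j β)).X)
    (ht : t ∈ transcendental W (P ((prodData D E F G B).j β)).X) :
    wp W D E F.f G.f ((prodData D E F G B).n β * W.map ((prodData D E F G B).g β) t) =
      (prodData D E F G B).m β * W.map ((prodData D E F G B).g β) t := by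
  rcases β with ⟨β, α'⟩ | ⟨α, β'⟩
  · have key : ∀ t ∈ transcendental W (P (F.j β)).X, wp W D E F.f G.f (nl F G β α' t) =
        W.map (fst Y Z) (F.m β) * W.map (snd Y Z) (wop W Z E G.f (G.e α')) *
          W.map (fst Y Z ≫ F.g β) t := by
      intro t ht
      obtain ⟨j, hj⟩ := hG.we_mem α'
      rw [nl_eq hG, wp_tmul hF hG, hF.w_n β t ht, odd_left _ hj]
    exact key t ht
  · have key : ∀ t ∈ transcendental W (P (G.j β')).X, wp W D E F.f G.f (nr F G α β' t) =
        W.map (fst Y Z) (wop W Y D F.f (F.e α)) * W.map (snd Y Z) (G.m β') *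
          W.map (snd Y Z ≫ G.g β') t := by
      intro t ht
      rw [nr_eq, wp_tmul hF hG, hG.w_n β' t ht, odd_right]
    exact key t ht

omit hB in
lemma prod_nn (β : (prodData D E F G B).I1)
    (t : W.H (P ((prodData D E F G B).j β)).X)
    (ht : t ∈ transcendental W (P ((prodData D E F G B).j β)).X)
    (t' : W.H (P ((prodData D E F G B).j β)).X)
    (ht' : t' ∈ transcendental W (P ((prodData D E F G B).j β)).X) :
    W.tr (Y.prod Z) ((prodData D E F G B).n β * W.map ((prodData D E F G B).g β) t *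
      wp W D E F.f G.f ((prodData D E F G B).n β * W.map ((prodData D E F G B).g β) t')) =
      (((-1) ^ (prodData D E F G B).c β * (prodData D E F G B).r β : ℚ) : W.K) *
        W.tr _ (t * t') := by
  rcases β with ⟨β, α'⟩ | ⟨α, β'⟩
  · have key : ∀ t ∈ transcendental W (P (F.j β)).X, ∀ t' ∈ transcendental W (P (F.j β)).X,
        W.tr _ (nl F G β α' t * wp W D E F.f G.f (nl F G β α' t')) =
        (((-1) ^ (F.c β + G.a α') * (F.r β * G.d α') : ℚ) : W.K) * W.tr _ (t * t') := by
      intro t ht t' ht'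
      obtain ⟨i, hi⟩ := hF.m_mem β
      have h1 : wop W Y D F.f (F.n β * W.map (F.g β) t') ∈
          W.gr Y (2 * i + (P (F.j β)).X.dim) := by
        rw [hF.w_n β t' ht']
        exact W.mul_mem (alg_gr hi) (W.map_mem _ ((hM _).mid ht'))
      rw [nl_eq hG, nl_eq hG, form_mul hF.sl2 hG.sl2 hG.hD (gr_e hG α') h1, neg_one_pow_even,
        one_mul, hF.nn β t ht t' ht', hG.ee]
      push_cast
      ring
    exact key t ht t' ht'
  · have key : ∀ t ∈ transcendental W (P (G.j β')).X, ∀ t' ∈ transcendental W (P (G.j β')).X,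
        W.tr _ (nr F G α β' t * wp W D E F.f G.f (nr F G α β' t')) =
        (((-1) ^ (F.a α + G.c β') * (F.d α * G.r β') : ℚ) : W.K) * W.tr _ (t * t') := by
      intro t ht t' ht'
      rw [nr_eq, nr_eq, form_even hF hG (gr_n hG hM β' ht), hF.ee, hG.nn β' t ht t' ht']
      push_cast
      ring
    exact key t ht t' ht'

omit hB in
lemma prod_nn0 (β β' : (prodData D E F G B).I1) (hne : β ≠ β')
    (t : W.H (P ((prodData D E F G B).j β)).X)
    (ht : t ∈ transcendental W (P ((prodData D E F G B).j β)).X)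
    (t' : W.H (P ((prodData D E F G B).j β')).X)
    (ht' : t' ∈ transcendental W (P ((prodData D E F G B).j β')).X) :
    W.tr (Y.prod Z) ((prodData D E F G B).n β * W.map ((prodData D E F G B).g β) t *
      wp W D E F.f G.f
        ((prodData D E F G B).n β' * W.map ((prodData D E F G B).g β') t')) = 0 := by
  rcases β with ⟨β, α⟩ | ⟨α, β⟩
  · rcases β' with ⟨γ, γ'⟩ | ⟨γ', γ⟩
    · have key : ∀ t ∈ transcendental W (P (F.j β)).X, ∀ t' ∈ transcendental W (P (F.j γ)).X,
          W.tr _ (nl F G β α t * wp W D E F.f G.f (nl F G γ γ' t')) = 0 := by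
        intro t ht t' ht'
        rw [nl_eq hG, nl_eq hG]
        obtain ⟨s, hs⟩ := form_odd hF hG hM (x := F.n β * W.map (F.g β) t) (gr_e hG α) γ ht'
          (G.e γ')
        rw [hs]
        by_cases h1 : β = γ
        · by_cases h2 : α = γ'
          · exact absurd (by rw [h1, h2]) hne
          · rw [hG.ee0 _ _ h2, mul_zero, mul_zero]
        · rw [hF.nn0 _ _ h1 t ht t' ht', zero_mul, mul_zero]
      exact key t ht t' ht'
    · have key : ∀ t ∈ transcendental W (P (F.j β)).X, ∀ t' ∈ transcendental W (P (G.j γ)).X,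
          W.tr _ (nl F G β α t * wp W D E F.f G.f (nr F G γ' γ t')) = 0 := by
        intro t ht t' ht'
        rw [nl_eq hG, nr_eq, form_even hF hG (gr_e hG α), hF.ne0 _ _ t ht, zero_mul]
      exact key t ht t' ht'
  · rcases β' with ⟨γ, γ'⟩ | ⟨γ', γ⟩
    · have key : ∀ t ∈ transcendental W (P (G.j β)).X, ∀ t' ∈ transcendental W (P (F.j γ)).X,
          W.tr _ (nr F G α β t * wp W D E F.f G.f (nl F G γ γ' t')) = 0 := by
        intro t ht t' ht'
        rw [nl_eq hG, nr_eq]
        obtain ⟨s, hs⟩ := form_odd hF hG hM (x := F.e α) (gr_n hG hM β ht) γ ht' (G.e γ')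
        rw [hs, hF.en0 _ _ t' ht', zero_mul, mul_zero]
      exact key t ht t' ht'
    · have key : ∀ t ∈ transcendental W (P (G.j β)).X, ∀ t' ∈ transcendental W (P (G.j γ)).X,
          W.tr _ (nr F G α β t * wp W D E F.f G.f (nr F G γ' γ t')) = 0 := by
        intro t ht t' ht'
        rw [nr_eq, nr_eq, form_even hF hG (gr_n hG hM β ht)]
        by_cases h1 : α = γ'
        · by_cases h2 : β = γ
          · exact absurd (by rw [h1, h2]) hne
          · rw [hG.nn0 _ _ h2 t ht t' ht', mul_zero]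
        · rw [hF.ee0 _ _ h1, zero_mul]
      exact key t ht t' ht'

lemma prod_en0 (α : (prodData D E F G B).I0) (β : (prodData D E F G B).I1)
    (t : W.H (P ((prodData D E F G B).j β)).X)
    (ht : t ∈ transcendental W (P ((prodData D E F G B).j β)).X) :
    W.tr (Y.prod Z) ((prodData D E F G B).e α *
      wp W D E F.f G.f ((prodData D E F G B).n β * W.map ((prodData D E F G B).g β) t)) = 0 := by
  rcases α with x | ⟨γ, γ', l⟩
  · rcases β with ⟨β, α'⟩ | ⟨α', β⟩
    · have key : ∀ t ∈ transcendental W (P (F.j β)).X,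
          W.tr _ (W.map (fst Y Z) (F.e x.1) * W.map (snd Y Z) (G.e x.2) *
            wp W D E F.f G.f (nl F G β α' t)) = 0 := by
        intro t ht
        rw [nl_eq hG]
        obtain ⟨s, hs⟩ := form_odd hF hG hM (x := F.e x.1) (gr_e hG x.2) β ht (G.e α')
        rw [hs, hF.en0 _ _ t ht, zero_mul, mul_zero]
      exact key t ht
    · have key : ∀ t ∈ transcendental W (P (G.j β)).X,
          W.tr _ (W.map (fst Y Z) (F.e x.1) * W.map (snd Y Z) (G.e x.2) *
            wp W D E F.f G.f (nr F G α' β t)) = 0 := by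
        intro t ht
        rw [nr_eq, form_even hF hG (gr_e hG x.2), hG.en0 _ _ t ht, mul_zero]
      exact key t ht
  · rcases β with ⟨β, α'⟩ | ⟨α', β⟩
    · have key : ∀ t ∈ transcendental W (P (F.j β)).X,
          W.tr _ (Psi W (F.n γ) (G.n γ') (F.g γ) (G.g γ') ((B (F.j γ) (G.j γ')).v l) *
            wp W D E F.f G.f (nl F G β α' t)) = 0 := by
        intro t ht
        rw [nl_eq hG]
        refine form_psi_left hG (fun t1 ht1 s1 hs1 => ?_) ((hB _ _).tt l)
        obtain ⟨s, hs⟩ := form_odd hF hG hM (x := F.n γ * W.map (F.g γ) t1)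
          (gr_n hG hM γ' hs1) β ht (G.e α')
        rw [hs, hG.ne0 _ _ s1 hs1, mul_zero, mul_zero]
      exact key t ht
    · have key : ∀ t ∈ transcendental W (P (G.j β)).X,
          W.tr _ (Psi W (F.n γ) (G.n γ') (F.g γ) (G.g γ') ((B (F.j γ) (G.j γ')).v l) *
            wp W D E F.f G.f (nr F G α' β t)) = 0 := by
        intro t ht
        rw [nr_eq]
        refine form_psi_left hG (fun t1 ht1 s1 hs1 => ?_) ((hB _ _).tt l)
        rw [form_even hF hG (gr_n hG hM γ' hs1), hF.ne0 _ _ t1 ht1, zero_mul]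
      exact key t ht

lemma prod_ne0 (α : (prodData D E F G B).I0) (β : (prodData D E F G B).I1)
    (t : W.H (P ((prodData D E F G B).j β)).X)
    (ht : t ∈ transcendental W (P ((prodData D E F G B).j β)).X) :
    W.tr (Y.prod Z) ((prodData D E F G B).n β * W.map ((prodData D E F G B).g β) t *
      wp W D E F.f G.f ((prodData D E F G B).e α)) = 0 := by
  rcases α with x | ⟨γ, γ', l⟩
  · rcases β with ⟨β, α'⟩ | ⟨α', β⟩
    · have key : ∀ t ∈ transcendental W (P (F.j β)).X, W.tr _ (nl F G β α' t *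
          wp W D E F.f G.f (W.map (fst Y Z) (F.e x.1) * W.map (snd Y Z) (G.e x.2))) = 0 := by
        intro t ht
        rw [nl_eq hG, form_even hF hG (gr_e hG α'), hF.ne0 _ _ t ht, zero_mul]
      exact key t ht
    · have key : ∀ t ∈ transcendental W (P (G.j β)).X, W.tr _ (nr F G α' β t *
          wp W D E F.f G.f (W.map (fst Y Z) (F.e x.1) * W.map (snd Y Z) (G.e x.2))) = 0 := by
        intro t ht
        rw [nr_eq, form_even hF hG (gr_n hG hM β ht), hG.ne0 _ _ t ht, mul_zero]
      exact key t ht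
  · rcases β with ⟨β, α'⟩ | ⟨α', β⟩
    · have key : ∀ t ∈ transcendental W (P (F.j β)).X, W.tr _ (nl F G β α' t *
          wp W D E F.f G.f
            (Psi W (F.n γ) (G.n γ') (F.g γ) (G.g γ') ((B (F.j γ) (G.j γ')).v l))) = 0 := by
        intro t ht
        rw [nl_eq hG]
        exact form_psi_right hF hG hM (gr_e hG α') γ γ'
          (Or.inr (fun s hs => hG.en0 _ _ s hs)) ((hB _ _).tt l)
      exact key t ht
    · have key : ∀ t ∈ transcendental W (P (G.j β)).X, W.tr _ (nr F G α' β t *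
          wp W D E F.f G.f
            (Psi W (F.n γ) (G.n γ') (F.g γ) (G.g γ') ((B (F.j γ) (G.j γ')).v l))) = 0 := by
        intro t ht
        rw [nr_eq]
        exact form_psi_right hF hG hM (gr_n hG hM β ht) γ γ'
          (Or.inl (fun s hs => hF.en0 _ _ s hs)) ((hB _ _).tt l)
      exact key t ht

omit hM in
lemma prod_span (y : W.H (Y.prod Z)) :
    y ∈ Submodule.span W.K (Set.range (prodData D E F G B).e ∪
      {y | ∃ β, ∃ t ∈ transcendental W (P ((prodData D E F G B).j β)).X,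
        y = (prodData D E F G B).n β * W.map ((prodData D E F G B).g β) t}) := by
  refine W.kunneth_induction (p := fun y => y ∈ Submodule.span W.K
    (Set.range (prodData D E F G B).e ∪
      {y | ∃ β, ∃ t ∈ transcendental W (P ((prodData D E F G B).j β)).X,
        y = (prodData D E F G B).n β * W.map ((prodData D E F G B).g β) t})) ?_ ?_ y
  · intro a b ha hb
    exact Submodule.add_mem _ ha hb
  · intro i j a _ b _
    refine span_tmul ?_ (hF.span a) (hG.span b)
    rintro a (⟨α, rfl⟩ | ⟨β, t, ht, rfl⟩) b (⟨α', rfl⟩ | ⟨β', t', ht', rfl⟩)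
    · exact Submodule.subset_span (Or.inl ⟨.inl (α, α'), rfl⟩)
    · exact Submodule.subset_span (Or.inr ⟨.inr (α, β'), t', ht', (nr_eq α β' t').symm⟩)
    · exact Submodule.subset_span (Or.inr ⟨.inl (β, α'), t, ht, (nl_eq hG β α' t).symm⟩)
    · rw [← psi_tmul (hG.n_mem β')]
      have h1 := (hB _ _).span t ht t' ht'
      have h2 := Submodule.mem_map_of_mem (f := Psi W (F.n β) (G.n β') (F.g β) (G.g β')) h1
      rw [Submodule.map_span] at h2
      refine Submodule.span_mono ?_ h2
      rintro _ ⟨_, ⟨l, rfl⟩, rfl⟩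
      exact Or.inl ⟨.inr ⟨β, β', l⟩, rfl⟩

/-- **The product of two frames is a frame.** -/
theorem prod_frm : Frm W P (Y.prod Z) (ops.pull (fst Y Z) D + ops.pull (snd Y Z) E)
    (prodData D E F G B) where
  hD := SmVar.IsCyc.add (ops.pull_mem _ hF.hD) (ops.pull_mem _ hG.hD)
  sl2 := prod_sl2 hF hG
  e_mem := prod_e_mem hF hG hB
  we_mem := prod_we_mem hF hG hB
  d_pos := prod_d_pos hF hG hB
  ee := prod_ee hF hG hM hB
  ee0 := prod_ee0 hF hG hM hB
  n_mem := prod_n_mem hF hG
  m_mem := prod_m_mem hF hG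
  w_n := prod_w_n hF hG
  r_pos := prod_r_pos hF hG
  nn := prod_nn hF hG hM
  nn0 := prod_nn0 hF hG hM
  en0 := prod_en0 hF hG hM hB
  ne0 := prod_ne0 hF hG hM hB
  span := prod_span hF hG hB

end

end Pool.Agent.H281R3.HT
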